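import Pool.Agent.SU.NFDefs

/-
PROJECT SU (MP_90aa37_lc).  Definitions used in the statements of the results.
-/

open Cardinal Ordinal Set

namespace SU

/-- `U` is uniform: every set in `U` has the size of the whole set. -/
def Uniform {X : Type} (U : Ultrafilter X) : Prop := ∀ A ∈ U, #A = #X

/-- `B` is a base of `U`: a family of sets in `U` such that every set in `U` contains a member of it. -/
def BaseOf {X : Type} (U : Ultrafilter X) (B : Set (Set X)) : Prop :=
  (∀ A ∈ B, A ∈ U) ∧ ∀ A ∈ U, ∃ A' ∈ B, A' ⊆ A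

/-- The ultrafilter number of `κ`: the least size of a base of a uniform ultrafilter on a set of size `κ`. -/
noncomputable def ultrafilterNumber (κ : Cardinal.{0}) : Cardinal.{0} :=
  sInf {c | ∃ (X : Type) (U : Ultrafilter X) (B : Set (Set X)),
    #X = κ ∧ Uniform U ∧ BaseOf U B ∧ #B = c}

/-- The tree property at `lam`: every tree of height `lam` with levels of size less than `lam` has a cofinal
branch. The tree is a partial order whose initial segments below a point are chains, `ht` is its height
function. -/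
def TreeProperty (lam : Cardinal.{0}) : Prop :=
  ∀ (T : Type) (_ : PartialOrder T) (ht : T → Ordinal.{0}),
    (∀ s u t : T, s < t → u < t → s ≤ u ∨ u ≤ s) → StrictMono ht →
    (∀ t : T, ∀ a < ht t, ∃ s, s < t ∧ ht s = a) →
    (∀ t : T, ht t < lam.ord) → (∀ a < lam.ord, ∃ t : T, ht t = a) →
    (∀ a : Ordinal.{0}, #{t : T // ht t = a} < lam) →
    ∃ S : Set T, IsChain (· ≤ ·) S ∧ ∀ a < lam.ord, ∃ t ∈ S, ht t = a

/-- `C` is a tower of length `ω_{ω+1}` which generates `V` over its projection `D` to `T`: the `C i` are in `V`,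
for `i < j` the fibre of `C j` over `t` is contained in the fibre of `C i` for `D`-almost all `t`, and every set in `V`
contains the part of some `C i` which lies over some set in `D`. -/
structure IsTower {T : Type} {F : T → ℕ} (V : Ultrafilter (Sm F))
    (C : (ω_ ((ω : Ordinal.{0}) + 1)).ToType → Set (Sm F)) : Prop where
  mem : ∀ i, C i ∈ V
  decreasing : ∀ i j, i < j →
    {t | ∀ a, (⟨t, a⟩ : Sm F) ∈ C j → (⟨t, a⟩ : Sm F) ∈ C i} ∈ V.map Sigma.fst
  generates : ∀ A ∈ V, ∃ i, ∃ Z ∈ V.map Sigma.fst, {x | x ∈ C i ∧ x.1 ∈ Z} ⊆ A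

end SU
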