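import Pool.Agent.SU.KeyG
import Pool.Agent.SU.RDefs

/-
PROJECT SU (MP_90aa37_lc).  Module CC: the character is at least the cofinality of the product.
-/

open Cardinal Ordinal Set

namespace SU

/-- `U` is `c`-decomposable: there is a function onto a set of size `c` which has `c` values on every set
in `U`. -/
def Decomposable {X : Type} (U : Ultrafilter X) (c : Cardinal.{0}) : Prop :=
  ∃ (S : Type) (f : X → S), #S = c ∧ ∀ A ∈ U, #(f '' A) = c

theorem unbounded_of_decomposable {X : Type} (U : Ultrafilter X) {c : Cardinal.{0}}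
    (h : Decomposable U c) :
    ∃ p : X → Ordinal.{0}, (∀ x, p x < c.ord) ∧ ∀ z < c.ord, {x | z ≤ p x} ∈ U := by
  obtain ⟨S, f, hS, hf⟩ := h
  have h1 : #S = #c.ord.ToType := by rw [mk_toType, card_ord, hS]
  obtain ⟨b⟩ := Cardinal.eq.1 h1
  refine ⟨fun x => (Ordinal.ToType.mk.symm (b (f x)) : Iio c.ord), fun x => (Ordinal.ToType.mk.symm (b (f x)) : Iio c.ord).2, fun z hz => ?_⟩
  by_contra hn
  have h2 := Ultrafilter.compl_mem_iff_notMem.2 hn
  have h3 := hf _ h2
  have h4 : #(f '' {x | z ≤ ((Ordinal.ToType.mk.symm (b (f x)) : Iio c.ord) : Ordinal.{0})}ᶜ) ≤ #z.ToType := by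
    refine Cardinal.mk_le_of_injective (f := fun s => Ordinal.ToType.mk
      ⟨((Ordinal.ToType.mk.symm (b s.1) : Iio c.ord) : Ordinal.{0}), ?_⟩) fun s s' hs => ?_
    · obtain ⟨s, x, hx, rfl⟩ := s
      have h6 : ¬ (z ≤ ((Ordinal.ToType.mk.symm (b (f x)) : Iio c.ord) : Ordinal.{0})) := hx
      exact not_le.1 h6
    · have h5 : ((Ordinal.ToType.mk.symm (b s.1) : Iio c.ord) : Ordinal.{0}) =
          ((Ordinal.ToType.mk.symm (b s'.1) : Iio c.ord) : Ordinal.{0}) :=
        Subtype.mk.inj (Ordinal.ToType.mk.injective hs)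
      exact Subtype.ext (b.injective (Ordinal.ToType.mk.symm.injective (Subtype.ext h5)))
  rw [h3, mk_toType] at h4
  exact absurd hz (not_lt.2 (Cardinal.ord_le.2 h4))

theorem char_ge_cof {X ι : Type} (U : Ultrafilter X) (B : ι → Set X) (hB : ∀ i, B i ∈ U)
    (hB' : ∀ A ∈ U, ∃ i, B i ⊆ A) (l : ℕ → Cardinal.{0}) (hl : StrictMono l)
    (hr : ∀ n, (l n).IsRegular) (hd : ∀ n, Decomposable U (l n)) :
    Order.cof (∀ n, (l n).ord.ToType) ≤ #ι := by
  classical
  choose p hp hU using fun n => unbounded_of_decomposable U (hd n)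
  obtain ⟨G, hG, hdom⟩ := keyG U B hB hB' l hl hr p hp hU
  have h1 : l 1 ≤ #ι := by
    by_contra hn
    have hn' : #ι < (l 1).ord.cof := by rw [(hr 1).cof_ord]; exact not_le.1 hn
    have h2 : (⨆ i, (G i 0 + 1)) < (l 1).ord := by
      apply Ordinal.iSup_lt_of_lt_cof hn'
      intro i
      have h3 := (isSuccLimit_ord (hr 1).aleph0_le).succ_lt (hG i 0)
      simpa using h3
    obtain ⟨i, hi⟩ := hdom (fun n => if n = 0 then (⨆ i, (G i 0 + 1)) else 0) (by
      intro n
      split_ifs with h3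
      · rw [h3]; exact h2
      · exact (hr _).ord_pos)
    have h3 := hi 0
    simp only [if_true] at h3
    have h4 := (Ordinal.le_iSup (fun i => G i 0 + 1) i).trans h3
    exact absurd h4 (not_le.2 (by simp))
  have h2 : #(ι × (l 0).ord.ToType) = #ι := by
    rw [mk_prod, Cardinal.lift_id, Cardinal.lift_id, mk_toType, card_ord]
    exact mul_eq_left ((hr 1).aleph0_le.trans h1) ((hl Nat.zero_lt_one).le.trans h1) (hr 0).ne_zero
  let S : ι × (l 0).ord.ToType → ∀ n, (l n).ord.ToType := fun q n =>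
    match n with
    | 0 => q.2
    | n + 1 => Ordinal.ToType.mk ⟨G q.1 n, hG q.1 n⟩
  have h3 : IsCofinal (range S) := by
    intro g
    obtain ⟨i, hi⟩ := hdom (fun n => (Ordinal.ToType.mk.symm (g (n + 1)) : Iio (l (n + 1)).ord))
      (fun n => (Ordinal.ToType.mk.symm (g (n + 1)) : Iio (l (n + 1)).ord).2)
    refine ⟨S (i, g 0), ⟨_, rfl⟩, fun n => ?_⟩
    cases n with
    | zero => exact le_rfl
    | succ n =>
      have h4 := hi n
      have h5 : Ordinal.ToType.mk.symm (g (n + 1)) ≤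
          (⟨G i n, hG i n⟩ : Iio (l (n + 1)).ord) := h4
      have h6 := Ordinal.ToType.mk.monotone h5
      rw [OrderIso.apply_symm_apply] at h6
      exact h6
  exact (Order.cof_le h3).trans (mk_range_le.trans h2.le)

end SU
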