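import Pool.Agent.SU.Red

/-
PROJECT SU (MP_90aa37_lc).  Module Reg: the ultrafilter number of a strong limit `ℵ_ω` is regular.
-/

open Cardinal Ordinal Set

namespace SU

theorem ultrafilterNumber_le {X : Type} (U : Ultrafilter X) (B : Set (Set X)) (hU : Uniform U)
    (hB : BaseOf U B) : ultrafilterNumber #X ≤ #B :=
  csInf_le' ⟨X, U, B, rfl, hU, hB, rfl⟩

/-- If a base of a normal form ultrafilter has the least possible size for ultrafilters on `ℵ_ω`, this size
has cofinality above `ℵ_ω`. -/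
theorem cof_large {T ι : Type} {F : T → ℕ} {V : Ultrafilter (Sm F)} (hNF : NormalForm F V)
    (hκ : (ℵ_ ω : Cardinal.{0}).IsStrongLimit) (B : ι → Set (Sm F)) (hB : IsBase V B)
    (hι : ∀ B' : Set (Set (Sm F)), BaseOf V B' → #ι ≤ #B') (hω : ℵ_ (ω : Ordinal.{0}) < #ι) :
    ℵ_ (ω : Ordinal.{0}) < (#ι).ord.cof := by
  classical
  by_contra hn
  have hn' := not_lt.1 hn
  -- a cofinal family of ordinals
  have h1 : #ι = #(#ι).ord.ToType := by rw [mk_toType, card_ord]
  obtain ⟨b⟩ := Cardinal.eq.1 h1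
  obtain ⟨S, hS, hSc⟩ := Order.exists_cof_eq (#ι).ord.ToType
  rw [Ordinal.cof_toType] at hSc
  have hmax : NoMaxOrder (#ι).ord.ToType := by
    have h2 : ℵ₀ ≤ #ι := (aleph0_le_aleph _).trans hω.le
    exact Cardinal.noMaxOrder h2
  -- for every member of S a set in V not almost containing the earlier base sets
  have h2 : ∀ s : S, ∃ A ∈ V, ∀ i : ι, b i < s.1 → ¬ SubD V (B i) A := by
    intro s
    by_contra hc
    push Not at hc
    let Q := {i : ι // b i < s.1} × {Z : Set T // Z ∈ V.map Sigma.fst}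
    let B' : Q → Set (Sm F) := fun q => {x | x ∈ B q.1.1 ∧ x.1 ∈ q.2.1}
    have hB' : IsBase V B' := by
      refine ⟨fun q => Filter.inter_mem (hB.1 _) q.2.2, fun A hA => ?_⟩
      obtain ⟨i, hi, hi2⟩ := hc A hA
      exact ⟨(⟨i, hi⟩, ⟨_, hi2⟩), fun x hx => hx.2 x.2 hx.1⟩
    have h3 := (hι _ (baseOf_range hB')).trans mk_range_le
    have h4 : #{i : ι // b i < s.1} < #ι := by
      have h5 : #{i : ι // b i < s.1} ≤ #(Iio s.1) :=
        Cardinal.mk_le_of_injective (f := fun i : {i : ι // b i < s.1} => (⟨b i.1, i.2⟩ : Iio s.1))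
          fun i j hij => Subtype.ext (b.injective (congrArg Subtype.val hij))
      refine h5.trans_lt ?_
      have h6 : #(Iio s.1) < #(#ι).ord.ToType := by
        apply mk_Iio_lt s.1
        rw [mk_toType, card_ord, Ordinal.type_toType]
      rwa [← h1] at h6
    have h5 : #{Z : Set T // Z ∈ V.map Sigma.fst} < #ι :=
      ((mk_subtype_le _).trans_lt (card_set_lt hκ hNF.small)).trans hω
    have h6 : #Q < #ι := by
      rw [mk_prod, Cardinal.lift_id, Cardinal.lift_id]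
      exact mul_lt_of_lt ((aleph0_le_aleph _).trans hω.le) h4 h5
    exact absurd h3 (not_le.2 h6)
  choose A hA hA2 using h2
  obtain ⟨A', hA', h3⟩ := directed hNF hκ (J := S) (by rw [hSc]; exact hn') A hA
  obtain ⟨i, hi⟩ := hB.2 A' hA'
  obtain ⟨c, hc⟩ := exists_gt (b i)
  obtain ⟨s, hs, hcs⟩ := hS c
  refine hA2 ⟨s, hs⟩ i (hc.trans_le hcs) (subD_trans ?_ (h3 ⟨s, hs⟩))
  exact Filter.mem_of_superset Filter.univ_mem fun t _ a ha => hi ha

theorem regular_of_cof {c : Cardinal.{0}} (h1 : ℵ_ (ω : Ordinal.{0}) < c.ord.cof)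
    (h2 : c < ℵ_ (ω_ ω)) : c.IsRegular := by
  have h0 : ℵ_ (ω : Ordinal.{0}) < c := h1.trans_le (Ordinal.cof_ord_le c)
  obtain ⟨α, rfl⟩ := mem_range_aleph_iff.2 ((aleph0_le_aleph _).trans h0.le)
  rcases zero_or_succ_or_isSuccLimit α with h4 | ⟨γ, h4⟩ | h4
  · rw [h4, aleph_lt_aleph] at h0
    exact absurd h0 (not_lt.2 zero_le)
  · rw [← h4, Order.succ_eq_add_one, ← succ_aleph]
    exact isRegular_succ (aleph0_le_aleph _)
  · exfalso
    rw [ord_aleph, cof_map_of_isNormal isNormal_omega h4] at h1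
    rw [aleph_lt_aleph] at h2
    have h5 : α.card < ℵ_ ω := lt_omega_iff_card_lt.1 h2
    exact absurd ((Ordinal.cof_le_card α).trans_lt h5) (not_lt.2 h1.le)

theorem uniform_exists : ∃ (X : Type) (U : Ultrafilter X) (B : Set (Set X)),
    #X = ℵ_ (ω : Ordinal.{0}) ∧ Uniform U ∧ BaseOf U B ∧ #B ≤ 2 ^ (ℵ_ ω : Cardinal.{0}) := by
  have hX : #(ω_ (ω : Ordinal.{0})).ToType = ℵ_ (ω : Ordinal.{0}) := by
    rw [mk_toType, Ordinal.card_omega]
  let f : Filter (ω_ (ω : Ordinal.{0})).ToType :=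
    Filter.comk (fun s => #s < ℵ_ (ω : Ordinal.{0})) (by
      show #(∅ : Set _) < _
      rw [mk_eq_zero]
      exact aleph_pos _) (fun t ht s hs => (mk_le_mk_of_subset hs).trans_lt ht)
      (fun s hs t ht => (mk_union_le s t).trans_lt (add_lt_of_lt (aleph0_le_aleph _) hs ht))
  have hf : f.NeBot := by
    rw [Filter.neBot_iff]
    intro h
    have h1 : (∅ : Set (ω_ (ω : Ordinal.{0})).ToType) ∈ f := by rw [h]; exact Filter.mem_bot
    have h2 : #((∅ : Set (ω_ (ω : Ordinal.{0})).ToType)ᶜ : Set _) < ℵ_ (ω : Ordinal.{0}) := h1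
    rw [compl_empty, mk_univ, hX] at h2
    exact absurd h2 (lt_irrefl _)
  refine ⟨_, Ultrafilter.of f, {A | A ∈ Ultrafilter.of f}, hX, fun A hA => ?_,
    ⟨fun A hA => hA, fun A hA => ⟨A, hA, Subset.rfl⟩⟩, ?_⟩
  · apply le_antisymm (mk_set_le _)
    rw [hX]
    by_contra hn
    have h1 : Aᶜ ∈ f := by
      show #(Aᶜᶜ : Set _) < _
      rw [compl_compl]
      exact not_le.1 hn
    exact Ultrafilter.compl_mem_iff_notMem.1 (Ultrafilter.of_le f h1) hA
  · refine (mk_set_le _).trans ?_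
    rw [mk_set, hX]

theorem number_spec : ∃ (X : Type) (U : Ultrafilter X) (B : Set (Set X)),
    #X = ℵ_ (ω : Ordinal.{0}) ∧ Uniform U ∧ BaseOf U B ∧ #B = ultrafilterNumber (ℵ_ ω) := by
  have hne : {c | ∃ (X : Type) (U : Ultrafilter X) (B : Set (Set X)),
      #X = ℵ_ (ω : Ordinal.{0}) ∧ Uniform U ∧ BaseOf U B ∧ #B = c}.Nonempty := by
    obtain ⟨X, U, B, h1, h2, h3, -⟩ := uniform_exists
    exact ⟨_, X, U, B, h1, h2, h3, rfl⟩
  exact csInf_mem hne

theorem number_le_pow : ultrafilterNumber (ℵ_ ω) ≤ 2 ^ (ℵ_ ω : Cardinal.{0}) := by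
  obtain ⟨X, U, B, h1, h2, h3, h4⟩ := uniform_exists
  rw [← h1]
  exact (ultrafilterNumber_le U B h2 h3).trans (h1 ▸ h4)

/-- The ultrafilter number of a strong limit `ℵ_ω` is a regular cardinal (if it is below `ℵ_{ω_ω}`). -/
theorem number_regular (hκ : (ℵ_ ω : Cardinal.{0}).IsStrongLimit)
    (h : ultrafilterNumber (ℵ_ ω) < ℵ_ (ω_ ω)) : (ultrafilterNumber (ℵ_ ω)).IsRegular := by
  refine regular_of_cof ?_ h
  rcases number_le_pow.lt_or_eq with h1 | h1
  · obtain ⟨X, U, B, hX, hU, hB, hc⟩ := number_spec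
    obtain ⟨T, F, φ, hNF⟩ := normalForm_exists U _ (isBase_of_baseOf hB) hκ (by rw [hc]; exact h1)
      (by rw [hc]; exact h) hX hU
    have h2 := cof_large hNF hκ _ (isBase_map U _ (isBase_of_baseOf hB) φ) (fun B' hB' => ?_) ?_
    · rw [hc] at h2
      exact h2
    · rw [hc, ← nf_card_univ hNF]
      exact ultrafilterNumber_le _ B' (fun A hA => by rw [nf_card hNF A hA, nf_card_univ hNF]) hB'
    · exact base_large U _ (isBase_of_baseOf hB) hκ hX hU
  · rw [h1]
    have h2 := Cardinal.lt_cof_ord_power (a := ℵ_ (ω : Ordinal.{0})) (b := 2) (aleph0_le_aleph _)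
      one_lt_two
    exact h2

end SU
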