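import Pool.Agent.SU.Defs

/-
PROJECT SU (MP_90aa37_lc).  Module Bas: basic facts on the ordinals `W n = ω_n`.

PLAN.
* `W_lt_W`, `W_le_W`: `Ordinal.omega_lt_omega`, `Ordinal.omega_le_omega`, `Nat.cast_lt`.
* `card_W`: `Ordinal.card_omega`.  `lt_W_iff`: `Cardinal.lt_omega_iff_card_lt` (or Ordinal.…).
* `add_one_lt_W`: `isSuccLimit_omega`.
* `card_le_of_lt_W`: `lt_W_iff` and `ℵ_{n+1} = succ ℵ_n` (`aleph_succ`/`aleph_add_one`), `Order.lt_succ_iff`.
* `isRegular_aleph_nat`: n = 0: `isRegular_aleph0`; successor: `isRegular_aleph_succ` (or `isRegular_succ`).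
* `sup_lt_W`: `W (n+1)` is the initial ordinal of the regular cardinal `ℵ_{n+1}`, its cofinality is
  `ℵ_{n+1} > #K` (`IsRegular.cof_omega_eq`); take `b = ⨆ x, (f x + 1)` (`Ordinal.iSup_lt_of_lt_cof` or a similar
  lemma of Mathlib/SetTheory/Cardinal/Cofinality/Ordinal.lean or Ordinal/Family.lean; grep lt_cof).
* `exists_le_aleph`: `ℵ_ω` is the supremum of the `ℵ_n` (`aleph_limit`, or `isNormal_aleph`).
* `exists_lt_W`: similarly with `isNormal_omega`.
* `exists_idx`: `M := (ω_ k).ToType` (or `(W k).ToType`), cardinality `mk_toType`, `card_omega`; a subset of size less than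
  `ℵ_k = cof` is not cofinal (`Order.cof_le`, `cof_toType`), so some `b` is not below any element of it.
-/

open Cardinal Ordinal Set

namespace SU

theorem W_lt_W {n m : ℕ} : W n < W m ↔ n < m := by
  unfold W
  rw [Ordinal.omega_lt_omega]
  exact Nat.cast_lt

theorem W_le_W {n m : ℕ} : W n ≤ W m ↔ n ≤ m := by
  unfold W
  rw [Ordinal.omega_le_omega]
  exact Nat.cast_le

theorem W_pos (n : ℕ) : 0 < W n := Ordinal.omega_pos _

theorem W_zero : W 0 = ω := by
  unfold W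
  simp

theorem card_W (n : ℕ) : (W n).card = ℵ_ (n : Ordinal.{0}) := Ordinal.card_omega _

theorem ord_aleph_nat (n : ℕ) : (ℵ_ (n : Ordinal.{0})).ord = W n := Cardinal.ord_aleph _

theorem lt_W_iff {z : Ordinal.{0}} {n : ℕ} : z < W n ↔ z.card < ℵ_ (n : Ordinal.{0}) := by
  rw [← ord_aleph_nat, Cardinal.lt_ord]

theorem add_one_lt_W {z : Ordinal.{0}} {n : ℕ} (h : z < W n) : z + 1 < W n := by
  have h1 : Order.IsSuccLimit (W n) := isSuccLimit_omega _
  simpa using h1.succ_lt h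

theorem card_le_of_lt_W {z : Ordinal.{0}} {n : ℕ} (h : z < W (n + 1)) :
    z.card ≤ ℵ_ (n : Ordinal.{0}) := by
  rw [lt_W_iff] at h
  have h1 : ((n + 1 : ℕ) : Ordinal.{0}) = (n : Ordinal.{0}) + 1 := by push_cast; rfl
  rw [h1, ← succ_aleph] at h
  exact Order.lt_succ_iff.1 h

theorem isRegular_aleph_nat (n : ℕ) : (ℵ_ (n : Ordinal.{0})).IsRegular := by
  cases n with
  | zero => simpa using isRegular_aleph0
  | succ n =>
    have h1 : ((n + 1 : ℕ) : Ordinal.{0}) = (n : Ordinal.{0}) + 1 := by push_cast; rfl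
    rw [h1, ← succ_aleph]
    exact isRegular_succ (aleph0_le_aleph _)

theorem sup_lt_W {K : Type} {n : ℕ} (hK : #K ≤ ℵ_ (n : Ordinal.{0})) (f : K → Ordinal.{0})
    (hf : ∀ x, f x < W (n + 1)) : ∃ b < W (n + 1), ∀ x, f x < b := by
  refine ⟨⨆ x, (f x + 1), ?_, fun x => ?_⟩
  · apply Ordinal.iSup_lt_of_lt_cof
    · rw [← ord_aleph_nat, (isRegular_aleph_nat (n + 1)).cof_ord]
      refine hK.trans_lt (aleph_lt_aleph.2 ?_)
      exact_mod_cast Nat.lt_succ_self n
    · exact fun x => add_one_lt_W (hf x)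
  · refine lt_of_lt_of_le ?_ (Ordinal.le_iSup (fun x => f x + 1) x)
    simp

theorem exists_le_aleph {c : Cardinal.{0}} (h : c < ℵ_ ω) : ∃ n : ℕ, c ≤ ℵ_ (n : Ordinal.{0}) := by
  rcases lt_or_ge c ℵ₀ with h1 | h1
  · exact ⟨0, h1.le.trans (aleph0_le_aleph _)⟩
  · obtain ⟨o, rfl⟩ := mem_range_aleph_iff.2 h1
    rw [aleph_lt_aleph, Ordinal.lt_omega0] at h
    obtain ⟨n, rfl⟩ := h
    exact ⟨n, le_rfl⟩

theorem aleph_nat_lt (n : ℕ) : ℵ_ (n : Ordinal.{0}) < (ℵ_ ω : Cardinal.{0}) :=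
  aleph_lt_aleph.2 (Ordinal.natCast_lt_omega0 n)

theorem exists_lt_W {z : Ordinal.{0}} (h : z < ω_ ω) : ∃ n : ℕ, z < W n := by
  have h1 : z.card < ℵ_ ω := by
    rw [← Cardinal.lt_ord, Cardinal.ord_aleph]
    exact h
  obtain ⟨n, hn⟩ := exists_le_aleph h1
  refine ⟨n + 1, lt_W_iff.2 (hn.trans_lt (aleph_lt_aleph.2 ?_))⟩
  exact_mod_cast Nat.lt_succ_self n

/-- Index sets: a well order `M` of size `ℵ_k` in which every subset of size less than `ℵ_k` has a strict
upper bound. -/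
theorem exists_idx (k : ℕ) : ∃ (M : Type) (_ : LinearOrder M) (_ : WellFoundedLT M),
    #M = ℵ_ (k : Ordinal.{0}) ∧
      ∀ A : Set M, #A < ℵ_ (k : Ordinal.{0}) → ∃ b, ∀ a ∈ A, a < b := by
  refine ⟨(W k).ToType, inferInstance, inferInstance, ?_, ?_⟩
  · rw [mk_toType, card_W]
  · intro A hA
    by_contra hc
    push Not at hc
    have h1 : IsCofinal A := hc
    have h2 := Order.cof_le h1
    have h3 : (W k).cof = ℵ_ (k : Ordinal.{0}) := by
      rw [← ord_aleph_nat, (isRegular_aleph_nat k).cof_ord]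
    rw [Ordinal.cof_toType, h3] at h2
    exact absurd hA (not_lt.2 h2)

end SU
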