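import Pool.Agent.SU.Defs

/-
PROJECT SU (MP_90aa37_lc).  Module En: enumerations of the ordinals `c` by their cardinals, and the closure `Cl`.
Only `exists_en` has to be proved (keep the definitions below it).

PROOF of `exists_en`.  For every ordinal `c`, `c.ToType` and `c.card.ord.ToType` have the same cardinality
(`mk_toType`, `card_ord`), so there is a bijection; transport along the order isomorphisms with the initial segments
(`Ordinal.ToType.mk`, `typein`/`enum`).  `en c d := 0`, `inv c b := 0` outside the initial segments.  `choose` over all `c`.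
-/

open Cardinal Ordinal Set

namespace SU

theorem exists_en : ∃ en inv : Ordinal.{0} → Ordinal.{0} → Ordinal.{0},
    ∀ c, ∀ b < c, inv c b < c.card.ord ∧ en c (inv c b) = b := by
  have h : ∀ c : Ordinal.{0}, ∃ e i : Ordinal.{0} → Ordinal.{0},
      ∀ b < c, i b < c.card.ord ∧ e (i b) = b := by
    intro c
    classical
    have h1 : Cardinal.mk (Iio c) = Cardinal.mk (Iio c.card.ord) := by
      rw [Ordinal.mk_Iio_ordinal, Ordinal.mk_Iio_ordinal, Cardinal.card_ord]
    obtain ⟨f⟩ := Cardinal.eq.1 h1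
    refine ⟨fun d => if hd : d < c.card.ord then ((f.symm ⟨d, hd⟩ : Iio c) : Ordinal.{0}) else 0,
      fun b => if hb : b < c then ((f ⟨b, hb⟩ : Iio c.card.ord) : Ordinal.{0}) else 0, ?_⟩
    intro b hb
    have h2 : (if hb : b < c then ((f ⟨b, hb⟩ : Iio c.card.ord) : Ordinal.{0}) else 0) =
        ((f ⟨b, hb⟩ : Iio c.card.ord) : Ordinal.{0}) := dif_pos hb
    have h3 : ((f ⟨b, hb⟩ : Iio c.card.ord) : Ordinal.{0}) < c.card.ord := (f ⟨b, hb⟩).2
    constructor
    · show (if hb : b < c then ((f ⟨b, hb⟩ : Iio c.card.ord) : Ordinal.{0}) else 0) < c.card.ord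
      rw [h2]
      exact h3
    · show (if hd : (if hb : b < c then ((f ⟨b, hb⟩ : Iio c.card.ord) : Ordinal.{0}) else 0) <
          c.card.ord then ((f.symm ⟨_, hd⟩ : Iio c) : Ordinal.{0}) else 0) = b
      simp only [h2]
      rw [dif_pos h3]
      have h4 : f.symm ⟨((f ⟨b, hb⟩ : Iio c.card.ord) : Ordinal.{0}), h3⟩ = ⟨b, hb⟩ :=
        f.symm_apply_apply ⟨b, hb⟩
      rw [h4]
  choose en inv h using h
  exact ⟨en, inv, h⟩

/-- Enumeration of `c` by `|c|`. -/
noncomputable def en : Ordinal.{0} → Ordinal.{0} → Ordinal.{0} := exists_en.choose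

/-- The inverse of `en`. -/
noncomputable def inv : Ordinal.{0} → Ordinal.{0} → Ordinal.{0} := exists_en.choose_spec.choose

theorem inv_spec {c b : Ordinal.{0}} (h : b < c) : inv c b < c.card.ord ∧ en c (inv c b) = b :=
  exists_en.choose_spec.choose_spec c b h

/-- The closure of a set of ordinals under `en` and `inv`. -/
inductive Cl (A : Set Ordinal.{0}) : Ordinal.{0} → Prop
  | base {a : Ordinal.{0}} : a ∈ A → Cl A a
  | en {c d : Ordinal.{0}} : Cl A c → Cl A d → Cl A (SU.en c d)
  | inv {c d : Ordinal.{0}} : Cl A c → Cl A d → Cl A (SU.inv c d)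

/-- Supremum of the earlier values. -/
noncomputable def T {M ι : Type} [LinearOrder M] (G : ι → ℕ → Ordinal.{0}) (a : M → ι) (y : M) (n : ℕ) :
    Ordinal.{0} :=
  ⨆ z : Iio y, G (a z) n

/-- The generators. -/
def Bs {M ι : Type} [LinearOrder M] (k : ℕ) (G : ι → ℕ → Ordinal.{0}) (f : ℕ → Ordinal.{0}) (a : M → ι)
    (D : Set M) : Set Ordinal.{0} :=
  Iio (W k) ∪ range f ∪ {o | ∃ y ∈ D, ∃ n, o = G (a y) n ∨ o = T G a y n}

/-- The closed set generated. -/
def NN {M ι : Type} [LinearOrder M] (k : ℕ) (G : ι → ℕ → Ordinal.{0}) (f : ℕ → Ordinal.{0}) (a : M → ι)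
    (D : Set M) : Set Ordinal.{0} :=
  {o | Cl (Bs k G f a D) o}

/-- `G (a y)` is above the closed set generated by the earlier values, in all coordinates `n ≥ k`. -/
def Good {M ι : Type} [LinearOrder M] (k : ℕ) (G : ι → ℕ → Ordinal.{0}) (f : ℕ → Ordinal.{0})
    (a : M → ι) : Prop :=
  ∀ (y : M) (n : ℕ), k ≤ n → ∀ b ∈ NN k G f a (Iio y), b < W (n + 1) → b < G (a y) n

end SU
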