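import Pool.Agent.SU.Bas
import Pool.Agent.SU.En

/-
PROJECT SU (MP_90aa37_lc).  Module Cl: the closure of a set covered by `ℵ_k` many ordinals is covered by `ℵ_k` many.

PROOF.  Let `A ⊆ range e`, `e : K → Ordinal`, `#K ≤ ℵ_k`; we may replace `K` by `K ⊕ ℕ` (or keep it).  Let
`K 0 = K`, `K (n+1) = K n ⊕ (K n × K n) ⊕ (K n × K n)`, `e 0 = e`, `e (n+1) = (e n, (u,v) ↦ en (e n u) (e n v), (u,v) ↦ inv (e n u) (e n v))`
(recursion giving a sigma type `Σ K : Type, K → Ordinal`, or prove by induction: for all n there are a type `K n` of size `≤ ℵ_k`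
and `e n` whose range contains ... ), or: define sets `A n` by recursion, `A 0 = A`, `A (n+1) = A n ∪ image2 en (A n) (A n) ∪ image2 inv (A n) (A n)`,
show `Cov k (A n)` for all n by induction (sums and products of types of size `≤ ℵ_k` have size `≤ ℵ_k`), the union of
countably many covered sets is covered (`Σ n, K n`, choice), and `{o | Cl A o} ⊆ ⋃ n, A n` by induction on `Cl` (the `A n` increase).
-/

open Cardinal Ordinal Set

namespace SU

theorem cov_mono {k : ℕ} {A B : Set Ordinal.{0}} (h : A ⊆ B) (hB : Cov k B) : Cov k A := by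
  obtain ⟨K, e, hK, he⟩ := hB
  exact ⟨K, e, hK, h.trans he⟩

/-- A family of covered sets indexed by a type of size at most `ℵ_k`. -/
theorem cov_iUnion {k : ℕ} {J : Type} (hJ : #J ≤ ℵ_ (k : Ordinal.{0})) {A : J → Set Ordinal.{0}}
    (hA : ∀ i, Cov k (A i)) : Cov k (⋃ i, A i) := by
  choose K e hK he using hA
  refine ⟨Σ i, K i, fun x => e x.1 x.2, ?_, ?_⟩
  · rw [mk_sigma]
    calc Cardinal.sum (fun i => #(K i)) ≤ Cardinal.sum (fun _ : J => (ℵ_ (k : Ordinal.{0}) : Cardinal.{0})) :=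
          Cardinal.sum_le_sum _ _ hK
      _ = #J * ℵ_ (k : Ordinal.{0}) := by rw [Cardinal.sum_const']
      _ ≤ ℵ_ (k : Ordinal.{0}) * ℵ_ (k : Ordinal.{0}) := by gcongr
      _ = ℵ_ (k : Ordinal.{0}) := mul_eq_self (aleph0_le_aleph _)
  · intro o ho
    obtain ⟨i, hi⟩ := mem_iUnion.1 ho
    obtain ⟨x, hx⟩ := he i hi
    exact ⟨⟨i, x⟩, hx⟩

theorem cov_union {k : ℕ} {A B : Set Ordinal.{0}} (hA : Cov k A) (hB : Cov k B) : Cov k (A ∪ B) := by
  have h1 : A ∪ B = ⋃ i : Bool, cond i A B := by rw [union_eq_iUnion]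
  rw [h1]
  refine cov_iUnion ?_ ?_
  · refine le_trans ?_ (aleph0_le_aleph _)
    exact mk_le_aleph0
  · intro i
    cases i
    · exact hB
    · exact hA

theorem cov_range {k : ℕ} {J : Type} (hJ : #J ≤ ℵ_ (k : Ordinal.{0})) (f : J → Ordinal.{0}) :
    Cov k (range f) := ⟨J, f, hJ, le_rfl⟩

theorem cov_Iio (k : ℕ) : Cov k (Iio (W k)) := by
  refine ⟨(W k).ToType, fun x => (Ordinal.ToType.mk.symm x : Iio (W k)), ?_, ?_⟩
  · rw [mk_toType, card_W]
  · intro o ho
    exact ⟨Ordinal.ToType.mk ⟨o, ho⟩, by simp⟩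

private theorem cov_image2 {k : ℕ} {A : Set Ordinal.{0}} (hA : Cov k A)
    (h : Ordinal.{0} → Ordinal.{0} → Ordinal.{0}) : Cov k (image2 h A A) := by
  obtain ⟨K, e, hK, he⟩ := hA
  refine ⟨K × K, fun x => h (e x.1) (e x.2), ?_, ?_⟩
  · rw [mk_prod, Cardinal.lift_id]
    exact (mul_le_mul' hK hK).trans (mul_eq_self (aleph0_le_aleph _)).le
  · rintro o ⟨u, hu, v, hv, rfl⟩
    obtain ⟨x, rfl⟩ := he hu
    obtain ⟨y, rfl⟩ := he hv
    exact ⟨(x, y), rfl⟩

private noncomputable def stg (A : Set Ordinal.{0}) : ℕ → Set Ordinal.{0}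
  | 0 => A
  | n + 1 => stg A n ∪ (image2 en (stg A n) (stg A n) ∪ image2 inv (stg A n) (stg A n))

private theorem stg_mono (A : Set Ordinal.{0}) : Monotone (stg A) :=
  monotone_nat_of_le_succ fun _ => subset_union_left

theorem cov_cl {k : ℕ} {A : Set Ordinal.{0}} (hA : Cov k A) : Cov k {o | Cl A o} := by
  have h1 : ∀ n, Cov k (stg A n) := by
    intro n
    induction n with
    | zero => exact hA
    | succ n ih => exact cov_union ih (cov_union (cov_image2 ih en) (cov_image2 ih inv))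
  refine cov_mono ?_ (cov_iUnion (J := ℕ) ?_ h1)
  · intro o ho
    have ho' : Cl A o := ho
    clear ho
    rw [mem_iUnion]
    induction ho' with
    | base ha => exact ⟨0, ha⟩
    | en _ _ h2 h3 =>
      obtain ⟨m, hm⟩ := h2
      obtain ⟨n, hn⟩ := h3
      exact ⟨max m n + 1, Or.inr (Or.inl ⟨_, stg_mono A (le_max_left m n) hm, _,
        stg_mono A (le_max_right m n) hn, rfl⟩)⟩
    | inv _ _ h2 h3 =>
      obtain ⟨m, hm⟩ := h2
      obtain ⟨n, hn⟩ := h3
      exact ⟨max m n + 1, Or.inr (Or.inr ⟨_, stg_mono A (le_max_left m n) hm, _,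
        stg_mono A (le_max_right m n) hn, rfl⟩)⟩
  · rw [mk_nat]
    exact aleph0_le_aleph _

end SU
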