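import Mathlib

/-
PROJECT SU (MP_90aa37_lc).  Module Cof: below `ℵ_{ω_ω}` some `ℵ_k` is not a cofinality of a cardinal `≥ ℵ_ω`.
Mathlib only.

COMPLETE PROOF.  If `χ < ℵ_ω`, then `k = 1` works (no ε at all).  Let `ℵ_ω ≤ χ`, `χ = ℵ_β` (`mem_range_aleph_iff`, `range_aleph`),
`β < ω_ω` (`aleph_lt_aleph`).  `ω_ω` is the supremum of the `ω_k` (`isNormal_omega`, ω is a limit), so `β < ω_ k` for some `k ≥ 1`.
Let `ℵ_ω ≤ ε ≤ χ`, `ε = ℵ_α`, `ω ≤ α ≤ β < ω_ k`; `ε.ord = ω_ α` (`ord_aleph`).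
If `α` is a limit: `cof (ω_ α) = cof α` (`cof_map_of_isNormal isNormal_omega` or `cof_omega`) `≤ α.card < ℵ_k`
(`cof_le_card`, `lt_omega_iff_card_lt`).
If `α` is a successor `γ + 1`: `ℵ_α` is regular (`isRegular_aleph_succ`/`isRegular_succ`), `cof (ℵ_α).ord = ℵ_α ≥ ℵ_ω > ℵ_k`.
`α = 0` is impossible.
-/

open Cardinal Ordinal Set

namespace SU

theorem cof_good (χ : Cardinal.{0}) (h : χ < ℵ_ (ω_ ω)) :
    ∃ k : ℕ, 1 ≤ k ∧ ∀ ε : Cardinal.{0}, ℵ_ ω ≤ ε → ε ≤ χ → ε.ord.cof ≠ ℵ_ (k : Ordinal.{0}) := by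
  rcases lt_or_ge χ (ℵ_ ω) with h1 | h1
  · exact ⟨1, le_rfl, fun ε h2 h3 => absurd (h2.trans h3) (not_le.2 h1)⟩
  · obtain ⟨β, rfl⟩ := mem_range_aleph_iff.2 ((aleph0_le_aleph _).trans h1)
    rw [aleph_lt_aleph] at h
    obtain ⟨k, hk1, hk⟩ : ∃ k : ℕ, 1 ≤ k ∧ β < ω_ (k : Ordinal.{0}) := by
      by_contra hc
      push Not at hc
      have h2 : ω_ ω ≤ β := by
        rw [isNormal_omega.le_iff_forall_le isSuccLimit_omega0]
        intro a ha
        obtain ⟨n, rfl⟩ := Ordinal.lt_omega0.1 ha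
        refine le_trans ?_ (hc (n + 1) (by omega))
        rw [omega_le_omega]
        exact_mod_cast Nat.le_succ n
      exact absurd h (not_lt.2 h2)
    refine ⟨k, hk1, fun ε h2 h3 => ?_⟩
    obtain ⟨α, rfl⟩ := mem_range_aleph_iff.2 ((aleph0_le_aleph _).trans h2)
    rw [aleph_le_aleph] at h2 h3
    rw [ord_aleph]
    rcases zero_or_succ_or_isSuccLimit α with h4 | ⟨γ, h4⟩ | h4
    · rw [h4] at h2
      exact absurd h2 (not_le.2 omega0_pos)
    · rw [← h4, ← ord_aleph]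
      have h5 : (ℵ_ (Order.succ γ)).IsRegular := by
        rw [aleph_succ]
        exact isRegular_succ (aleph0_le_aleph _)
      rw [h5.cof_ord, h4]
      intro h6
      have h7 := aleph.injective h6
      rw [h7] at h2
      exact absurd (Ordinal.natCast_lt_omega0 k) (not_lt.2 h2)
    · rw [cof_map_of_isNormal isNormal_omega h4]
      apply ne_of_lt
      refine (Ordinal.cof_le_card α).trans_lt ?_
      rw [← lt_omega_iff_card_lt]
      exact h3.trans_lt hk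

end SU
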