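import Pool.Agent.SU.Mon

/-
PROJECT SU (MP_90aa37_lc).  Module Common: two good sequences which agree on an unbounded set have common elements
of the generated sets above any element below `ω_{n+1}`.

PROOF.  Let `n ≥ k`.
(1) For `y < z`: `G (a y) n < G (a z) n`: `G (a y) n ∈ NN k G f a (Iio z)` (`g_mem_nn`), `< W (n+1)` (hG), and Good.  Same for `a'`.
(2) Let `b ∈ NN k G f a univ`, `b < W (n+1)`; `nn_local` gives `y` with `b ∈ NN k G f a (Iio y)` (M has no maximum by `hΞ`, and is nonempty: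
`hseq` needs a sequence; if M were empty `NN` could still contain b; get an element of `M` from `hΞne : Nonempty M`).
Choose by recursion a strictly increasing sequence `s : ℕ → M` in `Ξ` with `y < s 0`.  The set of strict upper bounds of
`range s` is nonempty (`hseq`), let `w` be its minimum (well-foundedness).  Then `z < w` implies `z ≤ s j` for some `j`.
(3) `c := T G a w n = ⨆ z : Iio w, G (a z) n`.  By (1) and (2) it equals `⨆ j, G (a (s j)) n` (each `G (a z) n ≤ G (a (s j)) n`), and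
`a (s j) = a' (s j)` (`heq`), so `c = T G a' w n`.  (`Ordinal.le_iSup`, `ciSup_le'`/`Ordinal.iSup_le`; all families are small.)
(4) `b < G (a (s 0)) n ≤ c` (Good at `s 0`, `nn_mono` for `Iio y ⊆ Iio (s 0)`); `c ≤ G (a w) n < W (n+1)` by (1); `c ∈ NN k G f a univ` and
`c ∈ NN k G f' a' univ` by `t_mem_nn`.
-/

open Cardinal Ordinal Set

namespace SU

private theorem good_lt {M ι : Type} [LinearOrder M] {k : ℕ} {G : ι → ℕ → Ordinal.{0}}
    (hG : ∀ i n, G i n < W (n + 1)) {f : ℕ → Ordinal.{0}} {a : M → ι} (h : Good k G f a) {n : ℕ}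
    (hn : k ≤ n) {y z : M} (hyz : y < z) : G (a y) n < G (a z) n :=
  h z n hn _ (g_mem_nn k G f a (D := Iio z) hyz n) (hG _ _)

private theorem T_eq {M ι : Type} [LinearOrder M] {k : ℕ} {G : ι → ℕ → Ordinal.{0}}
    (hG : ∀ i n, G i n < W (n + 1)) {f : ℕ → Ordinal.{0}} {a : M → ι} (h : Good k G f a) {n : ℕ}
    (hn : k ≤ n) (s : ℕ → M) (w : M) (h1 : ∀ j, s j < w) (h2 : ∀ z < w, ∃ j, z ≤ s j) :
    T G a w n = ⨆ j, G (a (s j)) n := by
  unfold T
  apply le_antisymm
  · apply Ordinal.iSup_le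
    rintro ⟨z, hz⟩
    obtain ⟨j, hj⟩ := h2 z hz
    refine le_trans ?_ (Ordinal.le_iSup (fun j => G (a (s j)) n) j)
    rcases hj.lt_or_eq with h3 | h3
    · exact (good_lt hG h hn h3).le
    · simp only [h3, le_refl]
  · apply Ordinal.iSup_le
    intro j
    exact Ordinal.le_iSup (fun z : Iio w => G (a z) n) ⟨s j, h1 j⟩

theorem common {M ι : Type} [LinearOrder M] [WellFoundedLT M] [Nonempty M] {k : ℕ}
    (hseq : ∀ s : ℕ → M, ∃ b, ∀ j, s j < b) (G : ι → ℕ → Ordinal.{0}) (hG : ∀ i n, G i n < W (n + 1))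
    {f f' : ℕ → Ordinal.{0}} {a a' : M → ι} (h : Good k G f a) (h' : Good k G f' a')
    (Ξ : Set M) (hΞ : ∀ y, ∃ z ∈ Ξ, y < z) (heq : ∀ z ∈ Ξ, a z = a' z) (n : ℕ) (hn : k ≤ n)
    {b : Ordinal.{0}} (hb : b ∈ NN k G f a univ) (hbn : b < W (n + 1)) :
    ∃ c, b < c ∧ c < W (n + 1) ∧ c ∈ NN k G f a univ ∧ c ∈ NN k G f' a' univ := by
  obtain ⟨y, hy⟩ := nn_local (fun y => (hΞ y).imp fun z hz => hz.2) k G f a hb
  choose nx hnx1 hnx2 using hΞ
  let s : ℕ → M := fun j => nx^[j] (nx y)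
  have hs1 : ∀ j, s j ∈ Ξ := by
    intro j
    cases j with
    | zero => exact hnx1 y
    | succ j =>
      simp only [s, Function.iterate_succ_apply']
      exact hnx1 _
  have hs2 : ∀ j, s j < s (j + 1) := by
    intro j
    simp only [s, Function.iterate_succ_apply']
    exact hnx2 _
  obtain ⟨b0, hb0⟩ := hseq s
  obtain ⟨w, hw1, hw2⟩ : ∃ w, (∀ j, s j < w) ∧ ∀ z < w, ∃ j, z ≤ s j := by
    have hne : {w | ∀ j, s j < w}.Nonempty := ⟨b0, hb0⟩
    refine ⟨(wellFounded_lt (α := M)).min {w | ∀ j, s j < w} hne,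
      (wellFounded_lt (α := M)).min_mem {w | ∀ j, s j < w} hne, fun z hz => ?_⟩
    by_contra hc
    push Not at hc
    exact (wellFounded_lt (α := M)).not_lt_min {w | ∀ j, s j < w} hc hz
  have hTa := T_eq hG h hn s w hw1 hw2
  have hTa' := T_eq hG h' hn s w hw1 hw2
  have hTT : T G a w n = T G a' w n := by
    rw [hTa, hTa']
    congr 1
    funext j
    rw [heq (s j) (hs1 j)]
  refine ⟨T G a w n, ?_, ?_, t_mem_nn k G f a (mem_univ w) n, ?_⟩
  · have h3 : b < G (a (s 0)) n :=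
      h (s 0) n hn b (nn_mono k G f a (Iio_subset_Iio (hnx2 y).le) hy) hbn
    rw [hTa]
    exact h3.trans_le (Ordinal.le_iSup (fun j => G (a (s j)) n) 0)
  · refine lt_of_le_of_lt ?_ (hG (a w) n)
    unfold T
    apply Ordinal.iSup_le
    rintro ⟨z, hz⟩
    exact (good_lt hG h hn hz).le
  · rw [hTT]
    exact t_mem_nn k G f' a' (mem_univ w) n

end SU
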