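import Pool.Agent.SU.Bas

/-
PROJECT SU (MP_90aa37_lc).  Module Conv: decomposability in the usual form.
-/

open Cardinal Ordinal Set

namespace SU

theorem dec_of_map {X S : Type} (U : Ultrafilter X) (m : ℕ) (F : X → S)
    (hS : #S = ℵ_ (m : Ordinal.{0})) (hF : ∀ A ∈ U, #(F '' A) = ℵ_ (m : Ordinal.{0})) : Dec U m := by
  have h1 : #S = #(W m).ToType := by rw [mk_toType, card_W, hS]
  obtain ⟨e⟩ := Cardinal.eq.1 h1
  let r : S → Ordinal.{0} := fun s => (ToType.mk.symm (e s) : Iio (W m)).1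
  have hr : ∀ s, r s < W m := fun s => (ToType.mk.symm (e s)).2
  have hri : Function.Injective r := by
    intro s s' h
    exact e.injective (ToType.mk.symm.injective (Subtype.ext h))
  refine ⟨fun x => r (F x), fun x => hr _, fun z hz => ?_⟩
  have h2 : {x | r (F x) < z} ∉ U := by
    intro hU
    have h3 := hF _ hU
    have h4 : #(F '' {x | r (F x) < z}) ≤ #z.ToType := by
      refine mk_le_of_injective (f := fun y : (F '' {x | r (F x) < z} : Set S) =>
        ToType.mk ⟨r y.1, ?_⟩) ?_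
      · obtain ⟨y, x, hx, rfl⟩ := y
        exact hx
      · intro y y' hy
        have h5 := congrArg Subtype.val (ToType.mk.injective hy)
        exact Subtype.ext (hri h5)
    rw [h3, mk_toType] at h4
    exact absurd (lt_W_iff.1 hz) (not_lt.2 h4)
  have h6 := Ultrafilter.compl_mem_iff_notMem.2 h2
  have h7 : {x | r (F x) < z}ᶜ = {x | z ≤ r (F x)} := by
    ext x
    show ¬ r (F x) < z ↔ z ≤ r (F x)
    exact not_lt
  rw [h7] at h6
  exact h6

theorem map_of_dec {X : Type} (U : Ultrafilter X) (m : ℕ) (h : Dec U m) :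
    ∃ (S : Type) (F : X → S), #S = ℵ_ (m : Ordinal.{0}) ∧
      ∀ A ∈ U, #(F '' A) = ℵ_ (m : Ordinal.{0}) := by
  obtain ⟨p, hp, hpU⟩ := h
  have hS : #(W m).ToType = ℵ_ (m : Ordinal.{0}) := by rw [mk_toType, card_W]
  let F : X → (W m).ToType := fun x => ToType.mk (⟨p x, hp x⟩ : Iio (W m))
  refine ⟨(W m).ToType, F, hS, fun A hA => ?_⟩
  apply le_antisymm
  · exact (mk_set_le _).trans hS.le
  · have h1 : IsCofinal (F '' A) := by
      intro s
      have h2 := hpU (ToType.mk.symm s : Iio (W m)).1 (ToType.mk.symm s).2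
      obtain ⟨x, hx1, hx2⟩ := U.nonempty_of_mem (Filter.inter_mem hA h2)
      refine ⟨_, ⟨x, hx1, rfl⟩, ?_⟩
      have h3 : (ToType.mk.symm s : Iio (W m)) ≤ ⟨p x, hp x⟩ := hx2
      have h4 := (ToType.mk (o := W m)).monotone h3
      rwa [OrderIso.apply_symm_apply] at h4
    have h5 := Order.cof_le h1
    have h6 : (W m).cof = ℵ_ (m : Ordinal.{0}) := by
      rw [← ord_aleph_nat, (isRegular_aleph_nat m).cof_ord]
    rwa [Ordinal.cof_toType, h6] at h5

end SU
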