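import Mathlib

/-
PROJECT SU (MP_90aa37_lc).  Module Pig: a pigeonhole principle for more than `χ` functions on a regular cardinal `μ`.
Mathlib only.  Proof by strong induction on the number of values, which are cut along a well-order of minimal type.
-/

open Cardinal Ordinal Set

namespace SU

theorem pig {H M Λ : Type} [LinearOrder M] (μ κ χ : Cardinal.{0})
    (hμ : ℵ₀ ≤ μ) (hM : #M ≤ μ) (hreg : ∀ A : Set M, #A < μ → ∃ b, ∀ a ∈ A, a < b)
    (hκ : κ.IsStrongLimit) (hμκ : μ < κ) (hκχ : κ ≤ χ)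
    (hcof : ∀ ε : Cardinal.{0}, κ ≤ ε → ε ≤ χ → ε.ord.cof ≠ μ)
    (j : H → M → Λ) (hH : χ < #H) (hΛ : #Λ ≤ χ) :
    ∃ (H1 : Set H) (Ξ : Set M), χ < #H1 ∧ (∀ a, ∃ b ∈ Ξ, a < b) ∧
      ∀ h ∈ H1, ∀ h' ∈ H1, ∀ ξ ∈ Ξ, j h ξ = j h' ξ := by
  classical
  have hχ : ℵ₀ ≤ χ := hμ.trans (hμκ.le.trans hκχ)
  have PG : ∀ {C : Type} (H0 : Set H) (f : H0 → C), χ < #H0 → #C ≤ χ →
      ∃ (a : C) (t : Set H) (h : t ⊆ H0), χ < #t ∧ ∀ ⦃x⦄ (hx : x ∈ t), f ⟨x, h hx⟩ = a := by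
    intro C H0 f h1 h2
    obtain ⟨a, t, ht, hcard, hf⟩ := infinite_pigeonhole_set f (Order.succ χ) (Order.succ_le_of_lt h1)
      (hχ.trans (Order.le_succ _)) (by
        rw [(isRegular_succ hχ).cof_ord]
        exact Order.lt_succ_of_le h2)
    exact ⟨a, t, ht, Order.succ_le_iff.1 hcard, hf⟩
  have claim : ∀ ε : Cardinal.{0}, ε ≤ χ → ∀ (H0 : Set H), χ < #H0 → ∀ Ξ0 : Set M,
      (∀ a, ∃ b ∈ Ξ0, a < b) → ∀ Λ' : Set Λ, #Λ' = ε → (∀ h ∈ H0, ∀ ξ ∈ Ξ0, j h ξ ∈ Λ') →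
      ∃ (H1 : Set H) (Ξ : Set M), χ < #H1 ∧ (∀ a, ∃ b ∈ Ξ, a < b) ∧
        ∀ h ∈ H1, ∀ h' ∈ H1, ∀ ξ ∈ Ξ, j h ξ = j h' ξ := by
    intro ε
    induction ε using WellFoundedLT.induction with
    | ind ε ih =>
      intro hε H0 hH0 Ξ0 hΞ0 Λ' hΛ' hj
      rcases lt_or_ge ε κ with hlt | hge
      · have hC : #(Ξ0 → Λ') ≤ χ := by
          rw [← Cardinal.power_def, hΛ']
          calc ε ^ #Ξ0 ≤ (2 ^ ε) ^ #Ξ0 := Cardinal.power_le_power_right (Cardinal.cantor ε).le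
            _ = 2 ^ (ε * #Ξ0) := (Cardinal.power_mul).symm
            _ ≤ 2 ^ (ε * μ) := Cardinal.power_le_power_left two_ne_zero
                (mul_le_mul_right ((mk_set_le _).trans hM) _)
            _ ≤ κ := (hκ.isStrongPrelimit (mul_lt_of_lt (hμ.trans hμκ.le) hlt hμκ)).le
            _ ≤ χ := hκχ
        obtain ⟨a, t, ht, hcard, hf⟩ := PG H0 (fun h => fun ξ : Ξ0 =>
          (⟨j h.1 ξ.1, hj h.1 h.2 ξ.1 ξ.2⟩ : Λ')) hH0 hC
        refine ⟨t, Ξ0, hcard, hΞ0, fun h hh h' hh' ξ hξ => ?_⟩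
        have e1 := congrArg Subtype.val (congrFun (hf hh) ⟨ξ, hξ⟩)
        have e2 := congrArg Subtype.val (congrFun (hf hh') ⟨ξ, hξ⟩)
        exact e1.trans e2.symm
      · have hεi : ℵ₀ ≤ ε := hμ.trans (hμκ.le.trans hge)
        have hT : #ε.ord.ToType = ε := by simp
        have hL : Cardinal.ord #ε.ord.ToType = typeLT ε.ord.ToType := by simp
        obtain ⟨e⟩ : Nonempty (Λ' ≃ ε.ord.ToType) := Cardinal.eq.1 (by rw [hΛ', hT])
        have hIic : ∀ t : ε.ord.ToType, #(Iic t) < ε := by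
          intro t
          have h1 : #(Iic t) < #ε.ord.ToType := mk_Iic_lt t hL (by rw [hT]; exact hεi)
          rw [hT] at h1
          exact h1
        have step : ∀ h : H0, ∃ tX : ε.ord.ToType × Set M, tX.2 ⊆ Ξ0 ∧ (∀ a, ∃ b ∈ tX.2, a < b) ∧
            ∀ ξ ∈ tX.2, ∀ hl : j h.1 ξ ∈ Λ', e ⟨j h.1 ξ, hl⟩ ≤ tX.1 := by
          rintro ⟨h, hh⟩
          rcases lt_or_gt_of_ne (hcof ε hge hε) with hc | hc
          · obtain ⟨S, hS, hSc⟩ := Order.exists_cof_eq (α := ε.ord.ToType)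
            rw [Ordinal.cof_toType] at hSc
            by_contra hno
            push Not at hno
            have hb : ∀ t : S, ∃ b : M, ∀ ξ ∈ Ξ0, (∀ hl : j h ξ ∈ Λ', e ⟨j h ξ, hl⟩ ≤ t.1) → ξ ≤ b := by
              intro t
              by_contra hcon
              push Not at hcon
              obtain ⟨ξ, hξ, hl, hlt⟩ := hno (t.1, {ξ | ξ ∈ Ξ0 ∧ ∀ hl : j h ξ ∈ Λ', e ⟨j h ξ, hl⟩ ≤ t.1})
                (fun ξ hξ => hξ.1) (fun a => by
                  obtain ⟨ξ, h1, h2, h3⟩ := hcon a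
                  exact ⟨ξ, ⟨h1, h2⟩, h3⟩)
              exact absurd (hξ.2 hl) (not_le.2 hlt)
            choose b hb using hb
            obtain ⟨B, hB⟩ := hreg (range b) (mk_range_le.trans_lt (by rw [hSc]; exact hc))
            obtain ⟨ξ, hξ, hlt⟩ := hΞ0 B
            obtain ⟨t, htS, hle⟩ := hS (e ⟨j h ξ, hj h hh ξ hξ⟩)
            have h1 := hb ⟨t, htS⟩ ξ hξ (fun _ => hle)
            exact absurd (h1.trans_lt (hB _ (mem_range_self _))) (not_lt.2 hlt.le)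
          · have h1 : ¬ IsCofinal (range (fun ξ : Ξ0 => e ⟨j h ξ.1, hj h hh ξ.1 ξ.2⟩)) := by
              intro hcf
              have h2 := Order.cof_le hcf
              rw [Ordinal.cof_toType] at h2
              exact absurd (h2.trans (mk_range_le.trans ((mk_set_le _).trans hM))) (not_le.2 hc)
            rw [IsCofinal] at h1
            push Not at h1
            obtain ⟨t, ht⟩ := h1
            exact ⟨(t, Ξ0), Subset.rfl, hΞ0, fun ξ hξ hl => (ht _ ⟨⟨ξ, hξ⟩, rfl⟩).le⟩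
        choose c hc1 hc2 hc3 using step
        have hC : #(ε.ord.ToType × Set M) ≤ χ := by
          rw [mk_prod, Cardinal.lift_id, Cardinal.lift_id, hT, mk_set]
          calc ε * 2 ^ #M ≤ χ * 2 ^ μ := mul_le_mul' hε (Cardinal.power_le_power_left two_ne_zero hM)
            _ ≤ χ * χ := mul_le_mul' le_rfl ((hκ.isStrongPrelimit hμκ).le.trans hκχ)
            _ = χ := mul_eq_self hχ
        obtain ⟨a, t, ht, hcard, hf⟩ := PG H0 c hH0 hC
        have hne : t.Nonempty := by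
          rw [nonempty_iff_ne_empty]
          rintro rfl
          rw [mk_eq_zero] at hcard
          exact absurd hcard not_lt_zero
        obtain ⟨h0, hh0⟩ := hne
        have e0 := hf hh0
        have hsmall : #({l : Λ | ∃ hl : l ∈ Λ', e ⟨l, hl⟩ ≤ a.1} : Set Λ) < ε := by
          refine lt_of_le_of_lt ?_ (hIic a.1)
          refine mk_le_of_injective (f := fun l : ({l : Λ | ∃ hl : l ∈ Λ', e ⟨l, hl⟩ ≤ a.1} : Set Λ) =>
            (⟨e ⟨l.1, l.2.1⟩, l.2.2⟩ : Iic a.1)) ?_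
          intro l l' hll
          have h1 := congrArg Subtype.val hll
          have h2 := e.injective h1
          exact Subtype.ext (Subtype.mk.inj h2)
        refine ih _ hsmall (hsmall.le.trans hε) t hcard a.2 ?_ _ rfl ?_
        · rw [← e0]
          exact hc2 _
        · intro h hh ξ hξ
          have e1 := hf hh
          have h2 : ξ ∈ (c ⟨h, ht hh⟩).2 := by rw [e1]; exact hξ
          have h3 := hj h (ht hh) ξ (hc1 _ h2)
          refine ⟨h3, ?_⟩
          have h4 := hc3 ⟨h, ht hh⟩ ξ h2 h3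
          rw [e1] at h4
          exact h4
  refine claim #(univ : Set Λ) ?_ univ ?_ univ ?_ univ rfl ?_
  · rw [mk_univ]; exact hΛ
  · rw [mk_univ]; exact hH
  · intro a
    obtain ⟨b, hb⟩ := hreg {a} (by rw [mk_singleton]; exact one_lt_aleph0.trans_le hμ)
    exact ⟨b, mem_univ _, hb a rfl⟩
  · intro h _ ξ _
    exact mem_univ _

end SU
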