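import Mathlib

/-
PROJECT SU (MP_90aa37_lc).  Module Pow: for a strong limit `ℵ_ω`, `2 ^ ℵ_ω ≤ ℵ_ω ^ ℵ₀`.  Mathlib only.

COMPLETE PROOF.  `ℵ_ω = ⨆ n, ℵ_n ≤ sum (fun n : ℕ => ℵ_n)` (`aleph_limit`, `iSup_le_sum`), so
`2 ^ ℵ_ω ≤ 2 ^ sum = prod (fun n => 2 ^ ℵ_n)` (`power_le_power_left`, `Cardinal.power_sum`) `≤ prod (fun n : ℕ => ℵ_ω)` (`prod_le_prod`, strong
limit) `= ℵ_ω ^ ℵ₀` (`prod_const'`, `mk_nat`).
-/

open Cardinal Ordinal Set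

namespace SU

theorem pow_le (hκ : (ℵ_ ω : Cardinal.{0}).IsStrongLimit) :
    2 ^ (ℵ_ ω : Cardinal.{0}) ≤ (ℵ_ ω : Cardinal.{0}) ^ (ℵ₀ : Cardinal.{0}) := by
  have h1 : (ℵ_ ω : Cardinal.{0}) ≤ Cardinal.sum (fun n : ℕ => (ℵ_ (n : Ordinal.{0}) : Cardinal.{0})) := by
    rw [aleph_limit isSuccLimit_omega0]
    apply ciSup_le'
    rintro ⟨a, ha⟩
    obtain ⟨n, rfl⟩ := Ordinal.lt_omega0.1 ha
    exact Cardinal.le_sum (fun n : ℕ => (ℵ_ (n : Ordinal.{0}) : Cardinal.{0})) n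
  calc (2 : Cardinal.{0}) ^ (ℵ_ ω : Cardinal.{0})
      ≤ 2 ^ Cardinal.sum (fun n : ℕ => (ℵ_ (n : Ordinal.{0}) : Cardinal.{0})) :=
        Cardinal.power_le_power_left two_ne_zero h1
    _ = Cardinal.prod (fun n : ℕ => (2 : Cardinal.{0}) ^ (ℵ_ (n : Ordinal.{0}) : Cardinal.{0})) := by
        rw [Cardinal.power_sum]
    _ ≤ Cardinal.prod (fun _ : ℕ => (ℵ_ ω : Cardinal.{0})) :=
        Cardinal.prod_le_prod _ _ fun n =>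
          (hκ.isStrongPrelimit (aleph_lt_aleph.2 (Ordinal.natCast_lt_omega0 n))).le
    _ = (ℵ_ ω : Cardinal.{0}) ^ (ℵ₀ : Cardinal.{0}) := by
        simp

end SU
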