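import Pool.Agent.SU.NNc

/-
PROJECT SU (MP_90aa37_lc).  Module Seq: for every `f : ℕ → Ordinal` there is a good sequence `a : M → ι`.

PROOF.  Well-founded recursion on `M` (`WellFounded.fix`, `WellFoundedLT.wf` or `IsWellFounded.wf`).
`ι` is nonempty (`hdom` for `g = 0`; `W_pos`); let `i0 : ι`.
For `y : M` and `r : ∀ z, z < y → ι` let `r' z := if h : z < y then r z h else i0` and let `step y r` be an `i : ι` with
`∀ n ≥ k, ∀ b ∈ NN k G f r' (Iio y), b < W (n+1) → b < G i n` (`cov_NN`, `exists_above`, choice).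
Let `a` be the function defined by recursion, `a y = step y (fun z _ => a z)` (`WellFounded.fix_eq`).
CONGRUENCE: if `a z = a' z` for all `z < y` then `Bs k G f a (Iio y) = Bs k G f a' (Iio y)` (for `z < y`: `G (a z) = G (a' z)`, and
`T G a z n = T G a' z n` since `w < z` implies `w < y`), hence the `NN` are equal.
-/

open Cardinal Ordinal Set

namespace SU

private theorem T_congr {M ι : Type} [LinearOrder M] (G : ι → ℕ → Ordinal.{0}) {a a' : M → ι} {y : M}
    (h : ∀ z < y, a z = a' z) (n : ℕ) : T G a y n = T G a' y n := by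
  unfold T
  congr 1
  funext z
  rw [h z.1 z.2]

private theorem bs_congr {M ι : Type} [LinearOrder M] (k : ℕ) (G : ι → ℕ → Ordinal.{0})
    (f : ℕ → Ordinal.{0}) {a a' : M → ι} {y : M} (h : ∀ z < y, a z = a' z) :
    Bs k G f a (Iio y) = Bs k G f a' (Iio y) := by
  unfold Bs
  congr 1
  ext o
  constructor
  · rintro ⟨z, hz, n, ho⟩
    refine ⟨z, hz, n, ?_⟩
    rw [← h z hz, ← T_congr G (fun w hw => h w (lt_trans hw hz)) n]
    exact ho
  · rintro ⟨z, hz, n, ho⟩
    refine ⟨z, hz, n, ?_⟩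
    rw [h z hz, T_congr G (fun w hw => h w (lt_trans hw hz)) n]
    exact ho

private theorem nn_congr {M ι : Type} [LinearOrder M] (k : ℕ) (G : ι → ℕ → Ordinal.{0})
    (f : ℕ → Ordinal.{0}) {a a' : M → ι} {y : M} (h : ∀ z < y, a z = a' z) :
    NN k G f a (Iio y) = NN k G f a' (Iio y) := by
  unfold NN
  rw [bs_congr k G f h]

theorem seq {M ι : Type} [LinearOrder M] [WellFoundedLT M] {k : ℕ} (hM : #M ≤ ℵ_ (k : Ordinal.{0}))
    (G : ι → ℕ → Ordinal.{0})
    (hdom : ∀ g : ℕ → Ordinal.{0}, (∀ n, g n < W (n + 1)) → ∃ i, ∀ n, g n ≤ G i n)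
    (f : ℕ → Ordinal.{0}) : ∃ a : M → ι, Good k G f a := by
  classical
  obtain ⟨i0, -⟩ := hdom (fun _ => 0) (fun n => W_pos _)
  have hstep : ∀ (y : M) (r : M → ι), ∃ i, ∀ n, k ≤ n → ∀ b ∈ NN k G f r (Iio y), b < W (n + 1) →
      b < G i n := fun y r => exists_above G hdom (cov_NN hM G f r (Iio y))
  choose stp hstp using hstep
  let F : (y : M) → ((z : M) → z < y → ι) → ι := fun y r =>
    stp y (fun z => if h : z < y then r z h else i0)
  let a : M → ι := (wellFounded_lt (α := M)).fix F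
  have ha : ∀ y, a y = stp y (fun z => if z < y then a z else i0) := by
    intro y
    have h1 := (wellFounded_lt (α := M)).fix_eq F y
    simp only [a]
    rw [h1]
    simp only [F, dite_eq_ite]
  refine ⟨a, fun y n hn b hb hbW => ?_⟩
  rw [ha y]
  refine hstp y _ n hn b ?_ hbW
  rw [nn_congr k G f (a' := a) (fun z hz => by simp only [if_pos hz])]
  exact hb

end SU
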