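import Pool.Agent.SU.Uniq
import Pool.Agent.SU.Seq
import Pool.Agent.SU.Pig
import Pool.Agent.SU.Cof
import Pool.Agent.SU.Pow

/-
PROJECT SU (MP_90aa37_lc).  Module Count: for a strong limit `ℵ_ω`, a dominating family of the product of the
`ω_{n+1}` has at least `2 ^ ℵ_ω` members (if it has fewer than `ℵ_{ω_ω}`).
-/

open Cardinal Ordinal Set

namespace SU

theorem count {ι : Type} (hD : Dom ι) (hκ : (ℵ_ ω : Cardinal.{0}).IsStrongLimit)
    (h2 : #ι < ℵ_ (ω_ ω)) : 2 ^ (ℵ_ ω : Cardinal.{0}) ≤ #ι := by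
  classical
  by_contra hcon
  rw [not_le] at hcon
  obtain ⟨G, hG, hdom⟩ := hD
  set χ : Cardinal.{0} := max #ι (ℵ_ ω) with hχ
  have hχ1 : χ < 2 ^ (ℵ_ ω : Cardinal.{0}) := max_lt hcon (cantor _)
  have hχ2 : χ < (ℵ_ ω : Cardinal.{0}) ^ (ℵ₀ : Cardinal.{0}) := hχ1.trans_le (pow_le hκ)
  have hωω : (ω : Ordinal.{0}) < ω_ ω := by
    conv_lhs => rw [← omega_zero]
    exact Ordinal.omega_lt_omega.2 omega0_pos
  have hχ3 : χ < ℵ_ (ω_ ω) := max_lt h2 (aleph_lt_aleph.2 hωω)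
  obtain ⟨k, hk1, hcof⟩ := cof_good χ hχ3
  obtain ⟨M, iM, wM, hMc, hreg⟩ := exists_idx k
  haveI : Nonempty M := by
    rw [← mk_ne_zero_iff, hMc]
    exact (aleph_pos _).ne'
  have hseq : ∀ s : ℕ → M, ∃ b, ∀ j, s j < b := by
    intro s
    obtain ⟨b, hb⟩ := hreg (range s) (by
      refine mk_range_le.trans_lt ?_
      rw [mk_nat, ← aleph_zero, aleph_lt_aleph]
      exact_mod_cast hk1)
    exact ⟨b, fun j => hb _ ⟨j, rfl⟩⟩
  let f : (ℕ → (ω_ (ω : Ordinal.{0})).ToType) → ℕ → Ordinal.{0} :=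
    fun h n => (ToType.mk.symm (h n) : Iio (ω_ (ω : Ordinal.{0}))).1
  have hf : ∀ h n, f h n < ω_ ω := fun h n => (ToType.mk.symm (h n)).2
  have hfi : Function.Injective f := by
    intro h h' hh
    funext n
    have h3 := congrFun hh n
    exact ToType.mk.symm.injective (Subtype.ext h3)
  have hHc : #(ℕ → (ω_ (ω : Ordinal.{0})).ToType) =
      (ℵ_ ω : Cardinal.{0}) ^ (ℵ₀ : Cardinal.{0}) := by
    rw [← Cardinal.power_def, mk_toType, card_omega, mk_nat]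
  have hsq := fun h => seq hMc.le G hdom (f h)
  choose a ha using hsq
  obtain ⟨H1, Ξ, hH1, hΞ, heq⟩ := pig (ℵ_ (k : Ordinal.{0})) (ℵ_ ω) χ (aleph0_le_aleph _) hMc.le hreg
    hκ (aleph_nat_lt k) (le_max_right _ _) hcof a (by rw [hHc]; exact hχ2) (le_max_left _ _)
  obtain ⟨h0, hh0⟩ : H1.Nonempty := by
    rw [nonempty_iff_ne_empty]
    rintro rfl
    rw [mk_eq_zero] at hH1
    exact absurd hH1 not_lt_zero
  obtain ⟨K, e, hK, hcov⟩ := cov_NN hMc.le G (f h0) (a h0) univ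
  have hval : ∀ (h : H1) (n : ℕ), ∃ v : K, e v = f h.1 n := by
    intro h n
    obtain ⟨m0, hm0⟩ := exists_lt_W (hf h.1 n)
    have h4 : f h.1 n < W (max m0 k) := hm0.trans_le (W_le_W.2 (le_max_left _ _))
    have h5 := (uniq hseq G hG (ha h.1) (ha h0) Ξ hΞ (fun z hz => heq h.1 h.2 h0 hh0 z hz)
      (max m0 k) (le_max_right _ _) (f h.1 n) h4).1 (f_mem_nn k G (f h.1) (a h.1) univ n)
    exact hcov h5
  choose v hv using hval
  have hvi : Function.Injective v := by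
    intro h h' hh
    refine Subtype.ext (hfi ?_)
    funext n
    rw [← hv, ← hv, hh]
  have h6 : #H1 ≤ #(ℕ → K) := mk_le_of_injective hvi
  have h7 : #(ℕ → K) ≤ 2 ^ ℵ_ (k : Ordinal.{0}) := by
    rw [← Cardinal.power_def, mk_nat, ← Cardinal.power_self_eq (aleph0_le_aleph _)]
    exact (Cardinal.power_le_power_right hK).trans
      (Cardinal.power_le_power_left (aleph_pos _).ne' (aleph0_le_aleph _))
  have h8 : (2 : Cardinal.{0}) ^ ℵ_ (k : Ordinal.{0}) < ℵ_ ω := hκ.isStrongPrelimit (aleph_nat_lt k)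
  have h9 : χ < χ := ((hH1.trans_le h6).trans_le h7).trans (h8.trans_le (le_max_right _ _))
  exact lt_irrefl _ h9

end SU
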