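import Mathlib

/-
PROJECT SU (MP_90aa37_lc).  Common definitions.  No proofs here.

Everything lives in `Type` (universe 0) and `Ordinal.{0}`, `Cardinal.{0}`.
-/

open Cardinal Ordinal Set

namespace SU

/-- `W n` is the initial ordinal `ω_n`. -/
noncomputable def W (n : ℕ) : Ordinal.{0} := ω_ (n : Ordinal.{0})

/-- The indexed family `B` is a base of the ultrafilter `U`. -/
def IsBase {X ι : Type} (U : Ultrafilter X) (B : ι → Set X) : Prop :=
  (∀ i, B i ∈ U) ∧ ∀ A ∈ U, ∃ i, B i ⊆ A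

/-- `U` is decomposable at `ℵ_m` (working form): there is a function into `ω_m` which is above every
`z < ω_m` almost everywhere. -/
def Dec {X : Type} (U : Ultrafilter X) (m : ℕ) : Prop :=
  ∃ p : X → Ordinal.{0}, (∀ x, p x < W m) ∧ ∀ z < W m, {x | z ≤ p x} ∈ U

/-- The product of the `ω_{n+1}`, `n ∈ ℕ`, has an (everywhere) dominating family indexed by `ι`. -/
def Dom (ι : Type) : Prop :=
  ∃ G : ι → ℕ → Ordinal.{0}, (∀ i n, G i n < W (n + 1)) ∧
    ∀ g : ℕ → Ordinal.{0}, (∀ n, g n < W (n + 1)) → ∃ i, ∀ n, g n ≤ G i n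

/-- `A` is covered by the values of a function on a type of size at most `ℵ_k`. -/
def Cov (k : ℕ) (A : Set Ordinal.{0}) : Prop :=
  ∃ (K : Type) (e : K → Ordinal.{0}), #K ≤ ℵ_ (k : Ordinal.{0}) ∧ A ⊆ range e

end SU
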