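import Pool.Agent.SU.PD

/-
PROJECT SU (MP_90aa37_lc).  Module Dir: directedness of an ultrafilter over its finest partition; regularity of
the character.
-/

open Cardinal Ordinal Set

namespace SU

/-- `A` is contained in `B` on almost all pieces of the partition `p`. -/
def SubP {X T : Type} (U : Ultrafilter X) (p : X → T) (A B : Set X) : Prop :=
  {t | ∀ x, p x = t → x ∈ A → x ∈ B} ∈ U.map p

theorem subP_trans {X T : Type} {U : Ultrafilter X} {p : X → T} {A B C : Set X}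
    (h1 : SubP U p A B) (h2 : SubP U p B C) : SubP U p A C :=
  Filter.mem_of_superset (Filter.inter_mem h1 h2) fun _ ht x hx ha => ht.2 x hx (ht.1 x hx ha)

theorem subP_of_subset {X T : Type} {U : Ultrafilter X} {p : X → T} {A B : Set X}
    (h : A ⊆ B) : SubP U p A B :=
  Filter.mem_of_superset Filter.univ_mem fun _ _ _ _ ha => h ha

theorem dirP_small {X T J : Type} (U : Ultrafilter X) (p : X → T)
    (hκ : (ℵ_ ω : Cardinal.{0}).IsStrongLimit)
    (hFP : ∀ (S : Type) (F : X → S), #S < ℵ_ (ω : Ordinal.{0}) → Fac U p F)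
    (hJ : #J < ℵ_ (ω : Ordinal.{0}))
    (A : J → Set X) (hA : ∀ j, A j ∈ U) : ∃ A' ∈ U, ∀ j, SubP U p A' (A j) := by
  obtain ⟨A', hA', h1⟩ := hFP (Set J) (fun x => {j | x ∈ A j}) (card_set_lt hκ hJ)
  refine ⟨A', hA', fun j => ?_⟩
  unfold SubP
  rw [Ultrafilter.mem_map]
  refine Filter.mem_of_superset (Filter.inter_mem hA' (hA j)) ?_
  rintro x ⟨hx1, hx2⟩ x' hx' hx'A
  have h2 : {j | x ∈ A j} = {j | x' ∈ A j} := h1 x hx1 x' hx'A hx'.symm
  exact (Set.ext_iff.1 h2 j).1 hx2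

theorem dirP {X T J : Type} (U : Ultrafilter X) (p : X → T)
    (hκ : (ℵ_ ω : Cardinal.{0}).IsStrongLimit)
    (hFP : ∀ (S : Type) (F : X → S), #S < ℵ_ (ω : Ordinal.{0}) → Fac U p F)
    (hJ : #J ≤ ℵ_ (ω : Ordinal.{0}))
    (A : J → Set X) (hA : ∀ j, A j ∈ U) : ∃ A' ∈ U, ∀ j, SubP U p A' (A j) := by
  classical
  have h1 : #J ≤ #(ω_ (ω : Ordinal.{0})).ToType := by rw [mk_toType, Ordinal.card_omega]; exact hJ
  obtain ⟨r⟩ := (Cardinal.le_def _ _).1 h1
  let q : J → Ordinal.{0} := fun x => (Ordinal.ToType.mk.symm (r x) : Iio (ω_ (ω : Ordinal.{0})))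
  have hq : ∀ x, ∃ n : ℕ, q x < W n := fun x =>
    exists_lt_W (Ordinal.ToType.mk.symm (r x) : Iio (ω_ (ω : Ordinal.{0}))).2
  have hqi : Function.Injective q := fun x x' h =>
    r.injective (Ordinal.ToType.mk.symm.injective (Subtype.ext h))
  have h2 : ∀ n : ℕ, #{j : J // q j < W n} < ℵ_ (ω : Ordinal.{0}) := by
    intro n
    have h4 : #{i : J // q i < W n} ≤ #(W n).ToType :=
      Cardinal.mk_le_of_injective (f := fun i : {i : J // q i < W n} =>
        Ordinal.ToType.mk ⟨q i.1, i.2⟩) fun i j hij => by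
          have h5 : (⟨q i.1, i.2⟩ : Iio (W n)) = ⟨q j.1, j.2⟩ := Ordinal.ToType.mk.injective hij
          have h6 : q i.1 = q j.1 := Subtype.mk.inj h5
          exact Subtype.ext (hqi h6)
    rw [mk_toType, card_W] at h4
    exact h4.trans_lt (aleph_nat_lt n)
  have h3 : ∀ n : ℕ, ∃ A' ∈ U, ∀ j : {j : J // q j < W n}, SubP U p A' (A j.1) := fun n =>
    dirP_small U p hκ hFP (h2 n) (fun j => A j.1) (fun j => hA j.1)
  choose A1 hA1 hA2 using h3
  obtain ⟨A', hA', h4⟩ := dirP_small U p hκ hFP (J := ℕ)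
    (by rw [mk_nat]; exact aleph0_lt_aleph.2 omega0_pos) A1 hA1
  refine ⟨A', hA', fun j => ?_⟩
  obtain ⟨n, hn⟩ := hq j
  exact subP_trans (h4 n) (hA2 n ⟨j, hn⟩)

/-- The size of a smallest base has cofinality above `ℵ_ω`. -/
theorem cofP_large {X T ι : Type} (U : Ultrafilter X) (p : X → T)
    (hκ : (ℵ_ ω : Cardinal.{0}).IsStrongLimit) (hT : #T < ℵ_ (ω : Ordinal.{0}))
    (hFP : ∀ (S : Type) (F : X → S), #S < ℵ_ (ω : Ordinal.{0}) → Fac U p F)
    (B : ι → Set X) (hB : IsBase U B)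
    (hι : ∀ B' : Set (Set X), BaseOf U B' → #ι ≤ #B') (hω : ℵ_ (ω : Ordinal.{0}) < #ι) :
    ℵ_ (ω : Ordinal.{0}) < (#ι).ord.cof := by
  classical
  by_contra hn
  have hn' := not_lt.1 hn
  have h1 : #ι = #(#ι).ord.ToType := by rw [mk_toType, card_ord]
  obtain ⟨b⟩ := Cardinal.eq.1 h1
  obtain ⟨S, hS, hSc⟩ := Order.exists_cof_eq (#ι).ord.ToType
  rw [Ordinal.cof_toType] at hSc
  have hmax : NoMaxOrder (#ι).ord.ToType := by
    have h2 : ℵ₀ ≤ #ι := (aleph0_le_aleph _).trans hω.le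
    exact Cardinal.noMaxOrder h2
  have h2 : ∀ s : S, ∃ A ∈ U, ∀ i : ι, b i < s.1 → ¬ SubP U p (B i) A := by
    intro s
    by_contra hc
    push Not at hc
    let Q := {i : ι // b i < s.1} × {Z : Set T // Z ∈ U.map p}
    let B' : Q → Set X := fun q => {x | x ∈ B q.1.1 ∧ p x ∈ q.2.1}
    have hB' : IsBase U B' := by
      refine ⟨fun q => Filter.inter_mem (hB.1 _) q.2.2, fun A hA => ?_⟩
      obtain ⟨i, hi, hi2⟩ := hc A hA
      exact ⟨(⟨i, hi⟩, ⟨_, hi2⟩), fun x hx => hx.2 x rfl hx.1⟩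
    have h3 := (hι _ (baseOf_range hB')).trans mk_range_le
    have h4 : #{i : ι // b i < s.1} < #ι := by
      have h5 : #{i : ι // b i < s.1} ≤ #(Iio s.1) :=
        Cardinal.mk_le_of_injective (f := fun i : {i : ι // b i < s.1} => (⟨b i.1, i.2⟩ : Iio s.1))
          fun i j hij => Subtype.ext (b.injective (congrArg Subtype.val hij))
      refine h5.trans_lt ?_
      have h6 : #(Iio s.1) < #(#ι).ord.ToType := by
        apply mk_Iio_lt s.1
        rw [mk_toType, card_ord, Ordinal.type_toType]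
      rwa [← h1] at h6
    have h5 : #{Z : Set T // Z ∈ U.map p} < #ι :=
      ((mk_subtype_le _).trans_lt (card_set_lt hκ hT)).trans hω
    have h6 : #Q < #ι := by
      rw [mk_prod, Cardinal.lift_id, Cardinal.lift_id]
      exact mul_lt_of_lt ((aleph0_le_aleph _).trans hω.le) h4 h5
    exact absurd h3 (not_le.2 h6)
  choose A hA hA2 using h2
  obtain ⟨A', hA', h3⟩ := dirP U p hκ hFP (J := S) (by rw [hSc]; exact hn') A hA
  obtain ⟨i, hi⟩ := hB.2 A' hA'
  obtain ⟨c, hc⟩ := exists_gt (b i)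
  obtain ⟨s, hs, hcs⟩ := hS c
  exact hA2 ⟨s, hs⟩ i (hc.trans_le hcs) (subP_trans (subP_of_subset hi) (h3 ⟨s, hs⟩))

theorem fac_of_eq {X T : Type} {U : Ultrafilter X} {p : X → T}
    (hp : ∀ (S : Type) (F : X → S), #S < ℵ_ (ω : Ordinal.{0}) → ∃ G : T → S, {x | F x = G (p x)} ∈ U) :
    ∀ (S : Type) (F : X → S), #S < ℵ_ (ω : Ordinal.{0}) → Fac U p F := by
  intro S F hS
  obtain ⟨G, hG⟩ := hp S F hS
  refine ⟨_, hG, fun x hx x' hx' hpp => ?_⟩
  have h3 : F x = G (p x) := hx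
  have h4 : F x' = G (p x') := hx'
  rw [h3, h4, hpp]

/-- The character of an ultrafilter: the least size of a base. -/
noncomputable def character {X : Type} (U : Ultrafilter X) : Cardinal.{0} :=
  sInf {c | ∃ B : Set (Set X), BaseOf U B ∧ #B = c}

theorem character_spec {X : Type} (U : Ultrafilter X) :
    ∃ B : Set (Set X), BaseOf U B ∧ #B = character U := by
  have hne : {c | ∃ B : Set (Set X), BaseOf U B ∧ #B = c}.Nonempty :=
    ⟨_, {A | A ∈ U}, ⟨fun A hA => hA, fun A hA => ⟨A, hA, Subset.rfl⟩⟩, rfl⟩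
  exact csInf_mem hne

theorem character_le {X : Type} (U : Ultrafilter X) (B : Set (Set X)) (hB : BaseOf U B) :
    character U ≤ #B :=
  csInf_le' ⟨B, hB, rfl⟩

/-- The character of a uniform ultrafilter on a strong limit `ℵ_ω` is regular (if below `ℵ_{ω_ω}`). -/
theorem character_regular (hκ : (ℵ_ ω : Cardinal.{0}).IsStrongLimit) {X : Type} (U : Ultrafilter X)
    (hX : #X = ℵ_ (ω : Ordinal.{0})) (hU : Uniform U) (h : character U < ℵ_ (ω_ ω)) :
    (character U).IsRegular := by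
  refine regular_of_cof ?_ h
  have h0 : character U ≤ 2 ^ (ℵ_ ω : Cardinal.{0}) := by
    refine (character_le U {A | A ∈ U}
      ⟨fun A hA => hA, fun A hA => ⟨A, hA, Subset.rfl⟩⟩).trans ?_
    refine (mk_set_le _).trans ?_
    rw [mk_set, hX]
  rcases h0.lt_or_eq with h1 | h1
  · obtain ⟨B, hB, hc⟩ := character_spec U
    have hB' := isBase_of_baseOf hB
    obtain ⟨T, p, hT, hp⟩ := finest U _ hB' hκ (by rw [hc]; exact h1) (by rw [hc]; exact h)
    have h2 := cofP_large U p hκ hT (fac_of_eq hp) _ hB'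
      (fun B' hB' => by rw [hc]; exact character_le U B' hB') (base_large U _ hB' hκ hX hU)
    rw [hc] at h2
    exact h2
  · rw [h1]
    exact Cardinal.lt_cof_ord_power (a := ℵ_ (ω : Ordinal.{0})) (b := 2) (aleph0_le_aleph _)
      one_lt_two

end SU
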