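import Pool.Agent.SU.Bas

/-
PROJECT SU (MP_90aa37_lc).  Module Few: if `U` is indecomposable at all `ℵ_m`, `m ≥ k`, then every function into a set of size less
than `ℵ_ω` has fewer than `ℵ_k` values on a set of `U`.
-/

open Cardinal Ordinal Set

namespace SU

theorem few {X : Type} (U : Ultrafilter X) (k : ℕ) (h : ∀ m, k ≤ m → ¬ Dec U m) (S : Type)
    (F : X → S) (hS : #S < ℵ_ (ω : Ordinal.{0})) : ∃ A ∈ U, #(F '' A) < ℵ_ (k : Ordinal.{0}) := by
  classical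
  by_contra hcon
  push Not at hcon
  obtain ⟨c, ⟨A, hA, hc⟩, hmin⟩ := Cardinal.lt_wf.has_min {c : Cardinal.{0} | ∃ A ∈ U, #(F '' A) = c}
    ⟨_, univ, Filter.univ_mem, rfl⟩
  have h1 : ℵ_ (k : Ordinal.{0}) ≤ c := hc ▸ hcon A hA
  have h2 : c < ℵ_ (ω : Ordinal.{0}) := hc ▸ (mk_set_le (F '' A)).trans_lt hS
  obtain ⟨o, ho⟩ := mem_range_aleph_iff.2 ((aleph0_le_aleph _).trans h1)
  rw [← ho, aleph_lt_aleph, Ordinal.lt_omega0] at h2
  obtain ⟨m, rfl⟩ := h2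
  have hkm : k ≤ m := by
    rw [← ho, aleph_le_aleph, Nat.cast_le] at h1
    exact h1
  have h3 : #(F '' A) = #(W m).ToType := by
    rw [hc, mk_toType, card_W, ho]
  obtain ⟨f⟩ := Cardinal.eq.1 h3
  set r : (F '' A) → Ordinal.{0} := fun y => ((Ordinal.ToType.mk.symm (f y) : Iio (W m)) : Ordinal.{0}) with hr
  have hr1 : ∀ y, r y < W m := fun y => (Ordinal.ToType.mk.symm (f y) : Iio (W m)).2
  have hr2 : Function.Injective r := by
    intro y y' hyy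
    exact f.injective (Ordinal.ToType.mk.symm.injective (Subtype.ext hyy))
  have hd : ¬ ∀ z < W m, {x | z ≤ (if hx : x ∈ A then r ⟨F x, mem_image_of_mem F hx⟩ else 0)} ∈ U := by
    intro hall
    refine h m hkm ⟨fun x => if hx : x ∈ A then r ⟨F x, mem_image_of_mem F hx⟩ else 0, fun x => ?_, hall⟩
    by_cases hx : x ∈ A
    · simp only [hx, dif_pos]
      exact hr1 _
    · simp only [hx, dif_neg, not_false_eq_true]
      exact W_pos _
  push Not at hd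
  obtain ⟨z, hz, hzU⟩ := hd
  have h4 := Ultrafilter.compl_mem_iff_notMem.2 hzU
  have h5 : A ∩ {x | z ≤ (if hx : x ∈ A then r ⟨F x, mem_image_of_mem F hx⟩ else 0)}ᶜ ∈ U :=
    Filter.inter_mem hA h4
  have key : ∀ y : (F '' (A ∩ {x | z ≤ (if hx : x ∈ A then r ⟨F x, mem_image_of_mem F hx⟩ else 0)}ᶜ)),
      ∃ hy : (y : S) ∈ F '' A, r ⟨y, hy⟩ < z := by
    rintro ⟨_, x, ⟨hx, hxz⟩, rfl⟩
    refine ⟨mem_image_of_mem F hx, ?_⟩
    rw [mem_compl_iff, mem_ofPred_eq, not_le, dif_pos hx] at hxz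
    exact hxz
  choose hy hyz using key
  have h6 : #(F '' (A ∩ {x | z ≤ (if hx : x ∈ A then r ⟨F x, mem_image_of_mem F hx⟩ else 0)}ᶜ)) ≤ #z.ToType := by
    refine mk_le_of_injective (f := fun y => Ordinal.ToType.mk ⟨r ⟨y, hy y⟩, hyz y⟩) ?_
    intro y y' hyy
    have h7 := Ordinal.ToType.mk.injective hyy
    have h8 : r ⟨(y : S), hy y⟩ = r ⟨(y' : S), hy y'⟩ := congrArg (fun t : Iio z => (t : Ordinal.{0})) h7
    have h9 : (⟨(y : S), hy y⟩ : (F '' A)) = ⟨(y' : S), hy y'⟩ := hr2 h8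
    exact Subtype.ext (congrArg (fun t : (F '' A) => (t : S)) h9)
  rw [mk_toType] at h6
  have h9 := hmin _ ⟨_, h5, rfl⟩
  apply h9
  rw [← ho]
  exact h6.trans_lt (lt_W_iff.1 hz)

end SU
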