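import Pool.Agent.SU.Silver

/-
PROJECT SU (MP_90aa37_lc).  Module Fin: the finest partition into fewer than `ℵ_ω` pieces.

PROOF.  `exists_idx k` gives `M` with `#M = ℵ_k` and hreg.  `K := M` (or any type of size `ℵ_k`).  `#(M → K) = ℵ_k ^ ℵ_k = 2 ^ ℵ_k < ℵ_ω`
(`power_self_eq`, strong limit, `aleph_nat_lt`), so `hfew` gives hQ of `silver`; take `y`, `Φ` from `silver`.
`T := Iio y → K`, `p x := fun z => Φ z x`; `#T ≤ #K ^ #M ≤ 2 ^ ℵ_k < ℵ_ω`.
Let `F : X → S`, `#S < ℵ_ω`.  `hfew` gives `A ∈ U` with `#(F '' A) < ℵ_k = #K`, so there is an injection `r : F '' A → K`.  Let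
`F' x := r (F x)` for `x ∈ A`, any element of `K` otherwise.  `silver` gives `A' ∈ U` such that `p x = p x'` implies `F' x = F' x'` on `A'`.
So for `x, x' ∈ A ∩ A'`: `p x = p x'` implies `F x = F x'`.  `G t := F x` for some `x ∈ A ∩ A'` with `p x = t`, if there is one, and an
arbitrary element of `S` otherwise (`X` is nonempty because of `U`).  `{x | F x = G (p x)} ⊇ A ∩ A' ∈ U`.
-/

open Cardinal Ordinal Set

namespace SU

theorem fin {X : Type} (U : Ultrafilter X) (k : ℕ) (hκ : (ℵ_ ω : Cardinal.{0}).IsStrongLimit)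
    (hfew : ∀ (S : Type) (F : X → S), #S < ℵ_ (ω : Ordinal.{0}) →
      ∃ A ∈ U, #(F '' A) < ℵ_ (k : Ordinal.{0})) :
    ∃ (T : Type) (p : X → T), #T < ℵ_ (ω : Ordinal.{0}) ∧
      ∀ (S : Type) (F : X → S), #S < ℵ_ (ω : Ordinal.{0}) → ∃ G : T → S, {x | F x = G (p x)} ∈ U := by
  classical
  obtain ⟨M, iL, iW, hM, hreg⟩ := exists_idx k
  have hk0 : ℵ₀ ≤ (ℵ_ (k : Ordinal.{0}) : Cardinal.{0}) := aleph0_le_aleph _
  have hMM : #(M → M) < (ℵ_ (ω : Ordinal.{0}) : Cardinal.{0}) := by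
    rw [← Cardinal.power_def, hM, power_self_eq hk0]
    exact hκ.isStrongPrelimit (aleph_nat_lt k)
  obtain ⟨y, Φ, hΦ⟩ := silver (X := X) (M := M) (K := M) U k hreg (fun q => hfew _ q hMM)
  have hM0 : #M ≠ 0 := by
    rw [hM]
    exact (lt_of_lt_of_le aleph0_pos hk0).ne'
  have hT : #(Iio y → M) < (ℵ_ (ω : Ordinal.{0}) : Cardinal.{0}) := by
    refine lt_of_le_of_lt ?_ hMM
    rw [← Cardinal.power_def, ← Cardinal.power_def]
    exact power_le_power_left hM0 (mk_set_le _)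
  refine ⟨Iio y → M, fun x z => Φ z x, hT, fun S F hS => ?_⟩
  obtain ⟨A, hA, hAc⟩ := hfew S F hS
  have hle : #(F '' A) ≤ #M := by
    rw [hM]
    exact hAc.le
  obtain ⟨r⟩ := hle
  obtain ⟨m0⟩ : Nonempty M := mk_ne_zero_iff.1 hM0
  obtain ⟨A', hA', hsep⟩ := hΦ (fun x => if h : x ∈ A then r ⟨F x, mem_image_of_mem F h⟩ else m0)
  have hinj : ∀ x ∈ A ∩ A', ∀ x' ∈ A ∩ A', (fun z => Φ z x) = (fun z => Φ z x') → F x = F x' := by
    intro x hx x' hx' hp
    have h1 := hsep x hx.2 x' hx'.2 (fun z => congrFun hp z)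
    rw [dif_pos hx.1, dif_pos hx'.1] at h1
    have h2 := r.injective h1
    exact congrArg Subtype.val h2
  have hAA : A ∩ A' ∈ U := Filter.inter_mem hA hA'
  obtain ⟨x0, hx0⟩ : (A ∩ A').Nonempty := U.nonempty_of_mem hAA
  refine ⟨fun t => if h : ∃ x, x ∈ A ∩ A' ∧ (fun z => Φ z x) = t then F h.choose else F x0, ?_⟩
  refine Filter.mem_of_superset hAA fun x hx => ?_
  have hex : ∃ x', x' ∈ A ∩ A' ∧ (fun z => Φ z x') = (fun z => Φ z x) := ⟨x, hx, rfl⟩
  show F x = if h : ∃ x', x' ∈ A ∩ A' ∧ (fun z => Φ z x') = (fun z => Φ z x) then F h.choose else F x0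
  rw [dif_pos hex]
  exact hinj x hx _ hex.choose_spec.1 hex.choose_spec.2.symm

end SU
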