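import Pool.Agent.SU.Bas

/-
PROJECT SU (MP_90aa37_lc).  Module KP (Kunen-Prikry): decomposable at `ℵ_{m+1}` implies decomposable at `ℵ_m`.

Every `α < ω_{m+1}` is injected into `ω_m`; if `U` is indecomposable at `ℵ_m`, the injection of `p x` at `β` is
bounded by some `γ β < ω_m` for `U`-almost all `x`; by the pigeonhole principle `γ` is constant on a set of
size `ℵ_m`, and counting inside `Iio (γ b)` gives a function above all `z < ω_m`.
-/

open Cardinal Ordinal Set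

namespace SU

private theorem kp_inj {m : ℕ} {a : Ordinal.{0}} (h : a < W (m + 1)) :
    ∃ g : Ordinal.{0} → Ordinal.{0}, (∀ b < a, g b < W m) ∧ InjOn g (Iio a) := by
  classical
  have h1 : #(Iio a) ≤ #(Iio (W m)) := by
    rw [Cardinal.mk_Iio_ordinal, Cardinal.mk_Iio_ordinal, Cardinal.lift_le, card_W]
    exact card_le_of_lt_W h
  obtain ⟨f⟩ := (Cardinal.le_def _ _).1 h1
  have h2 : ∀ (b : Ordinal.{0}) (hb : b < a),
      (if hb : b < a then ((f ⟨b, hb⟩ : Iio (W m)) : Ordinal.{0}) else 0) =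
        ((f ⟨b, hb⟩ : Iio (W m)) : Ordinal.{0}) := fun b hb => dif_pos hb
  refine ⟨fun b => if hb : b < a then ((f ⟨b, hb⟩ : Iio (W m)) : Ordinal.{0}) else 0, ?_, ?_⟩
  · intro b hb
    show (if hb : b < a then ((f ⟨b, hb⟩ : Iio (W m)) : Ordinal.{0}) else 0) < W m
    rw [h2 b hb]
    exact (f ⟨b, hb⟩).2
  · intro b hb b' hb' he
    have h3 : (if hb : b < a then ((f ⟨b, hb⟩ : Iio (W m)) : Ordinal.{0}) else 0) =
      (if hb : b' < a then ((f ⟨b', hb⟩ : Iio (W m)) : Ordinal.{0}) else 0) := he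
    rw [h2 b hb, h2 b' hb'] at h3
    have h4 := f.injective (Subtype.ext h3)
    exact congrArg Subtype.val h4

private theorem kp_pig {m : ℕ} (c : Ordinal.{0} → Ordinal.{0}) (hc : ∀ b < W (m + 1), c b < W m) :
    ∃ (z : Ordinal.{0}) (b : (W m).ToType → Ordinal.{0}), z < W m ∧ Function.Injective b ∧
      ∀ ξ, b ξ < W (m + 1) ∧ c (b ξ) = z := by
  let F : (W (m + 1)).ToType → (W m).ToType := fun y =>
    ToType.mk ⟨c ((ToType.mk.symm y : Iio (W (m + 1))) : Ordinal.{0}),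
      hc _ (ToType.mk.symm y : Iio (W (m + 1))).2⟩
  have e1 : #(W (m + 1)).ToType = ℵ_ ((m + 1 : ℕ) : Ordinal.{0}) := by rw [mk_toType, card_W]
  have e0 : #(W m).ToType = ℵ_ (m : Ordinal.{0}) := by rw [mk_toType, card_W]
  have hlt : ℵ_ (m : Ordinal.{0}) < ℵ_ ((m + 1 : ℕ) : Ordinal.{0}) :=
    aleph_lt_aleph.2 (by exact_mod_cast Nat.lt_succ_self m)
  obtain ⟨a, ha⟩ := infinite_pigeonhole F (by rw [e1]; exact aleph0_le_aleph _) (by
    rw [e1, e0, (isRegular_aleph_nat (m + 1)).cof_ord]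
    exact hlt)
  have h1 : #(W m).ToType ≤ #(F ⁻¹' {a}) := by
    rw [ha, e1, e0]
    exact hlt.le
  obtain ⟨e⟩ := (Cardinal.le_def _ _).1 h1
  refine ⟨((ToType.mk.symm a : Iio (W m)) : Ordinal.{0}),
    fun ξ => ((ToType.mk.symm ((e ξ : F ⁻¹' {a}) : (W (m + 1)).ToType) : Iio (W (m + 1))) :
      Ordinal.{0}), (ToType.mk.symm a : Iio (W m)).2, ?_, fun ξ => ⟨?_, ?_⟩⟩
  · intro ξ ξ' he
    have h2 := ToType.mk.symm.injective (Subtype.ext he)
    exact e.injective (Subtype.ext h2)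
  · exact (ToType.mk.symm ((e ξ : F ⁻¹' {a}) : (W (m + 1)).ToType) : Iio (W (m + 1))).2
  · have h2 : F ((e ξ : F ⁻¹' {a}) : (W (m + 1)).ToType) = a := (e ξ).2
    have h3 := congrArg (fun y => ((ToType.mk.symm y : Iio (W m)) : Ordinal.{0})) h2
    have h4 : ((ToType.mk.symm (F ((e ξ : F ⁻¹' {a}) : (W (m + 1)).ToType)) : Iio (W m)) :
        Ordinal.{0}) = c ((ToType.mk.symm ((e ξ : F ⁻¹' {a}) : (W (m + 1)).ToType) :
        Iio (W (m + 1))) : Ordinal.{0}) := by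
      show ((ToType.mk.symm (ToType.mk _) : Iio (W m)) : Ordinal.{0}) = _
      rw [OrderIso.symm_apply_apply]
    exact h4.symm.trans h3

/-- a subset of `ω_m` which injects into some `z < ω_m` is bounded -/
private theorem kp_bdd {m : ℕ} {z : Ordinal.{0}} (hz : z < W m) (D : Set (W m).ToType)
    (f : (W m).ToType → Ordinal.{0}) (hf : ∀ ξ ∈ D, f ξ < z) (hi : InjOn f D) :
    ∃ y : (W m).ToType, ∀ ξ ∈ D, ξ < y := by
  have h1 : #D < ℵ_ (m : Ordinal.{0}) := by
    have h2 : Cardinal.lift.{1} #D ≤ Cardinal.lift.{0} #(Iio z) := by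
      refine Cardinal.lift_mk_le'.2 ⟨⟨fun ξ => ⟨f ξ, hf ξ ξ.2⟩, fun ξ ξ' he => ?_⟩⟩
      exact Subtype.ext (hi ξ.2 ξ'.2 (congrArg Subtype.val he))
    rw [Cardinal.lift_id'.{0, 1}, Cardinal.mk_Iio_ordinal, Cardinal.lift_le] at h2
    exact h2.trans_lt (lt_W_iff.1 hz)
  by_contra hc
  push Not at hc
  have h2 : IsCofinal D := hc
  have h3 := Order.cof_le h2
  have h4 : (W m).cof = ℵ_ (m : Ordinal.{0}) := by
    rw [← ord_aleph_nat, (isRegular_aleph_nat m).cof_ord]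
  rw [Ordinal.cof_toType, h4] at h3
  exact absurd h1 (not_lt.2 h3)

theorem kp {X : Type} (U : Ultrafilter X) (m : ℕ) (h : Dec U (m + 1)) : Dec U m := by
  classical
  obtain ⟨p, hp, hpU⟩ := h
  by_contra hn
  have hn' : ∀ q : X → Ordinal.{0}, (∀ x, q x < W m) → ∃ z < W m, {x | q x < z} ∈ U := by
    intro q hq
    by_contra hcon
    push Not at hcon
    refine hn ⟨q, hq, fun z hz => ?_⟩
    have h1 := Ultrafilter.compl_mem_iff_notMem.2 (hcon z hz)
    have h2 : {x | q x < z}ᶜ = {x | z ≤ q x} := by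
      ext x
      show ¬ q x < z ↔ z ≤ q x
      exact not_lt
    rwa [h2] at h1
  have hg : ∀ a : Ordinal.{0}, ∃ g : Ordinal.{0} → Ordinal.{0}, a < W (m + 1) →
      (∀ b < a, g b < W m) ∧ InjOn g (Iio a) := by
    intro a
    by_cases ha : a < W (m + 1)
    · obtain ⟨g, h1⟩ := kp_inj ha
      exact ⟨g, fun _ => h1⟩
    · exact ⟨fun _ => 0, fun h => absurd h ha⟩
  choose g hg using hg
  have hc : ∀ b : Ordinal.{0}, ∃ z : Ordinal.{0}, b < W (m + 1) → z < W m ∧
      {x | b < p x ∧ g (p x) b < z} ∈ U := by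
    intro b
    by_cases hb : b < W (m + 1)
    · obtain ⟨z, hz, hzU⟩ := hn' (fun x => if b < p x then g (p x) b else 0) (by
        intro x
        by_cases hx : b < p x
        · show (if b < p x then g (p x) b else 0) < W m
          rw [if_pos hx]
          exact (hg (p x) (hp x)).1 b hx
        · show (if b < p x then g (p x) b else 0) < W m
          rw [if_neg hx]
          exact W_pos m)
      refine ⟨z, fun _ => ⟨hz, ?_⟩⟩
      have h1 := hpU (b + 1) (add_one_lt_W hb)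
      refine Filter.mem_of_superset (Filter.inter_mem h1 hzU) ?_
      rintro x ⟨hx1, hx2⟩
      have hx3 : b < p x := lt_of_lt_of_le (lt_add_one b) hx1
      have hx4 : (if b < p x then g (p x) b else 0) < z := hx2
      rw [if_pos hx3] at hx4
      exact ⟨hx3, hx4⟩
    · exact ⟨0, fun h => absurd h hb⟩
  choose c hc using hc
  obtain ⟨z, b, hz, hbi, hb⟩ := kp_pig (m := m) c fun b hb => (hc b hb).1
  have hD : ∀ x : X, ∃ y : (W m).ToType, ∀ ξ ∈ {ξ : (W m).ToType | b ξ < p x ∧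
      g (p x) (b ξ) < z}, ξ < y := by
    intro x
    refine kp_bdd hz _ (fun ξ => g (p x) (b ξ)) (fun ξ hξ => hξ.2) ?_
    intro ξ hξ ξ' hξ' he
    exact hbi ((hg (p x) (hp x)).2 hξ.1 hξ'.1 he)
  choose y hy using hD
  refine hn ⟨fun x => ((ToType.mk.symm (y x) : Iio (W m)) : Ordinal.{0}),
    fun x => (ToType.mk.symm (y x) : Iio (W m)).2, fun w hw => ?_⟩
  obtain ⟨h1, h2⟩ := hb (ToType.mk ⟨w, hw⟩)
  refine Filter.mem_of_superset (hc _ h1).2 ?_
  rintro x ⟨hx1, hx2⟩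
  rw [h2] at hx2
  have h3 := hy x (ToType.mk ⟨w, hw⟩) ⟨hx1, hx2⟩
  have h4 : (⟨w, hw⟩ : Iio (W m)) < ToType.mk.symm (y x) := by
    rw [OrderIso.lt_symm_apply]
    exact h3
  have h5 : w < ((ToType.mk.symm (y x) : Iio (W m)) : Ordinal.{0}) := h4
  exact h5.le

end SU
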