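import Mathlib

/-
PROJECT SU (MP_90aa37_lc).  Module KeyG: the key lemma for an arbitrary increasing sequence of regular cardinals.
-/

open Cardinal Ordinal Set

namespace SU

/-- `l` is (the value at `x` of) the first index at which `q n x < f n`, and `⊤` if there is none. -/
private noncomputable def lf {X : Type} (q : ℕ → X → Ordinal.{0}) (f : ℕ → Ordinal.{0}) (x : X) : ℕ∞ :=
  open Classical in if h : ∃ n, q n x < f n then ((Nat.find h : ℕ) : ℕ∞) else ⊤

private theorem lf_spec {X : Type} {q : ℕ → X → Ordinal.{0}} {f : ℕ → Ordinal.{0}} {x : X} {n : ℕ}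
    (h : (n : ℕ∞) < lf q f x) : f n ≤ q n x := by
  classical
  unfold lf at h
  split_ifs at h with h1
  · have h2 : n < Nat.find h1 := by exact_mod_cast h
    exact not_lt.1 (Nat.find_min h1 h2)
  · push Not at h1
    exact h1 n

private theorem lt_lf {X : Type} {q : ℕ → X → Ordinal.{0}} {f : ℕ → Ordinal.{0}} {x : X} {n : ℕ}
    (h : ∀ m ≤ n, f m ≤ q m x) : (n : ℕ∞) < lf q f x := by
  classical
  unfold lf
  split_ifs with h1
  · have h2 : n < Nat.find h1 := by
      by_contra h3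
      push Not at h3
      exact absurd (Nat.find_spec h1) (not_lt.2 (h _ h3))
    exact_mod_cast h2
  · exact ENat.natCast_lt_top n

private theorem sup_lt_reg {K : Type} {c : Cardinal.{0}} (hc : c.IsRegular) (hK : #K < c)
    (f : K → Ordinal.{0}) (hf : ∀ x, f x < c.ord) : ∃ b < c.ord, ∀ x, f x ≤ b := by
  refine ⟨⨆ x, f x, ?_, fun x => Ordinal.le_iSup f x⟩
  apply Ordinal.iSup_lt_of_lt_cof
  · rw [hc.cof_ord]; exact hK
  · exact hf

private theorem lf_mem {X : Type} (U : Ultrafilter X) {q : ℕ → X → Ordinal.{0}} {f : ℕ → Ordinal.{0}}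
    (h : ∀ n, {x | f n ≤ q n x} ∈ U) (n : ℕ) : {x | (n : ℕ∞) < lf q f x} ∈ U := by
  have h1 : (⋂ m : Fin (n + 1), {x | f m ≤ q m x}) ∈ U := by
    rw [Ultrafilter.mem_coe.symm]
    exact Filter.iInter_mem.2 fun m => h m
  refine Filter.mem_of_superset (Ultrafilter.mem_coe.2 h1) fun x hx => ?_
  apply lt_lf
  intro m hm
  exact (mem_iInter.1 hx ⟨m, Nat.lt_succ_of_le hm⟩)

private def shift (g : ℕ → Ordinal.{0}) : ℕ → Ordinal.{0}
  | 0 => 0
  | n + 1 => g n

private theorem card_K {c : Cardinal.{0}} (hc : ℵ₀ ≤ c) (n : ℕ) :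
    #(Fin (n + 1) → c.ord.ToType) ≤ c := by
  have h1 : #(Fin (n + 1) → c.ord.ToType) = c ^ (n + 1) := by
    simp only [mk_pi, Cardinal.mk_toType, card_ord, prod_const, mk_fin, Cardinal.lift_id]
    exact (Cardinal.power_natCast c (n + 1))
  rw [h1]
  exact power_nat_le hc

/-- An ultrafilter with functions `p n` into the regular cardinals `l n`, `l` increasing, unbounded modulo `U`,
and a base indexed by `ι`, gives a dominating family of the product of the `l (n+1)` indexed by `ι`. -/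
theorem keyG {X ι : Type} (U : Ultrafilter X) (B : ι → Set X) (hB : ∀ i, B i ∈ U)
    (hB' : ∀ A ∈ U, ∃ i, B i ⊆ A) (l : ℕ → Cardinal.{0}) (hl : StrictMono l)
    (hr : ∀ n, (l n).IsRegular) (p : ℕ → X → Ordinal.{0}) (hp : ∀ n x, p n x < (l n).ord)
    (hU : ∀ n, ∀ z < (l n).ord, {x | z ≤ p n x} ∈ U) :
    ∃ G : ι → ℕ → Ordinal.{0}, (∀ i n, G i n < (l (n + 1)).ord) ∧
      ∀ g : ℕ → Ordinal.{0}, (∀ n, g n < (l (n + 1)).ord) → ∃ i, ∀ n, g n ≤ G i n := by
  by_cases hC : ∃ e : X → ℕ∞, (∀ n : ℕ, {x | (n : ℕ∞) < e x} ∈ U) ∧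
      ∀ f : ℕ → Ordinal.{0}, (∀ n, f n < (l n).ord) → {x | e x ≤ lf p f x} ∈ U
  · obtain ⟨e, he, hf⟩ := hC
    have h1 : ∀ (i : ι) (n : ℕ), ∃ x, x ∈ B i ∧ ((n + 1 : ℕ) : ℕ∞) < e x := by
      intro i n
      obtain ⟨x, hx⟩ := Ultrafilter.nonempty_of_mem (Filter.inter_mem (hB i) (he (n + 1)))
      exact ⟨x, hx.1, hx.2⟩
    choose xx hx1 hx2 using h1
    refine ⟨fun i n => p (n + 1) (xx i n), fun i n => hp _ _, fun g hg => ?_⟩
    obtain ⟨i, hi⟩ := hB' _ (hf (shift g) (by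
      intro n
      cases n with
      | zero => exact (hr 0).ord_pos
      | succ n => exact hg n))
    refine ⟨i, fun n => ?_⟩
    have h2 : e (xx i n) ≤ lf p (shift g) (xx i n) := hi (hx1 i n)
    exact lf_spec (f := shift g) (lt_of_lt_of_le (hx2 i n) h2)
  · push Not at hC
    have hC' : ∀ e : X → ℕ∞, (∀ n : ℕ, {x | (n : ℕ∞) < e x} ∈ U) → ∃ f : ℕ → Ordinal.{0},
        (∀ n, f n < (l n).ord) ∧ {x | lf p f x ≤ e x} ∈ U := by
      intro e he
      obtain ⟨f, hf, hf2⟩ := hC e he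
      refine ⟨f, hf, ?_⟩
      have h3 := Ultrafilter.compl_mem_iff_notMem.2 hf2
      refine Filter.mem_of_superset h3 fun x hx => ?_
      simp only [mem_compl_iff, mem_ofPred_eq, not_le] at hx
      exact hx.le
    have h1 : ∀ (i : ι) (n : ℕ) (s : Fin (n + 1) → (l n).ord.ToType), ∃ x, x ∈ B i ∧
        ∀ m : Fin (n + 1), ((Ordinal.ToType.mk.symm (s m) : Iio (l n).ord) : Ordinal.{0}) < (l m).ord →
          ((Ordinal.ToType.mk.symm (s m) : Iio (l n).ord) : Ordinal.{0}) ≤ p m x := by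
      intro i n s
      have h2 : (⋂ m : Fin (n + 1), {x | ((Ordinal.ToType.mk.symm (s m) : Iio (l n).ord) : Ordinal.{0}) < (l m).ord →
          ((Ordinal.ToType.mk.symm (s m) : Iio (l n).ord) : Ordinal.{0}) ≤ p m x}) ∈ (U : Filter X) := by
        refine Filter.iInter_mem.2 fun m => ?_
        by_cases h : ((Ordinal.ToType.mk.symm (s m) : Iio (l n).ord) : Ordinal.{0}) < (l m).ord
        · exact Filter.mem_of_superset (hU m _ h) fun x hx _ => hx
        · exact Filter.mem_of_superset Filter.univ_mem fun x _ hx => absurd hx h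
      obtain ⟨x, hx⟩ := Ultrafilter.nonempty_of_mem (Filter.inter_mem (hB i) h2)
      exact ⟨x, hx.1, fun m => mem_iInter.1 hx.2 m⟩
    choose xx hx1 hx2 using h1
    have h4 : ∀ (i : ι) (n : ℕ), ∃ b < (l (n + 1)).ord, ∀ s, p (n + 1) (xx i n s) ≤ b := by
      intro i n
      refine sup_lt_reg (hr (n + 1)) ?_ _ fun s => hp _ _
      exact lt_of_le_of_lt (card_K (hr n).aleph0_le n) (hl (Nat.lt_succ_self n))
    choose G hG1 hG2 using h4
    refine ⟨G, hG1, fun g hg => ?_⟩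
    obtain ⟨f, hf, hf2⟩ := hC' (lf (fun n => p (n + 1)) g)
      (lf_mem U (q := fun n => p (n + 1)) (f := g) fun n => hU (n + 1) _ (hg n))
    obtain ⟨i, hi⟩ := hB' _ hf2
    refine ⟨i, fun n => ?_⟩
    have hfn : ∀ m : Fin (n + 1), f m < (l n).ord := fun m =>
      lt_of_lt_of_le (hf m) (Cardinal.ord_le_ord.2 (hl.monotone (Nat.lt_succ_iff.1 m.2)))
    let s : Fin (n + 1) → (l n).ord.ToType := fun m => Ordinal.ToType.mk ⟨f m, hfn m⟩
    have h5 := hi (hx1 i n s)
    have h6 : (n : ℕ∞) < lf p f (xx i n s) := by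
      apply lt_lf
      intro m hm
      have h7 := hx2 i n s ⟨m, Nat.lt_succ_of_le hm⟩
      simp only [s, OrderIso.symm_apply_apply] at h7
      exact h7 (hf m)
    have h8 : (n : ℕ∞) < lf (fun n => p (n + 1)) g (xx i n s) := lt_of_lt_of_le h6 h5
    exact (lf_spec (q := fun n => p (n + 1)) h8).trans (hG2 i n s)

end SU
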