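import Pool.Agent.SU.Bas
import Pool.Agent.SU.KeyG

/-
PROJECT SU (MP_90aa37_lc).  Module Key: the key lemma of the project.
An ultrafilter decomposable at all `ℵ_m` with a base indexed by `ι` gives a dominating family of the product of
the `ω_{n+1}` indexed by `ι`.

COMPLETE PROOF.  Let `p n : X → Ordinal` be a witness of `Dec U n`: `p n x < W n` and `{x | z ≤ p n x} ∈ U` for
all `z < W n`.  `p 0 x` is a natural number `P x` (W 0 = ω, `Ordinal.lt_omega0`), and `{x | n ≤ P x} ∈ U` for all `n : ℕ`.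
Let `I = {e : X → ℕ | ∀ n, {x | n ≤ e x} ∈ U}`.
For `f : ℕ → Ordinal` let `l f x` = least `n` with `P x < n ∨ p n x < f n` (`Nat.find`; `n = P x + 1` works), and
`L g x` = least `n` with `P x < n ∨ p (n+1) x < g n`.
FACT 1: if `∀ n, f n < W n` then `l f ∈ I`: `{x | n ≤ l f x}` contains the intersection of the sets
`{x | m ≤ P x} ∩ {x | f m ≤ p m x}`, `m < n` (finite intersection; induction on n or `Filter.biInter_mem`).
FACT 2: if `∀ n, g n < W (n+1)` then `L g ∈ I` (same).
CASE 1: there is `e ∈ I` such that for all `f` with `∀ n, f n < W n`: `{x | e x ≤ l f x} ∈ U`.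
  For `i : ι`, `n : ℕ` choose `x i n ∈ B i ∩ {x | n + 2 ≤ e x}` (this set is in U, so nonempty).
  `G i n := p (n+1) (x i n)`.  Given `g`, put `f 0 = 0`, `f (n+1) = g n`; choose `i` with `B i ⊆ {x | e x ≤ l f x}`.
  Then for `y = x i n`: `l f y ≥ e y ≥ n + 2 > n + 1`, so by minimality `¬ p (n+1) y < f (n+1) = g n`: `g n ≤ G i n`.
CASE 2: for all `e ∈ I` there is `f`, `∀ n, f n < W n`, with `{x | e x ≤ l f x} ∉ U`, hence
  `{x | l f x ≤ e x} ∈ U` (`Ultrafilter.compl_mem_iff_notMem`, monotonicity).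
  For `n : ℕ` let `K n := Fin (n+1) → (W n).ToType` (functions; read `s m` as the ordinal `typein`/`ToType.mk.symm (s m) < W n`),
  `#(K n) ≤ ℵ_n` (`Cardinal.power_nat_le`, `mk_toType`).  For `i`, `n`, `s : K n` choose `x i n s ∈ B i` such that for all
  `m ≤ n`: `m ≤ P (x i n s)` and (if `s m < W m` then `s m ≤ p m (x i n s)`) (finite intersection of sets in U).
  `G i n` := a bound `< W (n+1)` of all `p (n+1) (x i n s)`, `s : K n` (`sup_lt_W` with `K = K n`).
  Given `g`: `e := L g ∈ I`, so there is `f` with `{x | l f x ≤ L g x} ∈ U`; choose `i` with `B i` inside it.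
  Let `n : ℕ` and `s := f` restricted to `m ≤ n` (`f m < W m ≤ W n`), `y := x i n s ∈ B i`.  For all `m ≤ n`: `m ≤ P y` and
  `f m ≤ p m y`, so `l f y > n`, so `L g y > n`, so by minimality `¬ p (n+1) y < g n`: `g n ≤ p (n+1) y ≤ G i n`.

Private auxiliary lemmas are welcome.
-/

open Cardinal Ordinal Set

namespace SU

theorem key {X ι : Type} (U : Ultrafilter X) (B : ι → Set X) (hB : IsBase U B)
    (hD : ∀ n, Dec U n) : Dom ι := by
  choose p hp hU using hD
  obtain ⟨G, hG, hdom⟩ := keyG U B hB.1 hB.2 (fun n : ℕ => ℵ_ (n : Ordinal.{0}))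
    (fun a b h => aleph_lt_aleph.2 (by exact_mod_cast h)) (fun n => isRegular_aleph_nat n) p
    (fun n x => by simpa only [ord_aleph_nat] using hp n x)
    (fun n z hz => hU n z (by simpa only [ord_aleph_nat] using hz))
  simp only [ord_aleph_nat] at hG hdom
  exact ⟨G, hG, hdom⟩

end SU
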