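import Pool.Agent.SU.Defs

/-
PROJECT SU (MP_90aa37_lc).  Module Pol: the canonical polarized partition relation.

PROOF.  For `y : Y` apply `hp` to `c y : X → S`: `G y : T → S` with `{x | c y x = G y (p x)} ∈ U`; `hB` gives `i y : ι` with
`B (i y) ⊆ {x | c y x = G y (p x)}`.  The map `y ↦ (i y, G y) : Y → ι × (T → S)`: `#(T → S) = #S ^ #T < ℵ_ω` (strong limit: with
`c = max #S #T` finite or infinite, `#S ^ #T ≤ (2 ^ #S) ^ #T = 2 ^ (#S * #T)` and `#S * #T < ℵ_ω` since `ℵ_ω` is infinite,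
`mul_lt_of_lt`), so `#(ι × (T → S)) < #Y` (`mul_lt_of_lt`, `#Y` infinite).  `Cardinal.infinite_pigeonhole` (`#Y` regular,
`IsRegular.cof_ord`) gives a fibre `Y'` of size `#Y` over `(i, G)`; `A := B i`.
-/

open Cardinal Ordinal Set

namespace SU

private theorem card_fun_lt (hκ : (ℵ_ ω : Cardinal.{0}).IsStrongLimit) {T S : Type}
    (hT : #T < ℵ_ (ω : Ordinal.{0})) (hS : #S < ℵ_ (ω : Ordinal.{0})) :
    #(T → S) < ℵ_ (ω : Ordinal.{0}) := by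
  rw [mk_pi, prod_const, Cardinal.lift_id, Cardinal.lift_id]
  calc #S ^ #T ≤ (2 ^ #S) ^ #T := Cardinal.power_le_power_right (Cardinal.cantor _).le
    _ = 2 ^ (#S * #T) := by rw [← Cardinal.power_mul]
    _ < ℵ_ (ω : Ordinal.{0}) := hκ.isStrongPrelimit (mul_lt_of_lt (aleph0_le_aleph _) hS hT)

theorem pol {X ι T Y S : Type} (U : Ultrafilter X) (B : ι → Set X) (hB : IsBase U B)
    (hκ : (ℵ_ ω : Cardinal.{0}).IsStrongLimit) (p : X → T) (hT : #T < ℵ_ (ω : Ordinal.{0}))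
    (hp : ∀ (S : Type) (F : X → S), #S < ℵ_ (ω : Ordinal.{0}) → ∃ G : T → S, {x | F x = G (p x)} ∈ U)
    (hY : (#Y).IsRegular) (h1 : #ι < #Y) (h2 : ℵ_ (ω : Ordinal.{0}) ≤ #Y)
    (hS : #S < ℵ_ (ω : Ordinal.{0})) (c : Y → X → S) :
    ∃ (Y' : Set Y) (A : Set X) (G : T → S), #Y' = #Y ∧ A ∈ U ∧
      ∀ y ∈ Y', ∀ x ∈ A, c y x = G (p x) := by
  have h3 : ∀ y : Y, ∃ (i : ι) (G : T → S), B i ⊆ {x | c y x = G (p x)} := by
    intro y
    obtain ⟨G, hG⟩ := hp S (c y) hS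
    obtain ⟨i, hi⟩ := hB.2 _ hG
    exact ⟨i, G, hi⟩
  choose i G hiG using h3
  have h4 : #(ι × (T → S)) < (#Y).ord.cof := by
    rw [hY.cof_ord, mk_prod, Cardinal.lift_id, Cardinal.lift_id]
    exact mul_lt_of_lt hY.aleph0_le h1 ((card_fun_lt hκ hT hS).trans_le h2)
  obtain ⟨⟨j, H⟩, hj⟩ := Cardinal.infinite_pigeonhole (fun y => (i y, G y)) hY.aleph0_le h4
  refine ⟨_, B j, H, hj, hB.1 j, fun y hy x hx => ?_⟩
  have h5 : (i y, G y) = (j, H) := hy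
  have h6 : i y = j := congrArg Prod.fst h5
  have h7 : G y = H := congrArg Prod.snd h5
  have h8 := hiG y (h6 ▸ hx)
  rw [← h7]
  exact h8

end SU
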