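import Pool.Agent.SU.Key
import Pool.Agent.SU.KP
import Pool.Agent.SU.Count
import Pool.Agent.SU.Few
import Pool.Agent.SU.Fin
import Pool.Agent.SU.Pol
import Pool.Agent.SU.Conv

/-
PROJECT SU (MP_90aa37_lc).  Module Main: assembly.
-/

open Cardinal Ordinal Set

namespace SU

theorem dec_of_le {X : Type} (U : Ultrafilter X) {m n : ℕ} (h : m ≤ n) (hn : Dec U n) : Dec U m := by
  induction n, h using Nat.le_induction with
  | base => exact hn
  | succ n _ ih => exact ih (kp U n hn)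

theorem dec_all {X : Type} (U : Ultrafilter X) (h : ∀ k : ℕ, ∃ m, k ≤ m ∧ Dec U m) (m : ℕ) :
    Dec U m := by
  obtain ⟨n, hn, hD⟩ := h m
  exact dec_of_le U hn hD

/-- A base of fewer than `2 ^ ℵ_ω` sets makes the ultrafilter indecomposable at all large `ℵ_m`. -/
theorem indec {X ι : Type} (U : Ultrafilter X) (B : ι → Set X) (hB : IsBase U B)
    (hκ : (ℵ_ ω : Cardinal.{0}).IsStrongLimit) (h1 : #ι < 2 ^ (ℵ_ ω : Cardinal.{0}))
    (h2 : #ι < ℵ_ (ω_ ω)) : ∃ k : ℕ, ∀ m, k ≤ m → ¬ Dec U m := by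
  by_contra hc
  push Not at hc
  exact absurd (count (key U B hB (dec_all U hc)) hκ h2) (not_le.2 h1)

end SU
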