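import Pool.Agent.SU.En

/-
PROJECT SU (MP_90aa37_lc).  Module Mon: monotonicity and finite character of the generated sets.

PROOF.  `cl_mono`: induction on `Cl`.  `nn_mono`: `Bs` is monotone in `D`.
`nn_local`: induction on `Cl (Bs k G f a univ) b`: for a generator in `Iio (W k) ∪ range f` any `y` (M is nonempty: `hM` needs an
element; take it from `Nonempty M`); for `G (a z) n` or `T G a z n` take `y > z`; for `en`, `inv` take the maximum of the two `y` and `nn_mono`.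
`nn_subset`: `range f ⊆ NN`, `Iio (W k) ⊆ NN`, members `G (a z) n`, `T G a z n` for `z ∈ D`: `Cl.base`.
-/

open Cardinal Ordinal Set

namespace SU

theorem cl_mono {A B : Set Ordinal.{0}} (h : A ⊆ B) {o : Ordinal.{0}} (ho : Cl A o) : Cl B o := by
  induction ho with
  | base ha => exact Cl.base (h ha)
  | en _ _ h1 h2 => exact Cl.en h1 h2
  | inv _ _ h1 h2 => exact Cl.inv h1 h2

private theorem bs_mono {M ι : Type} [LinearOrder M] (k : ℕ) (G : ι → ℕ → Ordinal.{0})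
    (f : ℕ → Ordinal.{0}) (a : M → ι) {D D' : Set M} (h : D ⊆ D') : Bs k G f a D ⊆ Bs k G f a D' := by
  rintro o (ho | ⟨y, hy, ho⟩)
  · exact Or.inl ho
  · exact Or.inr ⟨y, h hy, ho⟩

theorem nn_mono {M ι : Type} [LinearOrder M] (k : ℕ) (G : ι → ℕ → Ordinal.{0}) (f : ℕ → Ordinal.{0})
    (a : M → ι) {D D' : Set M} (h : D ⊆ D') : NN k G f a D ⊆ NN k G f a D' :=
  fun _ ho => cl_mono (bs_mono k G f a h) ho

theorem nn_local {M ι : Type} [LinearOrder M] [Nonempty M] (hM : ∀ y : M, ∃ z, y < z) (k : ℕ)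
    (G : ι → ℕ → Ordinal.{0}) (f : ℕ → Ordinal.{0}) (a : M → ι) {b : Ordinal.{0}}
    (hb : b ∈ NN k G f a univ) : ∃ y, b ∈ NN k G f a (Iio y) := by
  have hb' : Cl (Bs k G f a univ) b := hb
  clear hb
  induction hb' with
  | base ha =>
    rcases ha with ha | ⟨y, _, ha⟩
    · exact ⟨Classical.arbitrary M, Cl.base (Or.inl ha)⟩
    · obtain ⟨z, hz⟩ := hM y
      exact ⟨z, Cl.base (Or.inr ⟨y, hz, ha⟩)⟩
  | en _ _ h1 h2 =>
    obtain ⟨y, hy⟩ := h1
    obtain ⟨z, hz⟩ := h2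
    exact ⟨max y z, Cl.en (nn_mono k G f a (Iio_subset_Iio (le_max_left y z)) hy)
      (nn_mono k G f a (Iio_subset_Iio (le_max_right y z)) hz)⟩
  | inv _ _ h1 h2 =>
    obtain ⟨y, hy⟩ := h1
    obtain ⟨z, hz⟩ := h2
    exact ⟨max y z, Cl.inv (nn_mono k G f a (Iio_subset_Iio (le_max_left y z)) hy)
      (nn_mono k G f a (Iio_subset_Iio (le_max_right y z)) hz)⟩

theorem f_mem_nn {M ι : Type} [LinearOrder M] (k : ℕ) (G : ι → ℕ → Ordinal.{0}) (f : ℕ → Ordinal.{0})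
    (a : M → ι) (D : Set M) (n : ℕ) : f n ∈ NN k G f a D :=
  Cl.base (Or.inl (Or.inr ⟨n, rfl⟩))

theorem small_mem_nn {M ι : Type} [LinearOrder M] (k : ℕ) (G : ι → ℕ → Ordinal.{0})
    (f : ℕ → Ordinal.{0}) (a : M → ι) (D : Set M) {b : Ordinal.{0}} (hb : b < W k) :
    b ∈ NN k G f a D :=
  Cl.base (Or.inl (Or.inl hb))

theorem g_mem_nn {M ι : Type} [LinearOrder M] (k : ℕ) (G : ι → ℕ → Ordinal.{0}) (f : ℕ → Ordinal.{0})
    (a : M → ι) {D : Set M} {z : M} (hz : z ∈ D) (n : ℕ) : G (a z) n ∈ NN k G f a D :=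
  Cl.base (Or.inr ⟨z, hz, n, Or.inl rfl⟩)

theorem t_mem_nn {M ι : Type} [LinearOrder M] (k : ℕ) (G : ι → ℕ → Ordinal.{0}) (f : ℕ → Ordinal.{0})
    (a : M → ι) {D : Set M} {z : M} (hz : z ∈ D) (n : ℕ) : T G a z n ∈ NN k G f a D :=
  Cl.base (Or.inr ⟨z, hz, n, Or.inr rfl⟩)

end SU
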