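import Mathlib

/-
PROJECT SU (MP_90aa37_lc).  Definitions for the normal form.
-/

open Cardinal Ordinal Set

namespace SU

/-- The disjoint sum of the initial ordinals `ω_{F t}`, `t : T`. -/
abbrev Sm {T : Type} (F : T → ℕ) : Type := Σ t : T, (ω_ (F t : Ordinal.{0})).ToType

/-- `V` is a normal form ultrafilter on the sum of the `ω_{F t}`, with projection `D` to `T`:
`T` has fewer than `ℵ_ω` elements, `F` is unbounded modulo `D`, every set in `V` has, for `D`-almost all `t`,
`ℵ_{F t}` elements in the fibre of `t`, and every function with fewer than `ℵ_{F t}` values on the fibre of `t` (for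
every `t`) is, on some set of `V`, constant on the fibres. -/
structure NormalForm {T : Type} (F : T → ℕ) (V : Ultrafilter (Sm F)) : Prop where
  small : #T < ℵ_ (ω : Ordinal.{0})
  unbounded : ∀ m : ℕ, {t | m ≤ F t} ∈ V.map Sigma.fst
  uniform : ∀ A ∈ V, {t | #{a | (⟨t, a⟩ : Sm F) ∈ A} = ℵ_ (F t : Ordinal.{0})} ∈ V.map Sigma.fst
  complete : ∀ (S : Type) (z : Sm F → S),
    (∀ t, #(range fun a => z ⟨t, a⟩) < ℵ_ (F t : Ordinal.{0})) →
      ∃ A ∈ V, ∀ x ∈ A, ∀ x' ∈ A, x.1 = x'.1 → z x = z x'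

/-- The cofinality of the product of the `ω_n` modulo an ultrafilter on `ℕ`. -/
noncomputable def prodCof (D : Ultrafilter ℕ) : Cardinal.{0} :=
  sInf {c | ∃ (K : Type) (G : K → ℕ → Ordinal.{0}), #K = c ∧ (∀ i n, G i n < ω_ (n : Ordinal.{0})) ∧
    ∀ h : ℕ → Ordinal.{0}, (∀ n, h n < ω_ (n : Ordinal.{0})) → ∃ i, {n | h n ≤ G i n} ∈ D}

end SU
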