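import Pool.Agent.SU.NFc
import Pool.Agent.SU.Main

/-
PROJECT SU (MP_90aa37_lc).  Module NFMain: the normal form theorem.
-/

open Cardinal Ordinal Set

namespace SU

/-- The structure of an ultrafilter with a base of fewer than `2 ^ ℵ_ω` sets. -/
theorem small_char {X ι : Type} (U : Ultrafilter X) (B : ι → Set X) (hB : IsBase U B)
    (hκ : (ℵ_ ω : Cardinal.{0}).IsStrongLimit) (h1 : #ι < 2 ^ (ℵ_ ω : Cardinal.{0}))
    (h2 : #ι < ℵ_ (ω_ ω)) :
    ∃ k : ℕ, (∀ (S : Type) (F : X → S), #S < ℵ_ (ω : Ordinal.{0}) →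
      ∃ A ∈ U, #(F '' A) < ℵ_ (k : Ordinal.{0})) := by
  obtain ⟨k, hk⟩ := indec U B hB hκ h1 h2
  exact ⟨k, few U k hk⟩

/-- The finest partition. -/
theorem finest {X ι : Type} (U : Ultrafilter X) (B : ι → Set X) (hB : IsBase U B)
    (hκ : (ℵ_ ω : Cardinal.{0}).IsStrongLimit) (h1 : #ι < 2 ^ (ℵ_ ω : Cardinal.{0}))
    (h2 : #ι < ℵ_ (ω_ ω)) :
    ∃ (T : Type) (p : X → T), #T < ℵ_ (ω : Ordinal.{0}) ∧
      ∀ (S : Type) (F : X → S), #S < ℵ_ (ω : Ordinal.{0}) → ∃ G : T → S, {x | F x = G (p x)} ∈ U := by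
  obtain ⟨k, hk⟩ := small_char U B hB hκ h1 h2
  exact fin U k hκ hk

theorem normalForm_exists {X ι : Type} (U : Ultrafilter X) (B : ι → Set X) (hB : IsBase U B)
    (hκ : (ℵ_ ω : Cardinal.{0}).IsStrongLimit) (h1 : #ι < 2 ^ (ℵ_ ω : Cardinal.{0}))
    (h2 : #ι < ℵ_ (ω_ ω)) (hX : #X = ℵ_ (ω : Ordinal.{0})) (hU : ∀ A ∈ U, #A = #X) :
    ∃ (T : Type) (F : T → ℕ) (φ : X → Sm F), NormalForm F (U.map φ) := by
  obtain ⟨T, p, hT, hp⟩ := finest U B hB hκ h1 h2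
  have hFP : ∀ (S : Type) (F : X → S), #S < ℵ_ (ω : Ordinal.{0}) → Fac U p F := by
    intro S F hS
    obtain ⟨G, hG⟩ := hp S F hS
    refine ⟨_, hG, fun x hx x' hx' hpp => ?_⟩
    have h3 : F x = G (p x) := hx
    have h4 : F x' = G (p x') := hx'
    rw [h3, h4, hpp]
  obtain ⟨e, he, he1⟩ := exists_level U hκ p hT hFP (exists_not_onto U hX hU p hT hFP)
  obtain ⟨y, hy, hyU⟩ := exists_unbounded U p e he he1
  exact ⟨T, fun t => e t + 1, phi p e y hy, normalForm_map U p hT hFP e he he1 y hy hyU⟩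

/-- The image of a base is a base of the image ultrafilter. -/
theorem isBase_map {X Y ι : Type} (U : Ultrafilter X) (B : ι → Set X) (hB : IsBase U B) (φ : X → Y) :
    IsBase (U.map φ) (fun i => φ '' B i) := by
  refine ⟨fun i => ?_, fun A hA => ?_⟩
  · rw [Ultrafilter.mem_map]
    exact Filter.mem_of_superset (hB.1 i) (subset_preimage_image _ _)
  · obtain ⟨i, hi⟩ := hB.2 _ (Ultrafilter.mem_map.1 hA)
    exact ⟨i, image_subset_iff.2 hi⟩

/-- A base of a uniform ultrafilter on a set of size `ℵ_ω` has more than `ℵ_ω` elements. -/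
theorem base_large {X ι : Type} (U : Ultrafilter X) (B : ι → Set X) (hB : IsBase U B)
    (hκ : (ℵ_ ω : Cardinal.{0}).IsStrongLimit) (hX : #X = ℵ_ (ω : Ordinal.{0}))
    (hU : ∀ A ∈ U, #A = #X) : ℵ_ (ω : Ordinal.{0}) < #ι := by
  by_contra hn
  have hι : #ι ≤ ℵ_ (ω : Ordinal.{0}) := not_lt.1 hn
  obtain ⟨T, F, φ, hNF⟩ := normalForm_exists U B hB hκ (hι.trans_lt (Cardinal.cantor _))
    (hι.trans_lt (aleph_lt_aleph.2 (by
      have h1 : ω_ (0 : Ordinal.{0}) < ω_ ω := omega_lt_omega.2 omega0_pos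
      rwa [omega_zero] at h1))) hX hU
  obtain ⟨G, hG1, hG2⟩ := nf_cof hNF _ (isBase_map U B hB φ)
  have hun : ∀ m : ℕ, {n | m ≤ n} ∈ (U.map φ).map (fun x : Sm F => F x.1) := by
    intro m
    have h3 := hNF.unbounded m
    rw [Ultrafilter.mem_map] at h3 ⊢
    exact h3
  obtain ⟨g, hg1, hg2⟩ := not_cof_small hι _ hun G hG1
  obtain ⟨i, hi⟩ := hG2 g hg1
  exact hg2 i hi

end SU
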