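import Pool.Agent.SU.Bas
import Pool.Agent.SU.En

/-
PROJECT SU (MP_90aa37_lc).  Module NFa: functions which factor through the finest partition; existence of
the level.
-/

open Cardinal Ordinal Set

namespace SU

/-- `y` is a function of `p` on a set of `U`. -/
def Fac {X T : Type} {Y : Type*} (U : Ultrafilter X) (p : X → T) (y : X → Y) : Prop :=
  ∃ A ∈ U, ∀ x ∈ A, ∀ x' ∈ A, p x = p x' → y x = y x'

/-- Every function below `ω_{e(p x)}` is a function of `p` on a set of `U`. -/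
def Onto {X T : Type} (U : Ultrafilter X) (p : X → T) (e : T → ℕ) : Prop :=
  ∀ y : X → Ordinal.{0}, (∀ x, y x < W (e (p x))) → Fac U p y

theorem card_fun_lt (hκ : (ℵ_ ω : Cardinal.{0}).IsStrongLimit) {T S : Type}
    (hT : #T < ℵ_ (ω : Ordinal.{0})) (hS : #S < ℵ_ (ω : Ordinal.{0})) :
    #(T → S) < ℵ_ (ω : Ordinal.{0}) := by
  rw [mk_pi, prod_const, Cardinal.lift_id, Cardinal.lift_id]
  calc #S ^ #T ≤ (2 ^ #S) ^ #T := Cardinal.power_le_power_right (Cardinal.cantor _).le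
    _ = 2 ^ (#S * #T) := by rw [← Cardinal.power_mul]
    _ < ℵ_ (ω : Ordinal.{0}) := hκ.isStrongPrelimit (mul_lt_of_lt (aleph0_le_aleph _) hS hT)

theorem card_set_lt (hκ : (ℵ_ ω : Cardinal.{0}).IsStrongLimit) {T : Type}
    (hT : #T < ℵ_ (ω : Ordinal.{0})) : #(Set T) < ℵ_ (ω : Ordinal.{0}) := by
  rw [mk_set]
  exact hκ.isStrongPrelimit hT

theorem fac_tuple {X T Q : Type} (U : Ultrafilter X) (hκ : (ℵ_ ω : Cardinal.{0}).IsStrongLimit)
    (p : X → T) (hT : #T < ℵ_ (ω : Ordinal.{0}))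
    (hFP : ∀ (S : Type) (F : X → S), #S < ℵ_ (ω : Ordinal.{0}) → Fac U p F)
    (hQ : #Q < ℵ_ (ω : Ordinal.{0})) {Z : Type*} (Y : X → Q → Z)
    (h : ∀ ξ : T → Q, Fac U p (fun x => Y x (ξ (p x)))) : Fac U p Y := by
  classical
  choose A hA hY using h
  obtain ⟨A', hA', hR⟩ := hFP (Set (T → Q)) (fun x => {ξ | x ∈ A ξ})
    (card_set_lt hκ (card_fun_lt hκ hT hQ))
  let Bad : T → Prop := fun t => ∃ q, ∀ x ∈ A', p x = t → ∀ ξ, x ∈ A ξ → ξ t ≠ q
  have hBad : {x | Bad (p x)} ∉ U := by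
    intro hB
    obtain ⟨x0, hx0⟩ := Ultrafilter.nonempty_of_mem hB
    obtain ⟨q0, -⟩ := hx0
    let ξ : T → Q := fun t => if h : Bad t then h.choose else q0
    obtain ⟨x, hx⟩ := Ultrafilter.nonempty_of_mem (Filter.inter_mem hB (Filter.inter_mem hA' (hA ξ)))
    have h1 : Bad (p x) := hx.1
    have h2 := h1.choose_spec x hx.2.1 rfl ξ hx.2.2
    apply h2
    simp only [ξ, dif_pos h1]
  have hG : {x | ¬ Bad (p x)} ∈ U := Ultrafilter.compl_mem_iff_notMem.2 hBad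
  refine ⟨_, Filter.inter_mem hA' hG, fun x hx x' hx' hp => ?_⟩
  funext q
  have h1 : ¬ Bad (p x) := hx.2
  simp only [Bad] at h1
  push Not at h1
  obtain ⟨x0, hx0, hp0, ξ, hξ, hξq⟩ := h1 q
  have h2 : {ξ | x0 ∈ A ξ} = {ξ | x ∈ A ξ} := hR x0 hx0 x hx.1 hp0
  have h3 : {ξ | x0 ∈ A ξ} = {ξ | x' ∈ A ξ} := hR x0 hx0 x' hx'.1 (hp0.trans hp)
  have h4 : x ∈ A ξ := (Set.ext_iff.1 h2 ξ).1 hξ
  have h5 : x' ∈ A ξ := (Set.ext_iff.1 h3 ξ).1 hξ
  have h6 : Y x (ξ (p x)) = Y x' (ξ (p x')) := hY ξ x h4 x' h5 hp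
  rw [← hp, hξq] at h6
  exact h6

theorem onto_zero {X T : Type} (U : Ultrafilter X) (p : X → T)
    (hFP : ∀ (S : Type) (F : X → S), #S < ℵ_ (ω : Ordinal.{0}) → Fac U p F) (m : ℕ) :
    Onto U p (fun _ => m) := by
  intro y hy
  obtain ⟨A, hA, h⟩ := hFP (W m).ToType (fun x => Ordinal.ToType.mk ⟨y x, hy x⟩) (by
    rw [mk_toType, card_W]
    exact aleph_nat_lt m)
  refine ⟨A, hA, fun x hx x' hx' hp => ?_⟩
  have h1 := h x hx x' hx' hp
  have h2 := Ordinal.ToType.mk.injective h1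
  exact congrArg Subtype.val h2

/-- There is a level at which `Onto` stops. -/
theorem exists_level {X T : Type} (U : Ultrafilter X) (hκ : (ℵ_ ω : Cardinal.{0}).IsStrongLimit)
    (p : X → T) (hT : #T < ℵ_ (ω : Ordinal.{0}))
    (hFP : ∀ (S : Type) (F : X → S), #S < ℵ_ (ω : Ordinal.{0}) → Fac U p F)
    (hne : ∃ e, ¬ Onto U p e) : ∃ e, Onto U p e ∧ ¬ Onto U p (fun t => e t + 1) := by
  classical
  by_contra hc
  push Not at hc
  have hcard : #(T → ℕ) < ℵ_ (ω : Ordinal.{0}) := by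
    refine card_fun_lt hκ hT ?_
    rw [mk_nat]
    exact aleph0_lt_aleph.2 omega0_pos
  let J := {e : T → ℕ // Onto U p e}
  let E := {e : T → ℕ // ¬ Onto U p e}
  have hJ : #J < ℵ_ (ω : Ordinal.{0}) := (mk_subtype_le _).trans_lt hcard
  have hE : #E < ℵ_ (ω : Ordinal.{0}) := (mk_subtype_le _).trans_lt hcard
  have hy : ∀ e : E, ∃ y : X → Ordinal.{0}, (∀ x, y x < W (e.1 (p x))) ∧ ¬ Fac U p y := by
    intro e
    have h1 := e.2
    unfold Onto at h1
    push Not at h1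
    exact h1
  choose y hyW hyF using hy
  let Y : J → X → E → Ordinal.{0} := fun e x e' => if e'.1 (p x) ≤ e.1 (p x) then y e' x else 0
  have hYF : ∀ e : J, Fac U p (Y e) := by
    intro e
    refine fac_tuple U hκ p hT hFP hE (Y e) fun ξ => e.2 _ fun x => ?_
    simp only [Y]
    split_ifs with h1
    · exact (hyW _ x).trans_le (W_le_W.2 h1)
    · exact W_pos _
  choose A hA hAY using hYF
  obtain ⟨A', hA', hR⟩ := hFP (Set J) (fun x => {e | x ∈ A e}) (card_set_lt hκ hJ)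
  have key1 : ∀ e' : E, {x | x ∈ A' ∧ ∃ e : J, x ∈ A e ∧ e'.1 (p x) ≤ e.1 (p x)} ∉ U := by
    intro e' hmem
    apply hyF e'
    refine ⟨_, hmem, fun x hx x' hx' hp => ?_⟩
    obtain ⟨hx1, e, hxe, hle⟩ := hx
    have h2 : {e | x ∈ A e} = {e | x' ∈ A e} := hR x hx1 x' hx'.1 hp
    have hx'e : x' ∈ A e := (Set.ext_iff.1 h2 e).1 hxe
    have h3 := congrFun (hAY e x hxe x' hx'e hp) e'
    simp only [Y] at h3
    rw [if_pos hle, if_pos (hp ▸ hle)] at h3
    exact h3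
  have key2 : ∀ e' : E, {x | x ∈ A' ∧ ∀ e : J, x ∈ A e → e.1 (p x) < e'.1 (p x)} ∈ U := by
    intro e'
    have h1 := Ultrafilter.compl_mem_iff_notMem.2 (key1 e')
    refine Filter.mem_of_superset (Filter.inter_mem h1 hA') fun x hx => ⟨hx.2, fun e he => ?_⟩
    by_contra h2
    exact hx.1 ⟨hx.2, e, he, not_lt.1 h2⟩
  obtain ⟨e1, he1⟩ := hne
  let e0 : J := ⟨fun _ => 0, onto_zero U p hFP 0⟩
  let s : T → ℕ := fun t => sSup {n | ∃ x ∈ A', p x = t ∧ ∃ e : J, x ∈ A e ∧ e.1 t = n}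
  have hG := Filter.inter_mem (key2 ⟨e1, he1⟩) (hA e0)
  have hs : ∀ x ∈ {x | x ∈ A' ∧ ∀ e : J, x ∈ A e → e.1 (p x) < e1 (p x)} ∩ A e0,
      (∀ e : J, x ∈ A e → e.1 (p x) ≤ s (p x)) ∧ ∃ e : J, x ∈ A e ∧ e.1 (p x) = s (p x) := by
    rintro x ⟨⟨hx1, hx2⟩, hx3⟩
    have hset : {n | ∃ x' ∈ A', p x' = p x ∧ ∃ e : J, x' ∈ A e ∧ e.1 (p x) = n} =
        {n | ∃ e : J, x ∈ A e ∧ e.1 (p x) = n} := by
      ext n
      constructor
      · rintro ⟨x', hx', hp, e, he, hn⟩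
        have h2 : {e | x' ∈ A e} = {e | x ∈ A e} := hR x' hx' x hx1 hp
        exact ⟨e, (Set.ext_iff.1 h2 e).1 he, hn⟩
      · rintro ⟨e, he, hn⟩
        exact ⟨x, hx1, rfl, e, he, hn⟩
    have hbdd : BddAbove {n | ∃ e : J, x ∈ A e ∧ e.1 (p x) = n} := by
      refine ⟨e1 (p x), ?_⟩
      rintro n ⟨e, he, rfl⟩
      exact (hx2 e he).le
    have hnon : {n | ∃ e : J, x ∈ A e ∧ e.1 (p x) = n}.Nonempty := ⟨0, e0, hx3, rfl⟩
    constructor
    · intro e he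
      simp only [s]
      rw [hset]
      exact le_csSup hbdd ⟨e, he, rfl⟩
    · simp only [s]
      rw [hset]
      exact Nat.sSup_mem hnon hbdd
  have hsJ : Onto U p s := by
    by_contra hsE
    obtain ⟨x, hx⟩ := Ultrafilter.nonempty_of_mem (Filter.inter_mem hG (key2 ⟨s, hsE⟩))
    obtain ⟨e, he, hes⟩ := (hs x hx.1).2
    exact absurd (hx.2.2 e he) (by simp only [hes, lt_self_iff_false, not_false_eq_true])
  have hs1 : Onto U p (fun t => s t + 1) := hc s hsJ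
  obtain ⟨x, hx⟩ := Ultrafilter.nonempty_of_mem (Filter.inter_mem hG (hA ⟨_, hs1⟩))
  have h1 := (hs x hx.1).1 ⟨_, hs1⟩ hx.2
  simp only at h1
  omega

/-- At the level where `Onto` stops there is a function which is unbounded over `p`. -/
theorem exists_unbounded {X T : Type} (U : Ultrafilter X) (p : X → T) (e : T → ℕ)
    (he : Onto U p e) (he1 : ¬ Onto U p (fun t => e t + 1)) :
    ∃ y : X → Ordinal.{0}, (∀ x, y x < W (e (p x) + 1)) ∧
      ∀ h : T → Ordinal.{0}, (∀ t, h t < W (e t + 1)) → {x | h (p x) ≤ y x} ∈ U := by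
  classical
  by_contra hc
  push Not at hc
  apply he1
  intro y hy
  obtain ⟨h, hh, hn⟩ := hc y hy
  have hmem : {x | y x < h (p x)} ∈ U := by
    have h1 := Ultrafilter.compl_mem_iff_notMem.2 hn
    refine Filter.mem_of_superset h1 fun x hx => ?_
    have h3 : ¬ (h (p x) ≤ y x) := hx
    exact not_le.1 h3
  obtain ⟨A, hA, hz⟩ := he (fun x => if y x < h (p x) then inv (h (p x)) (y x) else 0) (by
    intro x
    split_ifs with h1
    · refine (inv_spec h1).1.trans_le ?_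
      rw [← ord_aleph_nat, Cardinal.ord_le_ord]
      exact card_le_of_lt_W (hh _)
    · exact W_pos _)
  refine ⟨_, Filter.inter_mem hA hmem, fun x hx x' hx' hp => ?_⟩
  have h1 : y x < h (p x) := hx.2
  have h2 : y x' < h (p x') := hx'.2
  have h3 := hz x hx.1 x' hx'.1 hp
  simp only at h3
  rw [if_pos h1, if_pos h2] at h3
  rw [← (inv_spec h1).2, ← (inv_spec h2).2, h3, hp]

end SU
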