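import Pool.Agent.SU.NFa
import Pool.Agent.SU.NFDefs

/-
PROJECT SU (MP_90aa37_lc).  Module NFb: the image ultrafilter is in normal form.
-/

open Cardinal Ordinal Set

namespace SU

theorem sup_lt_W' {K : Type} {m : ℕ} (hK : #K < ℵ_ (m : Ordinal.{0})) (f : K → Ordinal.{0})
    (hf : ∀ x, f x < W m) : ∃ b < W m, ∀ x, f x < b := by
  refine ⟨⨆ x, (f x + 1), ?_, fun x => ?_⟩
  · apply Ordinal.iSup_lt_of_lt_cof
    · rw [← ord_aleph_nat, (isRegular_aleph_nat m).cof_ord]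
      exact hK
    · exact fun x => add_one_lt_W (hf x)
  · refine lt_of_lt_of_le ?_ (Ordinal.le_iSup (fun x => f x + 1) x)
    simp

theorem le_of_lt_aleph_succ {c : Cardinal.{0}} {n : ℕ} (h : c < ℵ_ ((n + 1 : ℕ) : Ordinal.{0})) :
    c ≤ ℵ_ (n : Ordinal.{0}) := by
  have h3 : ((n + 1 : ℕ) : Ordinal.{0}) = ((n : ℕ) : Ordinal.{0}) + 1 := by push_cast; rfl
  rw [h3, ← succ_aleph] at h
  exact Order.lt_succ_iff.1 h

/-- The value in `ω_m` as an ordinal. -/
noncomputable def vl {m : ℕ} (a : (ω_ (m : Ordinal.{0})).ToType) : Ordinal.{0} :=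
  (Ordinal.ToType.mk.symm a : Iio (ω_ (m : Ordinal.{0})))

theorem vl_lt {m : ℕ} (a : (ω_ (m : Ordinal.{0})).ToType) : vl a < W m :=
  (Ordinal.ToType.mk.symm a : Iio (ω_ (m : Ordinal.{0}))).2

theorem vl_mk {m : ℕ} {o : Ordinal.{0}} (h : o < ω_ (m : Ordinal.{0})) :
    vl (Ordinal.ToType.mk ⟨o, h⟩ : (ω_ (m : Ordinal.{0})).ToType) = o := by
  unfold vl
  rw [OrderIso.symm_apply_apply]

theorem vl_inj {m : ℕ} {a b : (ω_ (m : Ordinal.{0})).ToType} (h : vl a = vl b) : a = b := by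
  unfold vl at h
  exact Ordinal.ToType.mk.symm.injective (Subtype.ext h)

/-- The map to the sum. -/
noncomputable def phi {X T : Type} (p : X → T) (e : T → ℕ) (y : X → Ordinal.{0})
    (hy : ∀ x, y x < W (e (p x) + 1)) : X → Sm (fun t => e t + 1) :=
  fun x => ⟨p x, Ordinal.ToType.mk ⟨y x, hy x⟩⟩

theorem exists_code {S : Type} {m : ℕ} (R : Set S) (hR : #R ≤ ℵ_ (m : Ordinal.{0})) :
    ∃ r : S → Ordinal.{0}, (∀ s, r s < W m) ∧ InjOn r R := by
  classical
  have h1 : #R ≤ #(W m).ToType := by rw [mk_toType, card_W]; exact hR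
  obtain ⟨g⟩ := (Cardinal.le_def _ _).1 h1
  refine ⟨fun s => if h : s ∈ R then vl (g ⟨s, h⟩) else 0, fun s => ?_, fun s hs s' hs' h => ?_⟩
  · simp only
    split_ifs
    · exact vl_lt _
    · exact W_pos _
  · simp only [dif_pos hs, dif_pos hs'] at h
    exact congrArg Subtype.val (g.injective (vl_inj h))

theorem normalForm_map {X T : Type} (U : Ultrafilter X)
    (p : X → T) (hT : #T < ℵ_ (ω : Ordinal.{0}))
    (hFP : ∀ (S : Type) (F : X → S), #S < ℵ_ (ω : Ordinal.{0}) → Fac U p F)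
    (e : T → ℕ) (he : Onto U p e) (he1 : ¬ Onto U p (fun t => e t + 1))
    (y : X → Ordinal.{0}) (hy : ∀ x, y x < W (e (p x) + 1))
    (hyU : ∀ h : T → Ordinal.{0}, (∀ t, h t < W (e t + 1)) → {x | h (p x) ≤ y x} ∈ U) :
    NormalForm (fun t => e t + 1) (U.map (phi p e y hy)) := by
  classical
  refine ⟨hT, fun m => ?_, fun A hA => ?_, fun S z hz => ?_⟩
  · -- unbounded
    by_contra hn
    apply he1
    have h1 : {x | ¬ (m ≤ e (p x) + 1)} ∈ U := Ultrafilter.compl_mem_iff_notMem.2 hn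
    intro y' hy'
    obtain ⟨A, hA, h2⟩ := onto_zero U p hFP m
      (fun x => if e (p x) + 1 < m then y' x else 0) (by
        intro x
        split_ifs with h3
        · exact (hy' x).trans_le (W_le_W.2 h3.le)
        · exact W_pos _)
    refine ⟨_, Filter.inter_mem hA h1, fun x hx x' hx' hp => ?_⟩
    have h3 := h2 x hx.1 x' hx'.1 hp
    have h4 : e (p x) + 1 < m := not_le.1 hx.2
    have h5 : e (p x') + 1 < m := not_le.1 hx'.2
    simp only at h3
    rwa [if_pos h4, if_pos h5] at h3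
  · -- uniform
    by_contra hn
    have h1 : {x | ¬ (#{a | (⟨p x, a⟩ : Sm fun t => e t + 1) ∈ A} =
        ℵ_ ((e (p x) + 1 : ℕ) : Ordinal.{0}))} ∈ U := Ultrafilter.compl_mem_iff_notMem.2 hn
    have h2 : ∀ t, ∃ b < W (e t + 1), #{a | (⟨t, a⟩ : Sm fun t => e t + 1) ∈ A} ≠
        ℵ_ ((e t + 1 : ℕ) : Ordinal.{0}) → ∀ a, (⟨t, a⟩ : Sm fun t => e t + 1) ∈ A → vl a < b := by
      intro t
      by_cases h3 : #{a | (⟨t, a⟩ : Sm fun t => e t + 1) ∈ A} = ℵ_ ((e t + 1 : ℕ) : Ordinal.{0})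
      · exact ⟨0, W_pos _, fun h4 => absurd h3 h4⟩
      · have h4 : #{a | (⟨t, a⟩ : Sm fun t => e t + 1) ∈ A} < ℵ_ ((e t + 1 : ℕ) : Ordinal.{0}) := by
          refine lt_of_le_of_ne ?_ h3
          refine (mk_set_le _).trans ?_
          rw [mk_toType, Ordinal.card_omega]
        obtain ⟨b, hb, hb2⟩ := sup_lt_W' h4 (fun a => vl a.1) (fun a => vl_lt _)
        exact ⟨b, hb, fun _ a ha => hb2 ⟨a, ha⟩⟩
    choose h hh1 hh2 using h2
    obtain ⟨x, hx⟩ := Ultrafilter.nonempty_of_mem (Filter.inter_mem (hyU h hh1)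
      (Filter.inter_mem h1 (Ultrafilter.mem_map.1 hA)))
    have h3 := hh2 (p x) hx.2.1 _ hx.2.2
    have h4 := vl_mk (m := e (p x) + 1) (hy x)
    exact absurd hx.1 (not_le.2 (h4 ▸ h3))
  · -- complete
    have h1 : ∀ t, #(range fun a => z ⟨t, a⟩) ≤ ℵ_ ((e t : ℕ) : Ordinal.{0}) :=
      fun t => le_of_lt_aleph_succ (hz t)
    have h2 : ∀ t, ∃ r : S → Ordinal.{0}, (∀ s, r s < W (e t)) ∧
        InjOn r (range fun a => z ⟨t, a⟩) := fun t => exists_code _ (h1 t)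
    choose r hr1 hr2 using h2
    obtain ⟨A, hA, h3⟩ := he (fun x => r (p x) (z (phi p e y hy x))) (fun x => hr1 _ _)
    refine ⟨phi p e y hy '' A, ?_, ?_⟩
    · rw [Ultrafilter.mem_map]
      exact Filter.mem_of_superset hA (subset_preimage_image _ _)
    · rintro _ ⟨x, hx, rfl⟩ _ ⟨x', hx', rfl⟩ hp
      have hp' : p x = p x' := hp
      have h4 := h3 x hx x' hx' hp'
      simp only at h4
      rw [← hp'] at h4
      refine hr2 (p x) ⟨_, rfl⟩ ?_ h4
      have h5 : ∀ t, p x' = t → z (phi p e y hy x') ∈ range fun a => z ⟨t, a⟩ := by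
        rintro t rfl
        exact ⟨_, rfl⟩
      exact h5 _ hp'.symm

end SU
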