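import Pool.Agent.SU.NFb

/-
PROJECT SU (MP_90aa37_lc).  Module NFc: uniformity, cofinality.
-/

open Cardinal Ordinal Set

namespace SU

theorem lt_aleph_omega_of_forall {c : Cardinal.{0}} (h : c < ℵ_ (ω : Ordinal.{0})) :
    ∃ m : ℕ, c < ℵ_ (m : Ordinal.{0}) := by
  obtain ⟨n, hn⟩ := exists_le_aleph h
  refine ⟨n + 1, hn.trans_lt (aleph_lt_aleph.2 ?_)⟩
  exact_mod_cast Nat.lt_succ_self n

/-- A uniform ultrafilter on a set of size `ℵ_ω` is not `Onto` at all levels. -/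
theorem exists_not_onto {X T : Type} (U : Ultrafilter X) (hX : #X = ℵ_ (ω : Ordinal.{0}))
    (hU : ∀ A ∈ U, #A = #X) (p : X → T) (hT : #T < ℵ_ (ω : Ordinal.{0}))
    (hFP : ∀ (S : Type) (F : X → S), #S < ℵ_ (ω : Ordinal.{0}) → Fac U p F) :
    ∃ e, ¬ Onto U p e := by
  classical
  by_contra hc
  push Not at hc
  have h1 : #X = #(ω_ (ω : Ordinal.{0})).ToType := by rw [mk_toType, Ordinal.card_omega, hX]
  obtain ⟨g⟩ := Cardinal.eq.1 h1
  let q : X → Ordinal.{0} := fun x => (Ordinal.ToType.mk.symm (g x) : Iio (ω_ (ω : Ordinal.{0})))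
  have hq : ∀ x, ∃ n : ℕ, q x < W n := fun x =>
    exists_lt_W (Ordinal.ToType.mk.symm (g x) : Iio (ω_ (ω : Ordinal.{0}))).2
  have hqi : Function.Injective q := fun x x' h =>
    g.injective (Ordinal.ToType.mk.symm.injective (Subtype.ext h))
  choose E hE using hq
  obtain ⟨A, hA, h2⟩ := hFP ℕ E (by rw [mk_nat]; exact aleph0_lt_aleph.2 omega0_pos)
  let e : T → ℕ := fun t => if h : ∃ x ∈ A, p x = t then E h.choose else 0
  have he : ∀ x ∈ A, e (p x) = E x := by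
    intro x hx
    have h3 : ∃ x' ∈ A, p x' = p x := ⟨x, hx, rfl⟩
    simp only [e, dif_pos h3]
    exact h2 _ h3.choose_spec.1 x hx h3.choose_spec.2
  obtain ⟨A', hA', h4⟩ := hc e (fun x => if q x < W (e (p x)) then q x else 0) (by
    intro x
    split_ifs with h5
    · exact h5
    · exact W_pos _)
  have h5 : InjOn p (A ∩ A') := by
    intro x hx x' hx' hp
    have h6 : q x < W (e (p x)) := by rw [he x hx.1]; exact hE x
    have h7 : q x' < W (e (p x')) := by rw [he x' hx'.1]; exact hE x'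
    have h8 := h4 x hx.2 x' hx'.2 hp
    simp only at h8
    rw [if_pos h6, if_pos h7] at h8
    exact hqi h8
  have h6 := hU _ (Filter.inter_mem hA hA')
  have h7 : #(A ∩ A' : Set X) ≤ #T := Cardinal.mk_le_of_injective (f := fun x : (A ∩ A' : Set X) => p x)
    (fun x x' h => Subtype.ext (h5 x.2 x'.2 h))
  rw [h6, hX] at h7
  exact absurd hT (not_lt.2 h7)

theorem nf_card {T : Type} {F : T → ℕ} {V : Ultrafilter (Sm F)} (h : NormalForm F V) (A : Set (Sm F))
    (hA : A ∈ V) : #A = ℵ_ (ω : Ordinal.{0}) := by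
  apply le_antisymm
  · refine (mk_set_le _).trans ?_
    rw [mk_sigma]
    calc Cardinal.sum (fun t => #(ω_ (F t : Ordinal.{0})).ToType)
        ≤ Cardinal.sum (fun _ : T => (ℵ_ (ω : Ordinal.{0}) : Cardinal.{0})) :=
          Cardinal.sum_le_sum _ _ fun t => by
            rw [mk_toType, Ordinal.card_omega]
            exact (aleph_nat_lt _).le
      _ = #T * ℵ_ (ω : Ordinal.{0}) := by rw [Cardinal.sum_const']
      _ ≤ ℵ_ (ω : Ordinal.{0}) * ℵ_ (ω : Ordinal.{0}) := mul_le_mul' h.small.le le_rfl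
      _ = ℵ_ (ω : Ordinal.{0}) := mul_eq_self (aleph0_le_aleph _)
  · by_contra hn
    obtain ⟨m, hm⟩ := lt_aleph_omega_of_forall (not_le.1 hn)
    have h1 : {x : Sm F | m ≤ F x.1} ∈ V := h.unbounded m
    have h2 : {x : Sm F | #{a | (⟨x.1, a⟩ : Sm F) ∈ A} = ℵ_ (F x.1 : Ordinal.{0})} ∈ V :=
      h.uniform A hA
    obtain ⟨x, hx⟩ := Ultrafilter.nonempty_of_mem (Filter.inter_mem h1 h2)
    have h3 : ℵ_ (F x.1 : Ordinal.{0}) ≤ #A := by
      rw [← hx.2]
      exact Cardinal.mk_le_of_injective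
        (f := fun a : {a | (⟨x.1, a⟩ : Sm F) ∈ A} => (⟨⟨x.1, a.1⟩, a.2⟩ : A))
        (fun a b hab => by
          have h4 := congrArg Subtype.val hab
          simp only [Sigma.mk.injEq, heq_eq_eq, true_and] at h4
          exact Subtype.ext h4)
    have h4 : ℵ_ (m : Ordinal.{0}) ≤ ℵ_ (F x.1 : Ordinal.{0}) := by
      rw [aleph_le_aleph]
      exact_mod_cast hx.1
    exact absurd hm (not_lt.2 (h4.trans h3))

theorem nf_card_univ {T : Type} {F : T → ℕ} {V : Ultrafilter (Sm F)} (h : NormalForm F V) :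
    #(Sm F) = ℵ_ (ω : Ordinal.{0}) := by
  rw [← mk_univ]
  exact nf_card h univ Filter.univ_mem

/-- Every function of the product of the `ω_n` is below the second coordinate almost everywhere. -/
theorem nf_above {T : Type} {F : T → ℕ} {V : Ultrafilter (Sm F)} (h : NormalForm F V)
    (g : ℕ → Ordinal.{0}) (hg : ∀ n, g n < W n) : {x : Sm F | g (F x.1) ≤ vl x.2} ∈ V := by
  by_contra hn
  have h1 : {x : Sm F | ¬ (g (F x.1) ≤ vl x.2)} ∈ V := Ultrafilter.compl_mem_iff_notMem.2 hn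
  have h2 : {x : Sm F | #{a | (⟨x.1, a⟩ : Sm F) ∈ {x : Sm F | ¬ (g (F x.1) ≤ vl x.2)}} =
      ℵ_ (F x.1 : Ordinal.{0})} ∈ V := h.uniform _ h1
  obtain ⟨x, hx⟩ := Ultrafilter.nonempty_of_mem h2
  have h3 : #{a | (⟨x.1, a⟩ : Sm F) ∈ {x : Sm F | ¬ (g (F x.1) ≤ vl x.2)}} <
      ℵ_ (F x.1 : Ordinal.{0}) := by
    refine lt_of_le_of_lt ?_ (lt_W_iff.1 (hg (F x.1)))
    rw [← mk_toType]
    refine Cardinal.mk_le_of_injective
      (f := fun a : {a | (⟨x.1, a⟩ : Sm F) ∈ {x : Sm F | ¬ (g (F x.1) ≤ vl x.2)}} =>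
        Ordinal.ToType.mk ⟨vl a.1, not_le.1 a.2⟩) fun a b hab => ?_
    have h4 := congrArg Subtype.val (Ordinal.ToType.mk.injective hab)
    exact Subtype.ext (vl_inj h4)
  exact absurd hx (ne_of_lt h3)

/-- The cofinality of the product modulo the projection is at most the size of a base. -/
theorem nf_cof {T ι : Type} {F : T → ℕ} {V : Ultrafilter (Sm F)} (h : NormalForm F V)
    (B : ι → Set (Sm F)) (hB : IsBase V B) :
    ∃ G : ι → ℕ → Ordinal.{0}, (∀ i n, G i n < ω_ (n : Ordinal.{0})) ∧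
      ∀ g : ℕ → Ordinal.{0}, (∀ n, g n < ω_ (n : Ordinal.{0})) →
        ∃ i, {n | g n ≤ G i n} ∈ V.map (fun x => F x.1) := by
  classical
  have h1 : ∀ (i : ι) (n : ℕ), ∃ o < W n, (∃ x ∈ B i, F x.1 = n) → ∃ x ∈ B i, F x.1 = n ∧ vl x.2 = o := by
    intro i n
    by_cases h2 : ∃ x ∈ B i, F x.1 = n
    · obtain ⟨x, hx, rfl⟩ := h2
      exact ⟨vl x.2, vl_lt _, fun _ => ⟨x, hx, rfl, rfl⟩⟩
    · exact ⟨0, W_pos _, fun h3 => absurd h3 h2⟩
  choose G hG1 hG2 using h1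
  refine ⟨G, hG1, fun g hg => ?_⟩
  obtain ⟨i, hi⟩ := hB.2 _ (nf_above h g hg)
  refine ⟨i, ?_⟩
  rw [Ultrafilter.mem_map]
  refine Filter.mem_of_superset (hB.1 i) fun x hx => ?_
  obtain ⟨x', hx', hF, hv⟩ := hG2 i (F x.1) ⟨x, hx, rfl⟩
  have h3 : g (F x'.1) ≤ vl x'.2 := hi hx'
  have h4 : g (F x'.1) ≤ G i (F x.1) := hv ▸ h3
  rw [hF] at h4
  exact h4

/-- A family of at most `ℵ_ω` functions is bounded modulo an ultrafilter on `ℕ` containing all tails. -/
theorem not_cof_small {K : Type} (hK : #K ≤ ℵ_ (ω : Ordinal.{0})) (D : Ultrafilter ℕ)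
    (hD : ∀ m : ℕ, {n | m ≤ n} ∈ D) (G : K → ℕ → Ordinal.{0}) (hG : ∀ i n, G i n < ω_ (n : Ordinal.{0})) :
    ∃ g : ℕ → Ordinal.{0}, (∀ n, g n < ω_ (n : Ordinal.{0})) ∧ ∀ i, {n | g n ≤ G i n} ∉ D := by
  classical
  have h1 : #K ≤ #(ω_ (ω : Ordinal.{0})).ToType := by rw [mk_toType, Ordinal.card_omega]; exact hK
  obtain ⟨r⟩ := (Cardinal.le_def _ _).1 h1
  let q : K → Ordinal.{0} := fun x => (Ordinal.ToType.mk.symm (r x) : Iio (ω_ (ω : Ordinal.{0})))
  have hq : ∀ x, ∃ n : ℕ, q x < W n := fun x =>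
    exists_lt_W (Ordinal.ToType.mk.symm (r x) : Iio (ω_ (ω : Ordinal.{0}))).2
  have hqi : Function.Injective q := fun x x' h =>
    r.injective (Ordinal.ToType.mk.symm.injective (Subtype.ext h))
  have h2 : ∀ n : ℕ, ∃ b < W n, ∀ m < n, ∀ i : K, q i < W m → G i n < b := by
    intro n
    cases n with
    | zero => exact ⟨0, W_pos _, fun m hm => absurd hm (Nat.not_lt_zero m)⟩
    | succ n =>
      have h3 : #{i : K // q i < W n} < ℵ_ ((n + 1 : ℕ) : Ordinal.{0}) := by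
        have h4 : #{i : K // q i < W n} ≤ #(W n).ToType :=
          Cardinal.mk_le_of_injective (f := fun i : {i : K // q i < W n} =>
            Ordinal.ToType.mk ⟨q i.1, i.2⟩) fun i j hij => by
              have h5 : (⟨q i.1, i.2⟩ : Iio (W n)) = ⟨q j.1, j.2⟩ := Ordinal.ToType.mk.injective hij
              have h6 : q i.1 = q j.1 := Subtype.mk.inj h5
              exact Subtype.ext (hqi h6)
        rw [mk_toType, card_W] at h4
        refine h4.trans_lt (aleph_lt_aleph.2 ?_)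
        exact_mod_cast Nat.lt_succ_self n
      obtain ⟨b, hb, hb2⟩ := sup_lt_W' h3 (fun i => G i.1 (n + 1)) (fun i => hG _ _)
      refine ⟨b, hb, fun m hm i hi => hb2 ⟨i, ?_⟩⟩
      exact hi.trans_le (W_le_W.2 (Nat.lt_succ_iff.1 hm))
  choose g hg1 hg2 using h2
  refine ⟨g, hg1, fun i hi => ?_⟩
  obtain ⟨m, hm⟩ := hq i
  obtain ⟨n, hn⟩ := Ultrafilter.nonempty_of_mem (Filter.inter_mem hi (hD (m + 1)))
  exact absurd hn.1 (not_le.2 (hg2 n m hn.2 i hm))

end SU
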