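import Pool.Agent.SU.NFc

/-
PROJECT SU (MP_90aa37_lc).  Module NFd: directedness modulo the projection, towers.
-/

open Cardinal Ordinal Set

namespace SU

/-- Inclusion of the fibres over almost all `t`. -/
def SubD {T : Type} {F : T → ℕ} (V : Ultrafilter (Sm F)) (A B : Set (Sm F)) : Prop :=
  {t | ∀ a, (⟨t, a⟩ : Sm F) ∈ A → (⟨t, a⟩ : Sm F) ∈ B} ∈ V.map Sigma.fst

theorem subD_trans {T : Type} {F : T → ℕ} {V : Ultrafilter (Sm F)} {A B C : Set (Sm F)}
    (h1 : SubD V A B) (h2 : SubD V B C) : SubD V A C :=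
  Filter.mem_of_superset (Filter.inter_mem h1 h2) fun _ ht a ha => ht.2 a (ht.1 a ha)

theorem directed_small {T : Type} {F : T → ℕ} {V : Ultrafilter (Sm F)} (h : NormalForm F V)
    (hκ : (ℵ_ ω : Cardinal.{0}).IsStrongLimit) {J : Type} (hJ : #J < ℵ_ (ω : Ordinal.{0}))
    (A : J → Set (Sm F)) (hA : ∀ j, A j ∈ V) : ∃ A' ∈ V, ∀ j, SubD V A' (A j) := by
  classical
  obtain ⟨m, hm⟩ := lt_aleph_omega_of_forall (card_set_lt hκ hJ)
  obtain ⟨A', hA', h1⟩ := h.complete (Set J) (fun x => if m ≤ F x.1 then {j | x ∈ A j} else ∅) (by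
    intro t
    by_cases h2 : m ≤ F t
    · refine (mk_set_le _).trans_lt (hm.trans_le ?_)
      rw [aleph_le_aleph]
      exact_mod_cast h2
    · have h3 : (range fun a => if m ≤ F (⟨t, a⟩ : Sm F).1 then {j | (⟨t, a⟩ : Sm F) ∈ A j} else ∅) ⊆
          {(∅ : Set J)} := by
        rintro _ ⟨a, rfl⟩
        simp only [if_neg h2, mem_singleton_iff]
      refine (mk_le_mk_of_subset h3).trans_lt ?_
      rw [mk_singleton]
      exact one_lt_aleph0.trans_le (aleph0_le_aleph _))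
  have h4 : {x : Sm F | m ≤ F x.1} ∈ V := h.unbounded m
  refine ⟨_, Filter.inter_mem hA' h4, fun j => ?_⟩
  unfold SubD
  rw [Ultrafilter.mem_map]
  refine Filter.mem_of_superset (Filter.inter_mem (Filter.inter_mem hA' h4) (hA j)) ?_
  rintro x ⟨⟨hx1, hx2⟩, hx3⟩ a ⟨ha1, ha2⟩
  have h5 := h1 x hx1 ⟨x.1, a⟩ ha1 rfl
  simp only at h5
  have hx2' : m ≤ F x.1 := hx2
  rw [if_pos hx2', if_pos hx2'] at h5
  exact (Set.ext_iff.1 h5 j).1 hx3

theorem directed {T : Type} {F : T → ℕ} {V : Ultrafilter (Sm F)} (h : NormalForm F V)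
    (hκ : (ℵ_ ω : Cardinal.{0}).IsStrongLimit) {J : Type} (hJ : #J ≤ ℵ_ (ω : Ordinal.{0}))
    (A : J → Set (Sm F)) (hA : ∀ j, A j ∈ V) : ∃ A' ∈ V, ∀ j, SubD V A' (A j) := by
  classical
  have h1 : #J ≤ #(ω_ (ω : Ordinal.{0})).ToType := by rw [mk_toType, Ordinal.card_omega]; exact hJ
  obtain ⟨r⟩ := (Cardinal.le_def _ _).1 h1
  let q : J → Ordinal.{0} := fun x => (Ordinal.ToType.mk.symm (r x) : Iio (ω_ (ω : Ordinal.{0})))
  have hq : ∀ x, ∃ n : ℕ, q x < W n := fun x =>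
    exists_lt_W (Ordinal.ToType.mk.symm (r x) : Iio (ω_ (ω : Ordinal.{0}))).2
  have hqi : Function.Injective q := fun x x' h =>
    r.injective (Ordinal.ToType.mk.symm.injective (Subtype.ext h))
  have h2 : ∀ n : ℕ, #{j : J // q j < W n} < ℵ_ (ω : Ordinal.{0}) := by
    intro n
    have h4 : #{i : J // q i < W n} ≤ #(W n).ToType :=
      Cardinal.mk_le_of_injective (f := fun i : {i : J // q i < W n} =>
        Ordinal.ToType.mk ⟨q i.1, i.2⟩) fun i j hij => by
          have h5 : (⟨q i.1, i.2⟩ : Iio (W n)) = ⟨q j.1, j.2⟩ := Ordinal.ToType.mk.injective hij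
          have h6 : q i.1 = q j.1 := Subtype.mk.inj h5
          exact Subtype.ext (hqi h6)
    rw [mk_toType, card_W] at h4
    exact h4.trans_lt (aleph_nat_lt n)
  have h3 : ∀ n : ℕ, ∃ A' ∈ V, ∀ j : {j : J // q j < W n}, SubD V A' (A j.1) := fun n =>
    directed_small h hκ (h2 n) (fun j => A j.1) (fun j => hA j.1)
  choose A1 hA1 hA2 using h3
  obtain ⟨A', hA', h4⟩ := directed_small h hκ (J := ℕ)
    (by rw [mk_nat]; exact aleph0_lt_aleph.2 omega0_pos) A1 hA1
  refine ⟨A', hA', fun j => ?_⟩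
  obtain ⟨n, hn⟩ := hq j
  exact subD_trans (h4 n) (hA2 n ⟨j, hn⟩)

/-- A tower. -/
theorem exists_tower {T ι : Type} {F : T → ℕ} {V : Ultrafilter (Sm F)} (h : NormalForm F V)
    (hκ : (ℵ_ ω : Cardinal.{0}).IsStrongLimit) (B : ι → Set (Sm F)) (hB : IsBase V B)
    (hι : #ι = ℵ_ ((ω : Ordinal.{0}) + 1)) :
    ∃ C : (ω_ ((ω : Ordinal.{0}) + 1)).ToType → Set (Sm F), (∀ i, C i ∈ V) ∧
      (∀ i j, i < j → SubD V (C j) (C i)) ∧
      ∀ A ∈ V, ∃ i, SubD V (C i) A := by
  classical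
  have h1 : #(ω_ ((ω : Ordinal.{0}) + 1)).ToType = #ι := by rw [mk_toType, Ordinal.card_omega, hι]
  obtain ⟨b⟩ := Cardinal.eq.1 h1
  have hseg : ∀ i : (ω_ ((ω : Ordinal.{0}) + 1)).ToType, #(Iio i) ≤ ℵ_ (ω : Ordinal.{0}) := by
    intro i
    have h2 : #(Iio i) < ℵ_ ((ω : Ordinal.{0}) + 1) := by
      have h3 : #(ω_ ((ω : Ordinal.{0}) + 1)).ToType = ℵ_ ((ω : Ordinal.{0}) + 1) := by
        rw [mk_toType, Ordinal.card_omega]
      rw [← h3]
      apply mk_Iio_lt i
      rw [h3, Cardinal.ord_aleph, Ordinal.type_toType]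
    rw [← succ_aleph] at h2
    exact Order.lt_succ_iff.1 h2
  have hstep : ∀ (i : (ω_ ((ω : Ordinal.{0}) + 1)).ToType)
      (r : (ω_ ((ω : Ordinal.{0}) + 1)).ToType → Set (Sm F)), ∃ C ∈ V,
        (∀ j < i, r j ∈ V) → (∀ j < i, SubD V C (r j)) ∧ SubD V C (B (b i)) := by
    intro i r
    by_cases hr : ∀ j < i, r j ∈ V
    · have hJ : #(Option (Iio i)) ≤ ℵ_ (ω : Ordinal.{0}) := by
        rw [mk_option]
        exact add_le_of_le (aleph0_le_aleph _) (hseg i) (one_le_aleph0.trans (aleph0_le_aleph _))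
      obtain ⟨C, hC, h2⟩ := directed h hκ hJ
        (fun o => match o with
          | none => B (b i)
          | some j => r j) (by
          intro o
          cases o with
          | none => exact hB.1 _
          | some j => exact hr j.1 j.2)
      exact ⟨C, hC, fun _ => ⟨fun j hj => h2 (some ⟨j, hj⟩), h2 none⟩⟩
    · exact ⟨univ, Filter.univ_mem, fun h2 => absurd h2 hr⟩
  choose stp hstp1 hstp2 using hstep
  let C : (ω_ ((ω : Ordinal.{0}) + 1)).ToType → Set (Sm F) :=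
    (wellFounded_lt (α := (ω_ ((ω : Ordinal.{0}) + 1)).ToType)).fix
      (fun i r => stp i (fun j => if hj : j < i then r j hj else univ))
  have hC : ∀ i, C i = stp i (fun j => if j < i then C j else univ) := by
    intro i
    have h2 := (wellFounded_lt (α := (ω_ ((ω : Ordinal.{0}) + 1)).ToType)).fix_eq
      (fun (i : (ω_ ((ω : Ordinal.{0}) + 1)).ToType)
        (r : (j : (ω_ ((ω : Ordinal.{0}) + 1)).ToType) → j < i → Set (Sm F)) =>
          stp i (fun j => if hj : j < i then r j hj else univ)) i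
    simp only [C]
    rw [h2]
    simp only [dite_eq_ite]
  have hCV : ∀ i, C i ∈ V := fun i => by rw [hC i]; exact hstp1 _ _
  have hCs : ∀ i, (∀ j < i, SubD V (C i) (C j)) ∧ SubD V (C i) (B (b i)) := by
    intro i
    have h2 := hstp2 i (fun j => if j < i then C j else univ) (fun j hj => by
      simp only [if_pos hj]
      exact hCV j)
    rw [← hC i] at h2
    refine ⟨fun j hj => ?_, h2.2⟩
    have h3 := h2.1 j hj
    simp only [if_pos hj] at h3
    exact h3
  refine ⟨C, hCV, fun i j hij => (hCs j).1 i hij, fun A hA => ?_⟩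
  obtain ⟨i, hi⟩ := hB.2 A hA
  refine ⟨b.symm i, subD_trans (hCs (b.symm i)).2 ?_⟩
  rw [Equiv.apply_symm_apply]
  exact Filter.mem_of_superset Filter.univ_mem fun t _ a ha => hi ha

end SU
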