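import Pool.Agent.SU.Cl

/-
PROJECT SU (MP_90aa37_lc).  Module NNc: the generated sets are small, and some member of a dominating family is
above a small set in all coordinates `n ≥ k`.
-/

open Cardinal Ordinal Set

namespace SU

theorem cov_NN {M ι : Type} [LinearOrder M] {k : ℕ} (hM : #M ≤ ℵ_ (k : Ordinal.{0}))
    (G : ι → ℕ → Ordinal.{0}) (f : ℕ → Ordinal.{0}) (a : M → ι) (D : Set M) :
    Cov k (NN k G f a D) := by
  have hN : #ℕ ≤ ℵ_ (k : Ordinal.{0}) := by
    rw [mk_nat]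
    exact aleph0_le_aleph _
  have hMN : #(M × ℕ) ≤ ℵ_ (k : Ordinal.{0}) := by
    rw [mk_prod, Cardinal.lift_id, Cardinal.lift_id]
    refine (mul_le_mul' hM hN).trans ?_
    rw [mul_eq_self (aleph0_le_aleph _)]
  have h1 : Cov k (Bs k G f a D) := by
    have h2 := cov_union (cov_union (cov_Iio k) (cov_range hN f))
      (cov_union (cov_range hMN fun p : M × ℕ => G (a p.1) p.2) (cov_range hMN fun p : M × ℕ => T G a p.1 p.2))
    refine cov_mono ?_ h2
    rintro o (ho | ⟨y, -, n, ho | ho⟩)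
    · exact Or.inl ho
    · exact Or.inr (Or.inl ⟨(y, n), ho.symm⟩)
    · exact Or.inr (Or.inr ⟨(y, n), ho.symm⟩)
  exact cov_cl h1

theorem exists_above {ι : Type} {k : ℕ} (G : ι → ℕ → Ordinal.{0})
    (hdom : ∀ g : ℕ → Ordinal.{0}, (∀ n, g n < W (n + 1)) → ∃ i, ∀ n, g n ≤ G i n)
    {A : Set Ordinal.{0}} (hA : Cov k A) :
    ∃ i, ∀ n, k ≤ n → ∀ b ∈ A, b < W (n + 1) → b < G i n := by
  classical
  obtain ⟨K, e, hK, hAe⟩ := hA
  have h1 : ∀ n : ℕ, ∃ b, b < W (n + 1) ∧ (k ≤ n → ∀ x, e x < W (n + 1) → e x < b) := by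
    intro n
    by_cases hkn : k ≤ n
    · have hKn : #K ≤ ℵ_ (n : Ordinal.{0}) :=
        hK.trans (aleph_le_aleph.2 (Nat.cast_le.2 hkn))
      obtain ⟨b, hb, hb'⟩ := sup_lt_W hKn (fun x => if e x < W (n + 1) then e x else 0) (fun x => by
        by_cases hx : e x < W (n + 1)
        · simp only [hx, if_true]
        · simp only [hx, if_false]
          exact W_pos _)
      refine ⟨b, hb, fun _ x hx => ?_⟩
      have h2 := hb' x
      simp only [hx, if_true] at h2
      exact h2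
    · exact ⟨0, W_pos _, fun h => absurd h hkn⟩
  choose g hg hg' using h1
  obtain ⟨i, hi⟩ := hdom g hg
  refine ⟨i, fun n hkn b hb hbW => ?_⟩
  obtain ⟨x, rfl⟩ := hAe hb
  exact (hg' n hkn x hbW).trans_le (hi n)

end SU
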