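import Pool.Agent.SU.Red

/-
PROJECT SU (MP_90aa37_lc).  Module PC: the cofinality of the product modulo the projection.
-/

open Cardinal Ordinal Set

namespace SU

theorem prodCof_eq {T ι : Type} {F : T → ℕ} {V : Ultrafilter (Sm F)} (h : NormalForm F V)
    (B : ι → Set (Sm F)) (hB : IsBase V B) (hι : #ι = ℵ_ ((ω : Ordinal.{0}) + 1)) :
    prodCof (V.map (fun x => F x.1)) = ℵ_ ((ω : Ordinal.{0}) + 1) := by
  obtain ⟨G, hG1, hG2⟩ := nf_cof h B hB
  apply le_antisymm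
  · exact csInf_le' ⟨ι, G, hι, hG1, hG2⟩
  · refine le_csInf ⟨_, ι, G, hι, hG1, hG2⟩ ?_
    rintro c ⟨K, G', rfl, hG1', hG2'⟩
    rw [← succ_aleph]
    apply Order.succ_le_of_lt
    by_contra hn
    have hun : ∀ m : ℕ, {n | m ≤ n} ∈ V.map (fun x : Sm F => F x.1) := by
      intro m
      have h3 := h.unbounded m
      rw [Ultrafilter.mem_map] at h3 ⊢
      exact h3
    obtain ⟨g, hg1, hg2⟩ := not_cof_small (not_lt.1 hn) _ hun G' hG1'
    obtain ⟨i, hi⟩ := hG2' g hg1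
    exact hg2 i hi

end SU
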