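import Pool.Agent.SU.PC
import Pool.Agent.SU.Reg

/-
PROJECT SU (MP_90aa37_lc).  Module PD: variants used in the statements.
-/

open Cardinal Ordinal Set

namespace SU

theorem prodCof_bounds {T ι : Type} {F : T → ℕ} {V : Ultrafilter (Sm F)} (h : NormalForm F V)
    (B : ι → Set (Sm F)) (hB : IsBase V B) :
    ℵ_ (ω : Ordinal.{0}) < prodCof (V.map (fun x => F x.1)) ∧
      prodCof (V.map (fun x => F x.1)) ≤ #ι := by
  obtain ⟨G, hG1, hG2⟩ := nf_cof h B hB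
  constructor
  · rw [← Order.succ_le_iff]
    refine le_csInf ⟨_, ι, G, rfl, hG1, hG2⟩ ?_
    rintro c ⟨K, G', rfl, hG1', hG2'⟩
    apply Order.succ_le_of_lt
    by_contra hn
    have hun : ∀ m : ℕ, {n | m ≤ n} ∈ V.map (fun x : Sm F => F x.1) := by
      intro m
      have h3 := h.unbounded m
      rw [Ultrafilter.mem_map] at h3 ⊢
      exact h3
    obtain ⟨g, hg1, hg2⟩ := not_cof_small (not_lt.1 hn) _ hun G' hG1'
    obtain ⟨i, hi⟩ := hG2' g hg1
    exact hg2 i hi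
  · exact csInf_le' ⟨ι, G, rfl, hG1, hG2⟩

/-- The finest partition can be taken with fewer than `ℵ_k` pieces. -/
theorem shrink {X T : Type} (U : Ultrafilter X) (k : ℕ) (p : X → T) (hT : #T < ℵ_ (ω : Ordinal.{0}))
    (hk : ∀ (S : Type) (F : X → S), #S < ℵ_ (ω : Ordinal.{0}) →
      ∃ A ∈ U, #(F '' A) < ℵ_ (k : Ordinal.{0}))
    (hp : ∀ (S : Type) (F : X → S), #S < ℵ_ (ω : Ordinal.{0}) → ∃ G : T → S, {x | F x = G (p x)} ∈ U) :
    ∃ (T' : Type) (p' : X → T'), #T' < ℵ_ (k : Ordinal.{0}) ∧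
      ∀ (S : Type) (F : X → S), #S < ℵ_ (ω : Ordinal.{0}) →
        ∃ G : T' → S, {x | F x = G (p' x)} ∈ U := by
  classical
  obtain ⟨A, hA, hAk⟩ := hk T p hT
  obtain ⟨x0, hx0⟩ := Ultrafilter.nonempty_of_mem hA
  refine ⟨p '' A, fun x => if h : x ∈ A then ⟨p x, mem_image_of_mem p h⟩ else
    ⟨p x0, mem_image_of_mem p hx0⟩, hAk, fun S F hS => ?_⟩
  obtain ⟨G, hG⟩ := hp S F hS
  refine ⟨fun t => G t.1, ?_⟩
  refine Filter.mem_of_superset (Filter.inter_mem hG hA) fun x hx => ?_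
  have h1 : F x = G (p x) := hx.1
  show F x = _
  simp only [dif_pos hx.2]
  exact h1

end SU
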