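import Pool.Agent.SU.RDefs
import Pool.Agent.SU.NFMain
import Pool.Agent.SU.NFd

/-
PROJECT SU (MP_90aa37_lc).  Module Red: the reduction.
-/

open Cardinal Ordinal Set

namespace SU

theorem isBase_of_baseOf {X : Type} {U : Ultrafilter X} {B : Set (Set X)} (h : BaseOf U B) :
    IsBase U (fun i : B => i.1) :=
  ⟨fun i => h.1 i.1 i.2, fun A hA => by
    obtain ⟨A', hA', h1⟩ := h.2 A hA
    exact ⟨⟨A', hA'⟩, h1⟩⟩

theorem baseOf_range {X ι : Type} {U : Ultrafilter X} {B : ι → Set X} (h : IsBase U B) :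
    BaseOf U (range B) := by
  refine ⟨?_, fun A hA => ?_⟩
  · rintro _ ⟨i, rfl⟩
    exact h.1 i
  · obtain ⟨i, hi⟩ := h.2 A hA
    exact ⟨B i, ⟨i, rfl⟩, hi⟩

theorem aleph_lt_of_base {X : Type} {U : Ultrafilter X} {B : Set (Set X)}
    (hκ : (ℵ_ ω : Cardinal.{0}).IsStrongLimit) (hX : #X = ℵ_ (ω : Ordinal.{0})) (hU : Uniform U)
    (hB : BaseOf U B) : ℵ_ ((ω : Ordinal.{0}) + 1) ≤ #B := by
  have h1 := base_large U _ (isBase_of_baseOf hB) hκ hX hU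
  rw [← succ_aleph]
  exact Order.succ_le_of_lt h1

theorem lt_omega_omega {c : Cardinal.{0}} (h : c ≤ ℵ_ ((ω : Ordinal.{0}) + 1)) :
    c < ℵ_ (ω_ ω) := by
  refine h.trans_lt (aleph_lt_aleph.2 ?_)
  have h1 : ω_ (0 : Ordinal.{0}) < ω_ ω := omega_lt_omega.2 omega0_pos
  rw [omega_zero] at h1
  have h2 := (isSuccLimit_omega (ω : Ordinal.{0})).succ_lt h1
  simpa using h2

theorem tower_of_eq (hκ : (ℵ_ ω : Cardinal.{0}).IsStrongLimit)
    (h1 : ℵ_ ((ω : Ordinal.{0}) + 1) < 2 ^ (ℵ_ ω : Cardinal.{0}))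
    (hu : ultrafilterNumber (ℵ_ ω) = ℵ_ ((ω : Ordinal.{0}) + 1)) :
    ∃ (T : Type) (F : T → ℕ) (V : Ultrafilter (Sm F))
      (C : (ω_ ((ω : Ordinal.{0}) + 1)).ToType → Set (Sm F)), NormalForm F V ∧ IsTower V C := by
  have hne : {c | ∃ (X : Type) (U : Ultrafilter X) (B : Set (Set X)),
      #X = ℵ_ (ω : Ordinal.{0}) ∧ Uniform U ∧ BaseOf U B ∧ #B = c}.Nonempty := by
    by_contra hc
    rw [Set.not_nonempty_iff_eq_empty] at hc
    unfold ultrafilterNumber at hu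
    rw [hc, Cardinal.sInf_empty] at hu
    exact absurd hu (aleph_pos _).ne
  have h2 := csInf_mem hne
  have h3 : ℵ_ ((ω : Ordinal.{0}) + 1) ∈ {c | ∃ (X : Type) (U : Ultrafilter X) (B : Set (Set X)),
      #X = ℵ_ (ω : Ordinal.{0}) ∧ Uniform U ∧ BaseOf U B ∧ #B = c} := by
    rw [← hu]
    exact h2
  obtain ⟨X, U, B, hX, hU, hB, hc⟩ := h3
  obtain ⟨T, F, φ, hNF⟩ := normalForm_exists U _ (isBase_of_baseOf hB) hκ (by rw [hc]; exact h1)
    (lt_omega_omega hc.le) hX hU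
  obtain ⟨C, hC1, hC2, hC3⟩ := exists_tower hNF hκ _ (isBase_map U _ (isBase_of_baseOf hB) φ) hc
  refine ⟨T, F, U.map φ, C, hNF, hC1, hC2, fun A hA => ?_⟩
  obtain ⟨i, hi⟩ := hC3 A hA
  exact ⟨i, _, hi, fun x hx => hx.2 x.2 hx.1⟩

theorem eq_of_tower (hκ : (ℵ_ ω : Cardinal.{0}).IsStrongLimit)
    {T : Type} {F : T → ℕ} {V : Ultrafilter (Sm F)}
    {C : (ω_ ((ω : Ordinal.{0}) + 1)).ToType → Set (Sm F)} (hNF : NormalForm F V) (hC : IsTower V C) :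
    ultrafilterNumber (ℵ_ ω) = ℵ_ ((ω : Ordinal.{0}) + 1) := by
  have hX : #(Sm F) = ℵ_ (ω : Ordinal.{0}) := nf_card_univ hNF
  have hU : Uniform V := fun A hA => by rw [nf_card hNF A hA, hX]
  let Q := (ω_ ((ω : Ordinal.{0}) + 1)).ToType × {Z : Set T // Z ∈ V.map Sigma.fst}
  let B : Q → Set (Sm F) := fun q => {x | x ∈ C q.1 ∧ x.1 ∈ q.2.1}
  have hB : IsBase V B := by
    refine ⟨fun q => ?_, fun A hA => ?_⟩
    · exact Filter.inter_mem (hC.mem q.1) q.2.2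
    · obtain ⟨i, Z, hZ, h1⟩ := hC.generates A hA
      exact ⟨(i, ⟨Z, hZ⟩), h1⟩
  have hQ : #Q ≤ ℵ_ ((ω : Ordinal.{0}) + 1) := by
    rw [mk_prod, Cardinal.lift_id, Cardinal.lift_id, mk_toType, Ordinal.card_omega]
    have h1 : #{Z : Set T // Z ∈ V.map Sigma.fst} ≤ ℵ_ ((ω : Ordinal.{0}) + 1) := by
      refine (mk_subtype_le _).trans ?_
      refine (card_set_lt hκ hNF.small).le.trans ?_
      rw [aleph_le_aleph]
      exact le_self_add
    exact (mul_le_mul' le_rfl h1).trans (mul_eq_self (aleph0_le_aleph _)).le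
  have h1 : #(range B) ≤ ℵ_ ((ω : Ordinal.{0}) + 1) := mk_range_le.trans hQ
  have h2 : #(range B) = ℵ_ ((ω : Ordinal.{0}) + 1) :=
    le_antisymm h1 (aleph_lt_of_base hκ hX hU (baseOf_range hB))
  apply le_antisymm
  · exact csInf_le' ⟨Sm F, V, range B, hX, hU, baseOf_range hB, h2⟩
  · refine le_csInf ⟨_, Sm F, V, range B, hX, hU, baseOf_range hB, h2⟩ ?_
    rintro c ⟨X, U, B', hX', hU', hB', rfl⟩
    exact aleph_lt_of_base hκ hX' hU' hB'

end SU
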