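import Pool.Agent.SU.Bas

/-
PROJECT SU (MP_90aa37_lc).  Module Silver: there is no strictly refining sequence of partitions of length `M`.

PROOF.  Suppose not: for all `y : M` and `Φ : Iio y → X → K` there is `F : X → K` with
(*) for every `A ∈ U` there are `x, x' ∈ A` with `Φ z x = Φ z x'` for all `z` and `F x ≠ F x'`.
By well-founded recursion get `F : M → X → K` such that for every `y`, (*) holds for `F y` and `Φ = fun z : Iio y => F z`.
Let `q x := fun y => F y x : M → K`, and `A ∈ U` with `#(q '' A) < ℵ_k` (hQ).  `Q := q '' A`.  For `s ≠ s'` in `Q` choose `η s s' : M` with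
`s (η s s') ≠ s' (η s s')`.  The set `{η s s' | s, s' ∈ Q}` has size `≤ #Q * #Q < ℵ_k` (if `#Q` is finite it is finite, otherwise it is
`≤ #Q`; `Cardinal.mul_lt_of_lt` with `ℵ₀ ≤ ℵ_k`), so it has a strict upper bound `b` (hreg).
Apply (*) at `y = b` to `A`: `x, x' ∈ A` with `F z x = F z x'` for all `z < b`, `F b x ≠ F b x'`.  Then `q x ≠ q x'`, but at
`z = η (q x) (q x') < b` they differ, a contradiction.
-/

open Cardinal Ordinal Set

namespace SU

theorem silver {X M K : Type} [LinearOrder M] [WellFoundedLT M] (U : Ultrafilter X) (k : ℕ)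
    (hreg : ∀ A : Set M, #A < ℵ_ (k : Ordinal.{0}) → ∃ b, ∀ a ∈ A, a < b)
    (hQ : ∀ q : X → (M → K), ∃ A ∈ U, #(q '' A) < ℵ_ (k : Ordinal.{0})) :
    ∃ (y : M) (Φ : Iio y → X → K), ∀ F : X → K, ∃ A ∈ U, ∀ x ∈ A, ∀ x' ∈ A,
      (∀ z, Φ z x = Φ z x') → F x = F x' := by
  classical
  by_contra hc
  push Not at hc
  choose stp hstp using hc
  let a : M → X → K := (wellFounded_lt (α := M)).fix (fun y r => stp y (fun z => r z.1 z.2))
  have ha : ∀ y, a y = stp y (fun z => a z.1) := by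
    intro y
    have h1 := (wellFounded_lt (α := M)).fix_eq
      (fun (y : M) (r : (z : M) → z < y → X → K) => stp y (fun z => r z.1 z.2)) y
    exact h1
  obtain ⟨A, hA, hcard⟩ := hQ (fun x y => a y x)
  set q : X → (M → K) := fun x y => a y x with hq
  have h1 : ∀ s s' : M → K, ∃ e : M, s ≠ s' → s e ≠ s' e := by
    intro s s'
    by_cases h : s = s'
    · obtain ⟨b, -⟩ := hreg ∅ (by
        rw [Cardinal.mk_eq_zero]
        exact aleph_pos _)
      exact ⟨b, fun h2 => absurd h h2⟩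
    · obtain ⟨e, he⟩ := Function.ne_iff.1 h
      exact ⟨e, fun _ => he⟩
  choose e he using h1
  have h2 : #((fun p : (M → K) × (M → K) => e p.1 p.2) '' ((q '' A) ×ˢ (q '' A))) <
      ℵ_ (k : Ordinal.{0}) := by
    refine mk_image_le.trans_lt ?_
    rw [mk_setProd]
    exact mul_lt_of_lt (aleph0_le_aleph _) hcard hcard
  obtain ⟨b, hb⟩ := hreg _ h2
  obtain ⟨x, hx, x', hx', h3, h4⟩ := hstp b (fun z => a z.1) A hA
  rw [← ha b] at h4
  have h5 : q x ≠ q x' := fun h6 => h4 (congrFun h6 b)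
  have h6 := he _ _ h5
  have h7 := hb (e (q x) (q x')) ⟨(q x, q x'), ⟨⟨x, hx, rfl⟩, ⟨x', hx', rfl⟩⟩, rfl⟩
  exact h6 (h3 ⟨_, h7⟩)

end SU
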