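import Pool.Agent.SU.Common
import Pool.Agent.SU.Bas

/-
PROJECT SU (MP_90aa37_lc).  Module Uniq: the generated set is determined by the values of the sequence on any
unbounded set of indices, below every `ω_n`.

PROOF.  Induction on `n ≥ k` (`Nat.le_induction`).
`n = k`: both sides are true (`small_mem_nn`).
Step: by symmetry (`heq` is symmetric) show: `b < W (n+1)`, `b ∈ NN k G f a univ` implies `b ∈ NN k G f' a' univ`.  `common` gives `c` with
`b < c < W (n+1)` in both sets.  `d := inv c b ∈ NN k G f a univ` (`Cl.inv`), `d < c.card.ord ≤ W n` (`inv_spec`; `card_le_of_lt_W`,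
`ord_aleph_nat`, `Cardinal.ord_le_ord`), so `d < W n` and the induction hypothesis gives `d ∈ NN k G f' a' univ`; `b = en c d ∈ NN k G f' a' univ`
(`Cl.en`, `inv_spec`).
(State the one-sided step as a private lemma for arbitrary `f f' a a'` and use it twice.)
-/

open Cardinal Ordinal Set

namespace SU

private theorem uniq_step {M ι : Type} [LinearOrder M] [WellFoundedLT M] [Nonempty M] {k : ℕ}
    (hseq : ∀ s : ℕ → M, ∃ b, ∀ j, s j < b) (G : ι → ℕ → Ordinal.{0}) (hG : ∀ i n, G i n < W (n + 1))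
    {f f' : ℕ → Ordinal.{0}} {a a' : M → ι} (h : Good k G f a) (h' : Good k G f' a')
    (Ξ : Set M) (hΞ : ∀ y, ∃ z ∈ Ξ, y < z) (heq : ∀ z ∈ Ξ, a z = a' z) (n : ℕ) (hn : k ≤ n)
    (ih : ∀ b < W n, (b ∈ NN k G f a univ → b ∈ NN k G f' a' univ)) (b : Ordinal.{0})
    (hb : b < W (n + 1)) (hbN : b ∈ NN k G f a univ) : b ∈ NN k G f' a' univ := by
  obtain ⟨c, hbc, hcW, hcN, hcN'⟩ := common hseq G hG h h' Ξ hΞ heq n hn hbN hb
  obtain ⟨h1, h2⟩ := inv_spec hbc
  have h3 : inv c b < W n := by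
    refine h1.trans_le ?_
    rw [← ord_aleph_nat, Cardinal.ord_le_ord]
    exact card_le_of_lt_W hcW
  have h4 : inv c b ∈ NN k G f a univ := Cl.inv hcN hbN
  have h5 : inv c b ∈ NN k G f' a' univ := ih _ h3 h4
  have h6 : en c (inv c b) ∈ NN k G f' a' univ := Cl.en hcN' h5
  rwa [h2] at h6

theorem uniq {M ι : Type} [LinearOrder M] [WellFoundedLT M] [Nonempty M] {k : ℕ}
    (hseq : ∀ s : ℕ → M, ∃ b, ∀ j, s j < b) (G : ι → ℕ → Ordinal.{0}) (hG : ∀ i n, G i n < W (n + 1))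
    {f f' : ℕ → Ordinal.{0}} {a a' : M → ι} (h : Good k G f a) (h' : Good k G f' a')
    (Ξ : Set M) (hΞ : ∀ y, ∃ z ∈ Ξ, y < z) (heq : ∀ z ∈ Ξ, a z = a' z) :
    ∀ n, k ≤ n → ∀ b < W n, (b ∈ NN k G f a univ ↔ b ∈ NN k G f' a' univ) := by
  intro n hn
  induction n, hn using Nat.le_induction with
  | base => exact fun b hb => ⟨fun _ => small_mem_nn k G f' a' univ hb,
      fun _ => small_mem_nn k G f a univ hb⟩
  | succ n hn ih =>
    intro b hb
    exact ⟨uniq_step hseq G hG h h' Ξ hΞ heq n hn (fun b hb => (ih b hb).1) b hb,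
      uniq_step hseq G hG h' h Ξ hΞ (fun z hz => (heq z hz).symm) n hn (fun b hb => (ih b hb).2) b hb⟩

end SU
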